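import Pool.Agent.ZAR.Ops

/-!
# ZAR: the algebra spanned by the dominated positive definite functions
-/

set_option autoImplicit false

open scoped ComplexOrder

namespace Pool.Agent.ZAR

universe u

variable {G : Type u} [Group G]

theorem PD.congr {φ ψ : G → ℂ} (h : PD φ) (e : ∀ g, φ g = ψ g) : PD ψ := by
  have : φ = ψ := funext e
  rwa [this] at h

/-- `φ` is positive definite and dominated by a multiple of a power of `θ`. -/
def Dmn (θ : G → ℂ) : Set (G → ℂ) :=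
  {ψ | PD ψ ∧ ∃ (D : ℕ) (C : ℝ), 0 ≤ C ∧ PD fun g => (C : ℂ) * θ g ^ D - ψ g}

theorem Dmn.mul {θ φ ψ : G → ℂ} (hθ : PD θ) (h1 : φ ∈ Dmn θ) (h2 : ψ ∈ Dmn θ) :
    φ * ψ ∈ Dmn θ := by
  obtain ⟨p1, D1, C1, hC1, q1⟩ := h1
  obtain ⟨p2, D2, C2, hC2, q2⟩ := h2
  refine ⟨p1.mul p2, D1 + D2, C1 * C2, mul_nonneg hC1 hC2, ?_⟩
  refine ((q1.mul ((hθ.pow D2).smul hC2)).add (p1.mul q2)).congr fun g => ?_
  simp only [Pi.mul_apply]
  push_cast
  ring

theorem Dmn.star_mem {θ φ : G → ℂ} (hr : ∀ g, star (θ g) = θ g) (h1 : φ ∈ Dmn θ) :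
    star φ ∈ Dmn θ := by
  obtain ⟨p1, D1, C1, hC1, q1⟩ := h1
  refine ⟨p1.conj, D1, C1, hC1, q1.conj.congr fun g => ?_⟩
  have h2 : star ((C1 : ℝ) : ℂ) = C1 := Complex.conj_ofReal _
  rw [star_sub, star_mul', star_pow, hr, h2, Pi.star_apply]

theorem Dmn.one (θ : G → ℂ) : (1 : G → ℂ) ∈ Dmn θ :=
  ⟨PD.one, 0, 1, zero_le_one, PD.zero.congr fun g => by simp⟩

/-- The star subalgebra spanned by the dominated functions. -/
noncomputable def spanAlg (θ : G → ℂ) (hθ : PD θ) (hr : ∀ g, star (θ g) = θ g) :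
    StarSubalgebra ℂ (G → ℂ) where
  carrier := (Submodule.span ℂ (Dmn θ) : Set (G → ℂ))
  mul_mem' {a b} ha hb := by
    have h1 : a * b ∈ Submodule.span ℂ (Dmn θ) * Submodule.span ℂ (Dmn θ) :=
      Submodule.mul_mem_mul ha hb
    rw [Submodule.span_mul_span] at h1
    refine Submodule.span_mono ?_ h1
    rintro _ ⟨x, hx, y, hy, rfl⟩
    exact Dmn.mul hθ hx hy
  one_mem' := Submodule.subset_span (Dmn.one θ)
  add_mem' ha hb := Submodule.add_mem _ ha hb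
  zero_mem' := Submodule.zero_mem _
  algebraMap_mem' r := by
    rw [Algebra.algebraMap_eq_smul_one]
    exact Submodule.smul_mem _ r (Submodule.subset_span (Dmn.one θ))
  star_mem' {a} ha := by
    refine Submodule.span_induction (p := fun x _ => star x ∈ Submodule.span ℂ (Dmn θ))
      ?_ ?_ ?_ ?_ ha
    · intro x hx
      exact Submodule.subset_span (Dmn.star_mem hr hx)
    · rw [star_zero]
      exact Submodule.zero_mem _
    · intro x y _ _ hx hy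
      rw [star_add]
      exact Submodule.add_mem _ hx hy
    · intro c x _ hx
      rw [star_smul]
      exact Submodule.smul_mem _ _ hx

theorem mem_spanAlg {θ : G → ℂ} {hθ : PD θ} {hr : ∀ g, star (θ g) = θ g} {φ : G → ℂ} :
    φ ∈ spanAlg θ hθ hr ↔ φ ∈ Submodule.span ℂ (Dmn θ) := Iff.rfl

theorem Q_add {X : Type u} (k l : X → X → ℂ) (a : X →₀ ℂ) :
    Q (fun x y => k x y + l x y) a a = Q k a a + Q l a a := by
  unfold Q Finsupp.sum
  rw [← Finset.sum_add_distrib]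
  refine Finset.sum_congr rfl fun x _ => ?_
  rw [← Finset.sum_add_distrib]
  refine Finset.sum_congr rfl fun y _ => ?_
  ring

theorem Q_smul {X : Type u} (k : X → X → ℂ) (C : ℂ) (a : X →₀ ℂ) :
    Q (fun x y => C * k x y) a a = C * Q k a a := by
  unfold Q Finsupp.sum
  rw [Finset.mul_sum]
  refine Finset.sum_congr rfl fun x _ => ?_
  rw [Finset.mul_sum]
  refine Finset.sum_congr rfl fun y _ => ?_
  ring

theorem PD.Q_nonneg {φ : G → ℂ} (h : PD φ) (a : G →₀ ℂ) :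
    0 ≤ Q (fun x y => φ (x⁻¹ * y)) a a := h.2 a

theorem PD.Q_norm {φ : G → ℂ} (h : PD φ) (a : G →₀ ℂ) :
    ‖Q (fun x y => φ (x⁻¹ * y)) a a‖ = (Q (fun x y => φ (x⁻¹ * y)) a a).re := by
  have h1 := h.Q_nonneg a
  rw [Complex.nonneg_iff] at h1
  have h2 : Q (fun x y => φ (x⁻¹ * y)) a a =
      (((Q (fun x y => φ (x⁻¹ * y)) a a).re : ℝ) : ℂ) :=
    Complex.ext rfl h1.2.symm
  rw [h2, Complex.norm_real, Complex.ofReal_re, Real.norm_of_nonneg h1.1]

/-- Comparison of quadratic forms. -/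
theorem PD.Q_le {φ ψ : G → ℂ} {C : ℝ} (h : PD fun g => (C : ℂ) * φ g - ψ g) (a : G →₀ ℂ) :
    (Q (fun x y => ψ (x⁻¹ * y)) a a).re ≤ C * (Q (fun x y => φ (x⁻¹ * y)) a a).re := by
  have h1 := h.Q_nonneg a
  have h2 := Q_comb (fun x y => φ (x⁻¹ * y)) (fun x y => ψ (x⁻¹ * y)) (C : ℂ) a
  rw [h2, Complex.nonneg_iff] at h1
  have h3 := h1.1
  rw [Complex.sub_re, Complex.re_ofReal_mul] at h3
  linarith

theorem pow_dom {θ : G → ℂ} (hθ : PD θ) (h3 : PD fun g => 3 * θ g - 1) (D E : ℕ) :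
    PD fun g => ((3 ^ E : ℝ) : ℂ) * θ g ^ (D + E) - θ g ^ D := by
  induction E with
  | zero => exact PD.zero.congr fun g => by simp
  | succ E ih =>
    have h4 : PD fun g => ((3 ^ E : ℝ) : ℂ) * (θ g ^ (D + E) * (3 * θ g - 1)) :=
      ((hθ.pow (D + E)).mul h3).smul (by positivity)
    refine (h4.add ih).congr fun g => ?_
    push_cast
    ring

/-- The functions with a dominated quadratic form. -/
noncomputable def domSub {θ : G → ℂ} (hθ : PD θ) (h3 : PD fun g => 3 * θ g - 1) :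
    Submodule ℂ (G → ℂ) where
  carrier := {φ | ∃ (D : ℕ) (C : ℝ), 0 ≤ C ∧ ∀ a : G →₀ ℂ, ‖Q (fun x y => φ (x⁻¹ * y)) a a‖ ≤
      C * (Q (fun x y => θ (x⁻¹ * y) ^ D) a a).re}
  zero_mem' := by
    refine ⟨0, 0, le_rfl, fun a => ?_⟩
    rw [zero_mul]
    simp [Q]
  add_mem' {φ ψ} := by
    rintro ⟨D, C, hC, h⟩ ⟨D', C', hC', h'⟩
    refine ⟨D + D', C * 3 ^ D' + C' * 3 ^ D, by positivity, fun a => ?_⟩
    have e1 : Q (fun x y => (φ + ψ) (x⁻¹ * y)) a a =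
        Q (fun x y => φ (x⁻¹ * y)) a a + Q (fun x y => ψ (x⁻¹ * y)) a a :=
      Q_add _ _ a
    rw [e1]
    refine le_trans (norm_add_le _ _) (le_trans (add_le_add (h a) (h' a)) ?_)
    have i1 := PD.Q_le (φ := fun g => θ g ^ (D + D')) (ψ := fun g => θ g ^ D) (C := 3 ^ D')
      (pow_dom hθ h3 D D') a
    have i2 := PD.Q_le (φ := fun g => θ g ^ (D + D')) (ψ := fun g => θ g ^ D') (C := 3 ^ D)
      ((pow_dom hθ h3 D' D).congr fun g => by rw [add_comm D' D]) a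
    have j1 := mul_le_mul_of_nonneg_left i1 hC
    have j2 := mul_le_mul_of_nonneg_left i2 hC'
    linarith
  smul_mem' c φ := by
    rintro ⟨D, C, hC, h⟩
    refine ⟨D, ‖c‖ * C, by positivity, fun a => ?_⟩
    have e1 : Q (fun x y => (c • φ) (x⁻¹ * y)) a a = c * Q (fun x y => φ (x⁻¹ * y)) a a :=
      Q_smul _ _ a
    rw [e1, norm_mul, mul_assoc]
    exact mul_le_mul_of_nonneg_left (h a) (norm_nonneg c)

/-- Every function in the span is dominated. -/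
theorem span_dom {θ : G → ℂ} (hθ : PD θ) (h3 : PD fun g => 3 * θ g - 1)
    {φ : G → ℂ} (hφ : φ ∈ Submodule.span ℂ (Dmn θ)) :
    ∃ (D : ℕ) (C : ℝ), 0 ≤ C ∧ ∀ a : G →₀ ℂ, ‖Q (fun x y => φ (x⁻¹ * y)) a a‖ ≤
      C * (Q (fun x y => θ (x⁻¹ * y) ^ D) a a).re := by
  have h1 : Submodule.span ℂ (Dmn θ) ≤ domSub hθ h3 := by
    rw [Submodule.span_le]
    rintro ψ ⟨hψ, D, C, hC, h⟩
    refine ⟨D, C, hC, fun a => ?_⟩
    rw [hψ.Q_norm]
    exact PD.Q_le (φ := fun g => θ g ^ D) h a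
  exact h1 hφ

/-- A positive definite function in the span is dominated. -/
theorem dom_of_span {θ : G → ℂ} (hθ : PD θ) (h3 : PD fun g => 3 * θ g - 1)
    {φ : G → ℂ} (hφ : φ ∈ Submodule.span ℂ (Dmn θ)) (hp : PD φ) :
    ∃ (D : ℕ) (C : ℝ), 0 < C ∧ PD fun g => (C : ℂ) * θ g ^ D - φ g := by
  obtain ⟨D, C, hC, h⟩ := span_dom hθ h3 hφ
  refine ⟨D, C + 1, by positivity, ?_⟩
  have hpD := hθ.pow D
  constructor
  · have h1 := ((hpD.smul (show (0 : ℝ) ≤ C + 1 by positivity)).1).sub hp.1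
    exact h1
  · intro a
    show 0 ≤ Q (fun x y => ((C + 1 : ℝ) : ℂ) * θ (x⁻¹ * y) ^ D - φ (x⁻¹ * y)) a a
    rw [Q_comb]
    have h1 := hpD.Q_nonneg a
    have h2 := hp.Q_nonneg a
    have h4 := h a
    rw [hp.Q_norm] at h4
    rw [Complex.nonneg_iff] at h1 h2 ⊢
    constructor
    · rw [Complex.sub_re, Complex.re_ofReal_mul]
      linarith [h1.1]
    · rw [Complex.sub_im, Complex.im_ofReal_mul, ← h1.2, ← h2.2]
      ring

end Pool.Agent.ZAR
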