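import Pool.Agent.ZAR.Ops
import Pool.Agent.FAP.Defs

/-!
# ZAR: the matrix model of a system of matrix units
-/

set_option autoImplicit false

open scoped ComplexOrder

namespace Pool.Agent.ZAR

open Pool.Agent.FAP

universe u

variable {H : Type u} [NormedAddCommGroup H] [InnerProductSpace ℂ H] [CompleteSpace H]

/-- The representation of a group of unitaries. -/
noncomputable def rep (Γ : Subgroup (unitary (H →L[ℂ] H))) : Γ →* (H ≃ₗᵢ[ℂ] H) :=
  (Unitary.linearIsometryEquiv (𝕜 := ℂ) (H := H)).toMonoidHom.comp Γ.subtype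

theorem rep_apply (Γ : Subgroup (unitary (H →L[ℂ] H))) (g : Γ) (x : H) :
    rep Γ g x = ((g : unitary (H →L[ℂ] H)) : H →L[ℂ] H) x := rfl

/-- Matrix units in `M`. -/
structure MU (M : StarSubalgebra ℂ (H →L[ℂ] H)) {n : ℕ} (e : Fin n → Fin n → H →L[ℂ] H) :
    Prop where
  mem : ∀ i j, e i j ∈ M
  mul : ∀ i j k, e i j * e j k = e i k
  zer : ∀ i j k l, j ≠ k → e i j * e k l = 0
  adj : ∀ i j, star (e i j) = e j i
  one : ∑ i, e i i = 1

theorem inner_star_left' (x : H →L[ℂ] H) (v w : H) :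
    (inner ℂ (x v) w : ℂ) = inner ℂ v (star x w) := by
  rw [ContinuousLinearMap.star_eq_adjoint, ContinuousLinearMap.adjoint_inner_right]

section

variable {M : StarSubalgebra ℂ (H →L[ℂ] H)} {Ω : H} (hΩ : TraceVec M Ω) {n : ℕ}
  {e : Fin n → Fin n → H →L[ℂ] H} (he : MU M e)

include hΩ he

/-- `⟪e i j Ω, x Ω⟫ = ⟪Ω, e j i x Ω⟫`. -/
theorem mu_inner (i j : Fin n) (x : H →L[ℂ] H) :
    (inner ℂ (e i j Ω) (x Ω) : ℂ) = inner ℂ Ω ((e j i * x) Ω) := by
  rw [inner_star_left', he.adj]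
  rfl

theorem mu_diag (i j : Fin n) :
    (inner ℂ Ω (e i i Ω) : ℂ) = inner ℂ Ω (e j j Ω) := by
  have h1 := hΩ.trace (e i j) (he.mem i j) (e j i) (he.mem j i)
  rw [he.mul, he.mul] at h1
  exact h1

theorem mu_card (i : Fin n) : (n : ℂ) * inner ℂ Ω (e i i Ω) = 1 := by
  have h1 : (inner ℂ Ω ((∑ j, e j j : H →L[ℂ] H) Ω) : ℂ) = 1 := by
    rw [he.one]
    show (inner ℂ Ω Ω : ℂ) = 1
    rw [inner_self_c, hΩ.norm_one]
    norm_num
  rw [sum_apply, inner_sum] at h1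
  rw [← h1]
  rw [Finset.sum_congr rfl fun j _ => mu_diag hΩ he j i]
  simp

theorem mu_orth (i j k l : Fin n) :
    (n : ℂ) * inner ℂ (e i j Ω) (e k l Ω) = if i = k ∧ j = l then 1 else 0 := by
  rw [mu_inner hΩ he]
  by_cases hik : i = k
  · subst hik
    rw [he.mul]
    by_cases hjl : j = l
    · subst hjl
      rw [mu_card hΩ he, if_pos ⟨rfl, rfl⟩]
    · have h1 := hΩ.trace (e j i) (he.mem j i) (e i l) (he.mem i l)
      rw [he.mul, he.zer i l j i (Ne.symm hjl)] at h1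
      rw [h1, if_neg (fun h => hjl h.2)]
      simp
  · rw [he.zer j i k l hik, if_neg (fun h => hik h.1)]
    simp

end

/-- The vectors of the model. -/
noncomputable def mv (Ω : H) {n : ℕ} (e : Fin n → Fin n → H →L[ℂ] H) (i₀ : Fin n) (i : Fin n) :
    H := ((√(n : ℝ) : ℝ) : ℂ) • e i i₀ Ω

theorem mv_inner (Ω : H) {n : ℕ} (e : Fin n → Fin n → H →L[ℂ] H) (i₀ i j : Fin n)
    (x : H →L[ℂ] H) : (inner ℂ (mv Ω e i₀ i) (x (mv Ω e i₀ j)) : ℂ) =
      n * inner ℂ (e i i₀ Ω) ((x * e j i₀) Ω) := by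
  unfold mv
  rw [map_smul, inner_smul_left, inner_smul_right, Complex.conj_ofReal, ← mul_assoc,
    ← Complex.ofReal_mul, Real.mul_self_sqrt (Nat.cast_nonneg n), Complex.ofReal_natCast]
  rfl

/-- The model. -/
theorem base_model (M : StarSubalgebra ℂ (H →L[ℂ] H)) {Ω : H} (hΩ : TraceVec M Ω)
    (Γ : Subgroup (unitary (H →L[ℂ] H))) (hΓ : ∀ u ∈ Γ, (u : H →L[ℂ] H) ∈ M) {n : ℕ}
    {e : Fin n → Fin n → H →L[ℂ] H} (he : MU M e) (i₀ : Fin n) (F : Finset Γ) (ε : ℝ)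
    (hε : 0 ≤ ε) (happ : ∀ u ∈ F, ∃ c : Fin n → Fin n → ℂ,
      ‖((u : unitary (H →L[ℂ] H)) : H →L[ℂ] H) Ω - ∑ i, ∑ j, c i j • e i j Ω‖ ≤ ε) :
    ∃ Λ : Γ → Fin n → Fin n → ℂ, Mdl Λ ∧
      (∀ g, avd Λ g = inner ℂ Ω (((g : unitary (H →L[ℂ] H)) : H →L[ℂ] H) Ω)) ∧
      (∀ g ∈ F, 1 - ε ^ 2 ≤ avs Λ g) := by
  classical
  have hn : (0 : ℝ) < n := by exact_mod_cast i₀.pos
  have hn' : (n : ℂ) ≠ 0 := by exact_mod_cast hn.ne'
  have hΛ : ∀ (g : Γ) (i j : Fin n), (inner ℂ (mv Ω e i₀ i) (rep Γ g (mv Ω e i₀ j)) : ℂ) =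
      n * inner ℂ (e i j Ω) (((g : unitary (H →L[ℂ] H)) : H →L[ℂ] H) Ω) := by
    intro g i j
    have hg := hΓ g g.2
    rw [rep_apply, mv_inner, mu_inner hΩ he, mu_inner hΩ he]
    congr 1
    have h1 := hΩ.trace (e i₀ i * (((g : unitary (H →L[ℂ] H)) : H →L[ℂ] H)))
      (M.mul_mem (he.mem _ _) hg) (e j i₀) (he.mem _ _)
    rw [mul_assoc, ← mul_assoc (e j i₀), he.mul] at h1
    exact h1
  refine ⟨fun g i j => inner ℂ (mv Ω e i₀ i) (rep Γ g (mv Ω e i₀ j)), ⟨?_, fun i => ?_,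
    fun i j hij => ?_⟩, fun g => ?_, fun g hg => ?_⟩
  · refine psd_gram (fun p : Γ × Fin n => rep Γ p.1 (mv Ω e i₀ p.2)) _ fun p q => ?_
    rw [unit_inner, map_mul]
    rfl
  · rw [map_one]
    show (inner ℂ (mv Ω e i₀ i) ((1 : H →L[ℂ] H) (mv Ω e i₀ i)) : ℂ) = 1
    rw [mv_inner, one_mul, mu_orth hΩ he, if_pos ⟨rfl, rfl⟩]
  · rw [map_one]
    show (inner ℂ (mv Ω e i₀ i) ((1 : H →L[ℂ] H) (mv Ω e i₀ j)) : ℂ) = 0
    rw [mv_inner, one_mul, mu_orth hΩ he, if_neg (fun h => hij h.1)]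
  · unfold avd
    simp only [hΛ]
    rw [← Finset.mul_sum, Fintype.card_fin, mul_div_assoc, mul_div_cancel₀ _ hn']
    have h1 : ∀ i, (inner ℂ (e i i Ω) (((g : unitary (H →L[ℂ] H)) : H →L[ℂ] H) Ω) : ℂ) =
        inner ℂ Ω ((e i i * ((g : unitary (H →L[ℂ] H)) : H →L[ℂ] H)) Ω) :=
      fun i => mu_inner hΩ he i i _
    simp only [h1]
    rw [← inner_sum, ← sum_apply, ← Finset.sum_mul, he.one, one_mul]
  · -- the average of the squares
    obtain ⟨c, hc⟩ := happ g hg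
    set x : H := ((g : unitary (H →L[ℂ] H)) : H →L[ℂ] H) Ω with hx
    have hxn : ‖x‖ = 1 := by
      rw [hx, Unitary.norm_map, hΩ.norm_one]
    unfold avs
    simp only [hΛ]
    set a : Fin n × Fin n → ℂ := fun p => inner ℂ (e p.1 p.2 Ω) x with ha
    have hsum : (∑ i, ∑ j, ‖(n : ℂ) * inner ℂ (e i j Ω) x‖ ^ 2) / (Fintype.card (Fin n) : ℝ) =
        n * ∑ p, ‖a p‖ ^ 2 := by
      rw [Fintype.card_fin, ← Fintype.sum_prod_type', Finset.sum_div, Finset.mul_sum]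
      refine Finset.sum_congr rfl fun p _ => ?_
      rw [norm_mul, Complex.norm_natCast, mul_pow, ha]
      field_simp
    rw [hsum]
    set y : H := ∑ p : Fin n × Fin n, c p.1 p.2 • e p.1 p.2 Ω with hy
    have hxy : ‖x - y‖ ≤ ε := by
      rw [hy, Fintype.sum_prod_type]
      exact hc
    have hyx : (inner ℂ y x : ℂ) = ∑ p, star (c p.1 p.2) * a p := by
      rw [hy, sum_inner]
      refine Finset.sum_congr rfl fun p _ => ?_
      rw [inner_smul_left]
      rfl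
    have hyy : (n : ℂ) * inner ℂ y y = ∑ p : Fin n × Fin n, star (c p.1 p.2) * c p.1 p.2 := by
      rw [hy, sum_inner, Finset.mul_sum]
      refine Finset.sum_congr rfl fun p _ => ?_
      rw [inner_sum, Finset.mul_sum, Finset.sum_eq_single p]
      · rw [inner_smul_left, inner_smul_right]
        have h1 := mu_orth hΩ he p.1 p.2 p.1 p.2
        rw [if_pos ⟨rfl, rfl⟩] at h1
        calc (n : ℂ) * ((starRingEnd ℂ) (c p.1 p.2) * (c p.1 p.2 *
              inner ℂ (e p.1 p.2 Ω) (e p.1 p.2 Ω))) =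
              (starRingEnd ℂ) (c p.1 p.2) * c p.1 p.2 *
                ((n : ℂ) * inner ℂ (e p.1 p.2 Ω) (e p.1 p.2 Ω)) := by ring
          _ = star (c p.1 p.2) * c p.1 p.2 := by rw [h1, mul_one]; rfl
      · intro q _ hq
        rw [inner_smul_left, inner_smul_right]
        have h1 := mu_orth hΩ he p.1 p.2 q.1 q.2
        rw [if_neg (fun h => hq (Prod.ext h.1.symm h.2.symm))] at h1
        have h2 := (mul_eq_zero.1 h1).resolve_left hn'
        rw [h2]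
        simp
      · intro h
        exact absurd (Finset.mem_univ _) h
    have hexp : ‖x - y‖ ^ 2 = 1 - n * ∑ p, ‖a p‖ ^ 2 +
        (∑ p, ‖c p.1 p.2 - n * a p‖ ^ 2) / n := by
      have h1 : ‖x - y‖ ^ 2 = 1 - 2 * (inner ℂ y x : ℂ).re + ‖y‖ ^ 2 := by
        have h2 := norm_sub_sq (𝕜 := ℂ) x y
        rw [hxn] at h2
        have h3 : RCLike.re (inner ℂ x y : ℂ) = (inner ℂ y x : ℂ).re := by
          rw [← inner_conj_symm]
          exact Complex.conj_re _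
        rw [h3] at h2
        linarith
      have h2 : ‖y‖ ^ 2 = (∑ p : Fin n × Fin n, ‖c p.1 p.2‖ ^ 2) / n := by
        rw [eq_div_iff hn.ne']
        rw [inner_self_c] at hyy
        have h3 : ∀ p : Fin n × Fin n, star (c p.1 p.2) * c p.1 p.2 =
            ((‖c p.1 p.2‖ ^ 2 : ℝ) : ℂ) := by
          intro p
          rw [mul_comm, ← Complex.normSq_eq_norm_sq, ← Complex.mul_conj]
          rfl
        simp only [h3] at hyy
        have h4 : (n : ℝ) * ‖y‖ ^ 2 = ∑ p : Fin n × Fin n, ‖c p.1 p.2‖ ^ 2 := by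
          exact_mod_cast hyy
        linarith
      have h3 : ∀ p : Fin n × Fin n, ‖c p.1 p.2 - n * a p‖ ^ 2 =
          ‖c p.1 p.2‖ ^ 2 - 2 * n * (star (c p.1 p.2) * a p).re + n ^ 2 * ‖a p‖ ^ 2 := by
        intro p
        rw [← Complex.normSq_eq_norm_sq, ← Complex.normSq_eq_norm_sq,
          ← Complex.normSq_eq_norm_sq]
        have h4 : star (c p.1 p.2) = (starRingEnd ℂ) (c p.1 p.2) := rfl
        rw [h4]
        simp only [Complex.normSq_apply, Complex.sub_re, Complex.sub_im, Complex.mul_re,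
          Complex.mul_im, Complex.natCast_re, Complex.natCast_im, Complex.conj_re,
          Complex.conj_im]
        ring
      rw [h1, h2, hyx, Complex.re_sum]
      simp only [h3]
      rw [Finset.sum_add_distrib, Finset.sum_sub_distrib, ← Finset.mul_sum, ← Finset.mul_sum]
      field_simp
      ring
    have h5 : 0 ≤ (∑ p : Fin n × Fin n, ‖c p.1 p.2 - n * a p‖ ^ 2) / n := by positivity
    have h6 : ‖x - y‖ ^ 2 ≤ ε ^ 2 := pow_le_pow_left₀ (norm_nonneg _) hxy 2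
    linarith

end Pool.Agent.ZAR
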