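import Pool.Agent.ZAR.Alg
import Pool.Agent.ZAR.Base

/-!
# ZAR: coefficients of a group of unitaries of a tracial algebra
-/

set_option autoImplicit false

open scoped ComplexOrder

namespace Pool.Agent.ZAR

open Pool.Agent.FAP Pool.Agent.JM

universe u

variable {H : Type u} [NormedAddCommGroup H] [InnerProductSpace ℂ H] [CompleteSpace H]

theorem inner_star_right' (x : H →L[ℂ] H) (v w : H) :
    (inner ℂ v (x w) : ℂ) = inner ℂ (star x v) w := by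
  rw [inner_star_left', star_star]

theorem trace_star {M : StarSubalgebra ℂ (H →L[ℂ] H)} {Ω : H} (hΩ : TraceVec M Ω)
    {z : H →L[ℂ] H} (hz : z ∈ M) : ‖star z Ω‖ = ‖z Ω‖ := by
  have h1 := hΩ.trace (star z) (star_mem hz) z hz
  have h2 : (inner ℂ Ω ((star z * z) Ω) : ℂ) = ((‖z Ω‖ ^ 2 : ℝ) : ℂ) := by
    show (inner ℂ Ω (star z (z Ω)) : ℂ) = _
    rw [← inner_star_left', inner_self_c]
  have h3 : (inner ℂ Ω ((z * star z) Ω) : ℂ) = ((‖star z Ω‖ ^ 2 : ℝ) : ℂ) := by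
    show (inner ℂ Ω (z (star z Ω)) : ℂ) = _
    rw [inner_star_right', inner_self_c]
  rw [h2, h3] at h1
  have h4 : ‖z Ω‖ ^ 2 = ‖star z Ω‖ ^ 2 := by exact_mod_cast h1
  exact ((sq_eq_sq₀ (norm_nonneg _) (norm_nonneg _)).1 h4).symm

theorem trace_bound {M : StarSubalgebra ℂ (H →L[ℂ] H)} {Ω : H} (hΩ : TraceVec M Ω)
    {z b : H →L[ℂ] H} (hz : z ∈ M) (hb : b ∈ M) : ‖z (b Ω)‖ ≤ ‖b‖ * ‖z Ω‖ := by
  have h1 : ‖z (b Ω)‖ = ‖star (z * b) Ω‖ := by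
    rw [trace_star hΩ (mul_mem hz hb)]
    rfl
  rw [h1, star_mul]
  refine le_trans ((star b).le_opNorm (star z Ω)) ?_
  rw [norm_star, trace_star hΩ hz]

/-- Diagonal coefficients. -/
noncomputable def psi (Γ : Subgroup (unitary (H →L[ℂ] H))) (ξ : H) (g : Γ) : ℂ :=
  inner ℂ ξ (((g : unitary (H →L[ℂ] H)) : H →L[ℂ] H) ξ)

theorem psi_pd (Γ : Subgroup (unitary (H →L[ℂ] H))) (ξ : H) : PD (psi Γ ξ) :=
  PD.coef (rep Γ) ξ

/-- The operator of a finitely supported function. -/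
noncomputable def opr (Γ : Subgroup (unitary (H →L[ℂ] H))) (a : Γ →₀ ℂ) : H →L[ℂ] H :=
  Finsupp.linearCombination ℂ (fun x : Γ => ((x : unitary (H →L[ℂ] H)) : H →L[ℂ] H)) a

theorem opr_apply (Γ : Subgroup (unitary (H →L[ℂ] H))) (a : Γ →₀ ℂ) (ξ : H) :
    opr Γ a ξ = Finsupp.linearCombination ℂ (fun x : Γ => rep Γ x ξ) a := by
  unfold opr
  rw [Finsupp.linearCombination_apply, Finsupp.linearCombination_apply, Finsupp.sum,
    Finsupp.sum, sum_apply]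
  rfl

theorem opr_mem {M : StarSubalgebra ℂ (H →L[ℂ] H)} {Γ : Subgroup (unitary (H →L[ℂ] H))}
    (hΓ : ∀ u ∈ Γ, (u : H →L[ℂ] H) ∈ M) (a : Γ →₀ ℂ) : opr Γ a ∈ M := by
  unfold opr
  rw [Finsupp.linearCombination_apply, Finsupp.sum]
  exact sum_mem fun x _ => SMulMemClass.smul_mem _ (hΓ x x.2)

theorem Q_psi (Γ : Subgroup (unitary (H →L[ℂ] H))) (ξ : H) (a : Γ →₀ ℂ) :
    Q (fun x y => psi Γ ξ (x⁻¹ * y)) a a = ((‖opr Γ a ξ‖ ^ 2 : ℝ) : ℂ) := by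
  rw [opr_apply, norm_lc_sq]
  congr 1
  funext x y
  rw [unit_inner]
  rfl

theorem psi_dom {M : StarSubalgebra ℂ (H →L[ℂ] H)} {Ω : H} (hΩ : TraceVec M Ω)
    {Γ : Subgroup (unitary (H →L[ℂ] H))} (hΓ : ∀ u ∈ Γ, (u : H →L[ℂ] H) ∈ M)
    {b : H →L[ℂ] H} (hb : b ∈ M) {C : ℝ} (hC : ‖b‖ ^ 2 ≤ C) :
    PD fun g => (C : ℂ) * psi Γ Ω g - psi Γ (b Ω) g := by
  have hC0 : 0 ≤ C := le_trans (sq_nonneg _) hC
  constructor
  · exact (((psi_pd Γ Ω).smul hC0).1).sub (psi_pd Γ (b Ω)).1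
  · intro a
    show 0 ≤ Q (fun x y => (C : ℂ) * psi Γ Ω (x⁻¹ * y) - psi Γ (b Ω) (x⁻¹ * y)) a a
    rw [Q_comb, Q_psi, Q_psi, ← Complex.ofReal_mul, ← Complex.ofReal_sub, Complex.zero_le_real,
      sub_nonneg]
    have h1 := trace_bound hΩ (opr_mem hΓ a) hb
    calc ‖opr Γ a (b Ω)‖ ^ 2 ≤ (‖b‖ * ‖opr Γ a Ω‖) ^ 2 :=
          pow_le_pow_left₀ (norm_nonneg _) h1 2
      _ = ‖b‖ ^ 2 * ‖opr Γ a Ω‖ ^ 2 := by ring
      _ ≤ C * ‖opr Γ a Ω‖ ^ 2 := mul_le_mul_of_nonneg_right hC (sq_nonneg _)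

/-- `θ = (1 + τ + conj τ) / 3`. -/
noncomputable def th (Γ : Subgroup (unitary (H →L[ℂ] H))) (Ω : H) (g : Γ) : ℂ :=
  (1 + psi Γ Ω g + star (psi Γ Ω g)) / 3

theorem th_pd (Γ : Subgroup (unitary (H →L[ℂ] H))) (Ω : H) : PD (th Γ Ω) := by
  refine (((PD.one.add (psi_pd Γ Ω)).add (psi_pd Γ Ω).conj).smul
    (show (0 : ℝ) ≤ 1 / 3 by norm_num)).congr fun g => ?_
  unfold th
  push_cast
  ring

theorem th_star (Γ : Subgroup (unitary (H →L[ℂ] H))) (Ω : H) (g : Γ) :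
    star (th Γ Ω g) = th Γ Ω g := by
  unfold th
  have h3 : star (3 : ℂ) = 3 := Complex.conj_ofNat 3
  rw [star_div₀, star_add, star_add, star_one, star_star, h3]
  ring

theorem th_three (Γ : Subgroup (unitary (H →L[ℂ] H))) (Ω : H) :
    PD fun g => 3 * th Γ Ω g - 1 := by
  refine ((psi_pd Γ Ω).add (psi_pd Γ Ω).conj).congr fun g => ?_
  unfold th
  ring

theorem th_psi (Γ : Subgroup (unitary (H →L[ℂ] H))) (Ω : H) :
    PD fun g => 3 * th Γ Ω g - psi Γ Ω g := by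
  refine (PD.one.add (psi_pd Γ Ω).conj).congr fun g => ?_
  unfold th
  ring

section

variable {M : StarSubalgebra ℂ (H →L[ℂ] H)} {Ω : H} (hΩ : TraceVec M Ω)
  {Γ : Subgroup (unitary (H →L[ℂ] H))} (hΓ : ∀ u ∈ Γ, (u : H →L[ℂ] H) ∈ M)

include hΩ hΓ

theorem psi_dmn {b : H →L[ℂ] H} (hb : b ∈ M) : psi Γ (b Ω) ∈ Dmn (th Γ Ω) := by
  refine ⟨psi_pd Γ (b Ω), 1, 3 * ‖b‖ ^ 2, by positivity, ?_⟩
  refine (((th_psi Γ Ω).smul (sq_nonneg ‖b‖)).add (psi_dom hΩ hΓ hb le_rfl)).congr fun g => ?_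
  push_cast
  ring

end

/-- Coefficients. -/
noncomputable def cf (Γ : Subgroup (unitary (H →L[ℂ] H))) (Ω : H) (c : H →L[ℂ] H) (g : Γ) : ℂ :=
  inner ℂ Ω ((c * ((g : unitary (H →L[ℂ] H)) : H →L[ℂ] H)) Ω)

theorem polar (A : H →L[ℂ] H) (x y : H) : (inner ℂ x (A y) : ℂ) =
    (1 / 4) * (inner ℂ (x + y) (A (x + y)) - inner ℂ (-x + y) (A (-x + y)) +
      Complex.I * inner ℂ (Complex.I • x + y) (A (Complex.I • x + y)) -
      Complex.I * inner ℂ (-Complex.I • x + y) (A (-Complex.I • x + y))) := by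
  simp only [map_add, map_neg, map_smul, inner_add_left, inner_add_right, inner_neg_left,
    inner_neg_right, inner_smul_left, inner_smul_right, Complex.conj_I]
  linear_combination ((1 / 2 : ℂ) * inner ℂ x (A y) - (1 / 2) * inner ℂ y (A x)) *
    Complex.I_mul_I

section

variable {M : StarSubalgebra ℂ (H →L[ℂ] H)} {Ω : H} (hΩ : TraceVec M Ω)
  {Γ : Subgroup (unitary (H →L[ℂ] H))} (hΓ : ∀ u ∈ Γ, (u : H →L[ℂ] H) ∈ M)

include hΩ hΓ

theorem cf_mem {c : H →L[ℂ] H} (hc : c ∈ M) :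
    cf Γ Ω c ∈ Submodule.span ℂ (Dmn (th Γ Ω)) := by
  have hm : ∀ z : ℂ, psi Γ (z • star c Ω + Ω) ∈ Submodule.span ℂ (Dmn (th Γ Ω)) := by
    intro z
    refine Submodule.subset_span ?_
    exact psi_dmn hΩ hΓ (b := z • star c + 1)
      (add_mem (SMulMemClass.smul_mem z (star_mem hc)) (one_mem M))
  have h1 : cf Γ Ω c = (1 / 4 : ℂ) • (psi Γ ((1 : ℂ) • star c Ω + Ω) -
      psi Γ ((-1 : ℂ) • star c Ω + Ω) + Complex.I • psi Γ (Complex.I • star c Ω + Ω) -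
      Complex.I • psi Γ (-Complex.I • star c Ω + Ω)) := by
    funext g
    simp only [Pi.smul_apply, Pi.sub_apply, Pi.add_apply, smul_eq_mul, one_smul, neg_smul]
    have h2 := polar ((g : unitary (H →L[ℂ] H)) : H →L[ℂ] H) (star c Ω) Ω
    rw [← inner_star_right', neg_smul] at h2
    exact h2
  rw [h1]
  exact Submodule.smul_mem _ _ (Submodule.sub_mem _ (Submodule.add_mem _ (Submodule.sub_mem _
    (hm 1) (hm (-1))) (Submodule.smul_mem _ _ (hm _))) (Submodule.smul_mem _ _ (hm _)))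

end

end Pool.Agent.ZAR
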