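import Pool.Agent.FAP.WALK
import Pool.Agent.FAP.AINV
import Pool.Agent.FAP.CRIT

/-!
# ZAR: square summable almost invariant positive definite functions and amenability
-/

set_option autoImplicit false

namespace Pool.Agent.ZAR

open Finset Pool.Agent.FAP Pool.Agent.FAP.WALK_ Pool.Agent.JM

universe u

variable {G : Type u} [Group G]

/-- Real positive definite functions. -/
structure RPD (φ : G → ℝ) : Prop where
  one : φ 1 = 1
  sym : ∀ g, φ g⁻¹ = φ g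
  pd : ∀ (T : Finset G) (b : G → ℝ), 0 ≤ ∑ g ∈ T, ∑ h ∈ T, b g * b h * φ (g⁻¹ * h)

theorem a_sq (S : Finset G) (hi : ∀ s ∈ S, s⁻¹ ∈ S) {φ : G → ℝ} (hφ : RPD φ)
    (m : ℕ) : EE S m φ ^ 2 ≤ EE S (m + m) φ := by
  classical
  have h0 : EE S (m + m) φ = EE S m (fun g => EE S m (fun h => φ (g⁻¹ * h))) := by
    rw [EE_append]
    exact (EE_inv S hi m (fun g => EE S m (fun h => φ (g * h)))).symm
  set T := insert (1 : G) (TT S m) with hT
  set a : ℝ := EE S m φ with ha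
  set c : G → ℝ := fun g => pr S m g - a * if g = 1 then 1 else 0 with hc
  have hsum : ∀ φ : G → ℝ, ∑ g ∈ T, pr S m g * φ g = EE S m φ := by
    intro φ
    rw [EE_eq]
    by_cases h1 : (1 : G) ∈ TT S m
    · rw [hT, insert_eq_self.2 h1]
    · rw [hT, sum_insert h1, pr_out S m 1 h1, zero_mul, zero_add]
  have hδ : ∀ φ : G → ℝ, ∑ g ∈ T, (if g = 1 then (1 : ℝ) else 0) * φ g = φ 1 := by
    intro φ
    rw [sum_eq_single 1]
    · rw [if_pos rfl, one_mul]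
    · intro b _ hb
      rw [if_neg hb, zero_mul]
    · intro h
      exact absurd (mem_insert_self _ _) h
  have hcs : ∀ φ : G → ℝ, ∑ g ∈ T, c g * φ g = EE S m φ - a * φ 1 := by
    intro φ
    simp only [hc, sub_mul, mul_assoc]
    rw [sum_sub_distrib, hsum, ← mul_sum, hδ]
  have h2 := hφ.pd T c
  have h3 : ∑ g ∈ T, ∑ h ∈ T, c g * c h * φ (g⁻¹ * h) =
      EE S m (fun g => EE S m (fun h => φ (g⁻¹ * h))) - a * a - a * (a - a) := by
    have h4 : ∀ g, ∑ h ∈ T, c g * c h * φ (g⁻¹ * h) =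
        c g * (EE S m (fun h => φ (g⁻¹ * h)) - a * φ g) := by
      intro g
      have h5 := hcs (fun h => φ (g⁻¹ * h))
      rw [mul_one, hφ.sym] at h5
      rw [← h5, mul_sum]
      exact sum_congr rfl fun h _ => by ring
    simp only [h4]
    rw [hcs]
    have h6 : EE S m (fun g => EE S m (fun h => φ (g⁻¹ * h)) - a * φ g) =
        EE S m (fun g => EE S m (fun h => φ (g⁻¹ * h))) - a * a := by
      have h7 := EE_add S m (fun g => EE S m (fun h => φ (g⁻¹ * h)) - a * φ g)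
        (fun g => φ g * a)
      have h8 := EE_mul S m φ a
      have h9 : (fun g => EE S m (fun h => φ (g⁻¹ * h)) - a * φ g + φ g * a) =
          fun g => EE S m (fun h => φ (g⁻¹ * h)) := by
        funext g
        ring
      rw [h9] at h7
      linarith
    rw [h6]
    simp only [inv_one, one_mul, hφ.one, mul_one]
    rfl
  rw [h3] at h2
  rw [h0]
  nlinarith

theorem a_ge (S : Finset G) (hS : (1 : G) ∈ S) (hi : ∀ s ∈ S, s⁻¹ ∈ S) {φ : G → ℝ} (hφ : RPD φ)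
    {κ : ℝ} (hκ : κ ≤ 1) (h : ∀ s ∈ S, 1 - κ ≤ φ s) (j : ℕ) :
    (1 - κ) ^ (2 ^ j) ≤ EE S (2 ^ j) φ := by
  induction j with
  | zero =>
    have hc : (0 : ℝ) < S.card := by
      exact_mod_cast card_pos.2 ⟨1, hS⟩
    rw [pow_zero, pow_one]
    simp only [EE, mul_one]
    rw [le_div_iff₀ hc]
    calc (1 - κ) * S.card = ∑ _s ∈ S, (1 - κ) := by rw [sum_const, nsmul_eq_mul, mul_comm]
      _ ≤ ∑ s ∈ S, φ s := sum_le_sum h
  | succ j ih =>
    have h1 := a_sq S hi hφ (2 ^ j)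
    have h2 : (0 : ℝ) ≤ (1 - κ) ^ (2 ^ j) := by
      have : 0 ≤ 1 - κ := by linarith
      positivity
    calc (1 - κ) ^ (2 ^ (j + 1)) = ((1 - κ) ^ (2 ^ j)) ^ 2 := by rw [← pow_mul, ← pow_succ]
      _ ≤ EE S (2 ^ j) φ ^ 2 := pow_le_pow_left₀ h2 ih 2
      _ ≤ EE S (2 ^ j + 2 ^ j) φ := h1
      _ = EE S (2 ^ (j + 1)) φ := by rw [pow_succ, mul_two]

/-- The almost invariant function. -/
theorem kesten (S : Finset G) (hS : (1 : G) ∈ S) (hi : ∀ s ∈ S, s⁻¹ ∈ S) {φ : G → ℝ}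
    (hφ : RPD φ) {κ : ℝ} (hκ0 : 0 < κ) (hκ : 3 * κ < 1) (h : ∀ s ∈ S, 1 - κ ≤ φ s) (N : ℝ)
    (hN : ∀ T : Finset G, ∑ g ∈ T, φ g ^ 2 ≤ N) :
    ∃ (T : Finset G) (f : G → ℝ), (∀ x, 0 ≤ f x) ∧ (∀ x, x ∉ T → f x = 0) ∧
      0 < ∑ x ∈ T, f x ^ 2 ∧
      ∀ s ∈ S, (1 - (S.card : ℝ) ^ 2 * (3 * κ)) * ∑ x ∈ T, f x ^ 2 ≤
        ∑ x ∈ T, f x * f (s⁻¹ * x) := by
  classical
  set ζ : ℝ := 3 * κ with hζ
  -- a good step
  have hstep : ∃ m, (1 - ζ) * bb S m ≤ bb S (m + 1) := by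
    by_contra hc
    push Not at hc
    have h1 : ∀ m, bb S m ≤ (1 - ζ) ^ m := by
      intro m
      induction m with
      | zero => rw [bb_zero, pow_zero]
      | succ m ih =>
        rw [pow_succ, mul_comm]
        refine (hc m).le.trans ?_
        exact mul_le_mul_of_nonneg_left ih (by linarith)
    have h2 : ∀ m, EE S m φ ^ 2 ≤ N * bb S m := by
      intro m
      rw [EE_eq]
      calc (∑ x ∈ TT S m, pr S m x * φ x) ^ 2
          ≤ (∑ x ∈ TT S m, pr S m x ^ 2) * ∑ x ∈ TT S m, φ x ^ 2 := sum_mul_sq_le_sq_mul_sq _ _ _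
        _ ≤ bb S m * N := mul_le_mul_of_nonneg_left (hN _) (bb_pos S hS m).le
        _ = N * bb S m := mul_comm _ _
    have hN0 : 0 ≤ N := by
      have := hN ∅
      simpa using this
    have h1ζ : 0 < 1 - ζ := by linarith
    have hr : 1 < (1 - κ) ^ 2 / (1 - ζ) := by
      rw [lt_div_iff₀ h1ζ]
      nlinarith [sq_nonneg κ, pow_pos hκ0 2]
    obtain ⟨n, hn⟩ := pow_unbounded_of_one_lt N hr
    have h3 : ((1 - κ) ^ 2 / (1 - ζ)) ^ (2 ^ n) ≤ N := by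
      rw [div_pow, div_le_iff₀ (pow_pos h1ζ _)]
      calc ((1 - κ) ^ 2) ^ (2 ^ n) = ((1 - κ) ^ (2 ^ n)) ^ 2 := by
            rw [← pow_mul, ← pow_mul, mul_comm]
        _ ≤ EE S (2 ^ n) φ ^ 2 := by
            refine pow_le_pow_left₀ ?_ (a_ge S hS hi hφ (by linarith) h n) 2
            have : 0 ≤ 1 - κ := by linarith
            positivity
        _ ≤ N * bb S (2 ^ n) := h2 _
        _ ≤ N * (1 - ζ) ^ (2 ^ n) := mul_le_mul_of_nonneg_left (h1 _) hN0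
    have h4 : ((1 - κ) ^ 2 / (1 - ζ)) ^ n ≤ ((1 - κ) ^ 2 / (1 - ζ)) ^ (2 ^ n) :=
      pow_le_pow_right₀ hr.le Nat.lt_two_pow_self.le
    linarith
  obtain ⟨m, hm⟩ := hstep
  refine ⟨TT S m, pr S m, pr_nonneg S m, pr_out S m, bb_pos S hS m, ?_⟩
  intro s hs
  have hc0 : (0 : ℝ) < (S.card : ℝ) ^ 2 := by
    have : (0 : ℝ) < S.card := by exact_mod_cast card_pos.2 ⟨1, hS⟩
    positivity
  have h1 := bb_succ S m
  rw [eq_div_iff hc0.ne'] at h1
  have h2 : bb S m - QQ S m (s⁻¹ * 1) ≤ ∑ a ∈ S, ∑ t ∈ S, (bb S m - QQ S m (t⁻¹ * a)) := by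
    have h3 : ∀ a ∈ S, 0 ≤ ∑ t ∈ S, (bb S m - QQ S m (t⁻¹ * a)) := fun a _ =>
      sum_nonneg fun t _ => sub_nonneg.2 (QQ_le S m _)
    refine le_trans ?_ (single_le_sum h3 hS)
    exact single_le_sum (f := fun t => bb S m - QQ S m (t⁻¹ * 1))
      (fun t _ => sub_nonneg.2 (QQ_le S m _)) hs
  have h4 : ∑ a ∈ S, ∑ t ∈ S, (bb S m - QQ S m (t⁻¹ * a)) =
      (S.card : ℝ) ^ 2 * bb S m - bb S (m + 1) * (S.card : ℝ) ^ 2 := by
    rw [h1]
    simp only [sum_sub_distrib, sum_const, nsmul_eq_mul]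
    ring
  rw [h4] at h2
  have h5 : QQ S m (s⁻¹ * 1) = ∑ x ∈ TT S m, pr S m x * pr S m (s⁻¹ * x) := by
    unfold QQ
    rw [mul_one]
  rw [← h5]
  have h6 : ∑ x ∈ TT S m, pr S m x ^ 2 = bb S m := rfl
  rw [h6]
  nlinarith

/-- A group with square summable positive definite functions which are arbitrarily close to `1`
on finite sets is amenable. -/
theorem amenable_of_rpd
    (h : ∀ (F : Finset G) (κ : ℝ), 0 < κ → ∃ (φ : G → ℝ) (N : ℝ), RPD φ ∧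
      (∀ T : Finset G, ∑ g ∈ T, φ g ^ 2 ≤ N) ∧ ∀ s ∈ F, 1 - κ ≤ φ s) : Amenable G := by
  classical
  refine amenable_of_ainv fun F ε hε => ?_
  set S : Finset G := F ∪ F.image (·⁻¹) ∪ {1} with hS
  have hS1 : (1 : G) ∈ S := by simp [hS]
  have hSinv : ∀ s ∈ S, s⁻¹ ∈ S := by
    intro s hs
    simp only [hS, mem_union, mem_image, mem_singleton] at hs ⊢
    rcases hs with (hs | ⟨a, ha, rfl⟩) | rfl
    · exact Or.inl (Or.inr ⟨s, hs, rfl⟩)
    · exact Or.inl (Or.inl (by simpa using ha))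
    · exact Or.inr (by simp)
  have hFS : (F : Set G) ⊆ (S : Set G) := by
    intro s hs
    simp only [hS, coe_union, Set.mem_union]
    exact Or.inl (Or.inl hs)
  have hk : (1 : ℝ) ≤ (S.card : ℝ) := by
    exact_mod_cast card_pos.mpr ⟨1, hS1⟩
  obtain ⟨κ, hκ⟩ : ∃ κ, κ = min (1 / 6) (ε ^ 2 / (24 * (S.card : ℝ) ^ 2)) := ⟨_, rfl⟩
  have hκ0 : 0 < κ := by
    rw [hκ]
    exact lt_min (by norm_num) (by positivity)
  have hκ1 : 3 * κ < 1 := by
    have : κ ≤ 1 / 6 := by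
      rw [hκ]
      exact min_le_left _ _
    linarith
  have hκ2 : κ ≤ ε ^ 2 / (24 * (S.card : ℝ) ^ 2) := by
    rw [hκ]
    exact min_le_right _ _
  obtain ⟨φ, N, hφ, hN, hφS⟩ := h S κ hκ0
  obtain ⟨T, f, hf0, hfT, hfpos, hfinv⟩ := kesten S hS1 hSinv hφ hκ0 hκ1 hφS N hN
  have h4 := ainv_holds G S T f ((S.card : ℝ) ^ 2 * (3 * κ)) hf0 hfT hfpos hfinv
  refine AInv.mono' h4 hFS ?_
  have h5 : 2 * ((S.card : ℝ) ^ 2 * (3 * κ)) ≤ (ε / 2) ^ 2 := by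
    rw [le_div_iff₀ (by positivity)] at hκ2
    nlinarith
  have h6 : √(2 * ((S.card : ℝ) ^ 2 * (3 * κ))) ≤ ε / 2 := by
    rw [← Real.sqrt_sq (by positivity : (0 : ℝ) ≤ ε / 2)]
    exact Real.sqrt_le_sqrt h5
  linarith

end Pool.Agent.ZAR
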