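import Pool.Agent.ZAR.Dom
import Pool.Agent.ZAR.Kesten

/-!
# ZAR: the criterion for amenability
-/

set_option autoImplicit false

open scoped ComplexOrder

namespace Pool.Agent.ZAR

open Pool.Agent.JM

universe u

variable {G : Type u} [Group G]

/-- A matrix valued positive definite function with value the unit matrix at `1`. -/
structure Mdl {I : Type} (Λ : G → I → I → ℂ) : Prop where
  psd : (Matrix.of fun p q : G × I => Λ (p.1⁻¹ * q.1) p.2 q.2).PosSemidef
  one : ∀ i, Λ 1 i i = 1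
  off : ∀ i j, i ≠ j → Λ 1 i j = 0

/-- The average of the diagonal. -/
noncomputable def avd {I : Type} [Fintype I] (Λ : G → I → I → ℂ) (g : G) : ℂ :=
  (∑ i, Λ g i i) / Fintype.card I

/-- The average of the squares. -/
noncomputable def avs {I : Type} [Fintype I] (Λ : G → I → I → ℂ) (g : G) : ℝ :=
  (∑ i, ∑ j, ‖Λ g i j‖ ^ 2) / Fintype.card I

theorem RPD.of_PD {f : G → ℂ} (hf : PD f) (h1 : 0 < (f 1).re) :
    RPD fun g => (f g).re / (f 1).re where
  one := div_self h1.ne'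
  sym g := by
    have h2 := hf.inv g
    rw [h2]
    rfl
  pd T b := by
    have h2 := hf.nonneg T fun g => (b g : ℂ)
    have h3 : (∑ g ∈ T, ∑ h ∈ T, star ((b g : ℝ) : ℂ) * f (g⁻¹ * h) * ((b h : ℝ) : ℂ)).re =
        ∑ g ∈ T, ∑ h ∈ T, b g * b h * (f (g⁻¹ * h)).re := by
      rw [Complex.re_sum]
      refine Finset.sum_congr rfl fun g _ => ?_
      rw [Complex.re_sum]
      refine Finset.sum_congr rfl fun h _ => ?_
      have h4 : star ((b g : ℝ) : ℂ) = ((b g : ℝ) : ℂ) := Complex.conj_ofReal _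
      rw [h4, mul_comm, ← mul_assoc, ← Complex.ofReal_mul, Complex.re_ofReal_mul]
      ring
    rw [h3] at h2
    have h4 : ∑ g ∈ T, ∑ h ∈ T, b g * b h * ((f (g⁻¹ * h)).re / (f 1).re) =
        (∑ g ∈ T, ∑ h ∈ T, b g * b h * (f (g⁻¹ * h)).re) / (f 1).re := by
      rw [Finset.sum_div]
      refine Finset.sum_congr rfl fun g _ => ?_
      rw [Finset.sum_div]
      exact Finset.sum_congr rfl fun h _ => by ring
    rw [h4]
    exact div_nonneg h2 h1.le

/-- The criterion: a positive definite function `Φ` with bounded quadratic form which is dominated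
by the averages of almost multiplicative matrix models. -/
theorem amenable_of_models (Φ : G → ℂ) (hΦ : PD Φ) (C C' : ℝ) (hC : 0 < C) (hC' : 0 ≤ C')
    (hB : Bdd Φ C') (h1 : 0 < (Φ 1).re)
    (hmod : ∀ (F : Finset G) (ε : ℝ), 0 < ε → ∃ (I : Type) (_ : Fintype I) (_ : Nonempty I)
      (Λ : G → I → I → ℂ), Mdl Λ ∧ PD (fun g => (C : ℂ) * avd Λ g - Φ g) ∧
        ∀ g ∈ F, 1 - ε ≤ avs Λ g) : Amenable G := by
  classical
  refine amenable_of_rpd fun F κ hκ => ?_
  obtain ⟨c, hc⟩ : ∃ c, c = (Φ 1).re / C := ⟨_, rfl⟩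
  have hc0 : 0 < c := by
    rw [hc]
    exact div_pos h1 hC
  obtain ⟨η, hη⟩ : ∃ η, η = min (c / 2) (κ * c / 6) := ⟨_, rfl⟩
  have hη0 : 0 < η := by
    rw [hη]
    exact lt_min (by positivity) (by positivity)
  have hη1 : η ≤ c / 2 := by
    rw [hη]
    exact min_le_left _ _
  have hη2 : η ≤ κ * c / 6 := by
    rw [hη]
    exact min_le_right _ _
  obtain ⟨I, _, _, Λ, hΛ, hdom, hF⟩ := hmod F (η ^ 2) (by positivity)
  obtain ⟨f, hf1, ⟨N, hN⟩, hf2, hf3⟩ := dom_fun Λ hΛ.psd (fun i j => by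
    by_cases hij : i = j
    · subst hij
      rw [if_pos rfl, hΛ.one]
    · rw [if_neg hij, hΛ.off i j hij]) Φ hΦ C C' hC' hdom hB h1 hC η hη0
  rw [← hc] at hf2
  have hf10 : c / 2 ≤ (f 1).re := by linarith
  have hf1p : 0 < (f 1).re := by linarith
  refine ⟨fun g => (f g).re / (f 1).re, N / (f 1).re ^ 2, RPD.of_PD hf1 hf1p, fun T => ?_,
    fun g hg => ?_⟩
  · rw [le_div_iff₀ (by positivity), Finset.sum_mul]
    refine le_trans (Finset.sum_le_sum fun g _ => ?_) (hN T)
    have h2 := Complex.abs_re_le_norm (f g)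
    have h3 : ((f g).re / (f 1).re) ^ 2 * (f 1).re ^ 2 = |(f g).re| ^ 2 := by
      rw [sq_abs]
      field_simp
    rw [h3]
    exact pow_le_pow_left₀ (abs_nonneg _) h2 2
  · have h2 := hf3 g
    have h3 : √(1 - (∑ i, ∑ j, ‖Λ g i j‖ ^ 2) / Fintype.card I) ≤ η := by
      rw [← Real.sqrt_sq hη0.le]
      refine Real.sqrt_le_sqrt ?_
      have h4 := hF g hg
      unfold avs at h4
      linarith
    have h4 := Complex.re_le_norm (f 1 - f g)
    rw [Complex.sub_re] at h4
    rw [le_div_iff₀ hf1p]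
    have h5 : (f 1).re - (f g).re ≤ 3 * η := by linarith
    have h6 : 3 * η ≤ κ * (f 1).re := by nlinarith
    linarith

end Pool.Agent.ZAR
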