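import Pool.Agent.ZAR.Model2

/-!
# ZAR: square summable positive definite functions from a domination
-/

set_option autoImplicit false

open scoped ComplexOrder

namespace Pool.Agent.ZAR

universe u

variable {G : Type u} [Group G]

theorem Q_comb {X : Type u} (k l : X → X → ℂ) (C : ℂ) (a : X →₀ ℂ) :
    Q (fun x y => C * k x y - l x y) a a = C * Q k a a - Q l a a := by
  unfold Q Finsupp.sum
  rw [Finset.mul_sum, ← Finset.sum_sub_distrib]
  refine Finset.sum_congr rfl fun x _ => ?_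
  simp only
  rw [Finset.mul_sum, ← Finset.sum_sub_distrib]
  refine Finset.sum_congr rfl fun y _ => ?_
  ring

/-- The diagonal unitary representation on a finite direct sum. -/
noncomputable def dU {K : Type*} [NormedAddCommGroup K] [InnerProductSpace ℂ K] (I : Type)
    [Fintype I] (U : G →* (K ≃ₗᵢ[ℂ] K)) :
    G →* ((PiLp 2 fun _ : I => K) ≃ₗᵢ[ℂ] (PiLp 2 fun _ : I => K)) where
  toFun g := LinearIsometryEquiv.piLpCongrRight 2 fun _ => U g
  map_one' := by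
    ext x i
    rw [LinearIsometryEquiv.piLpCongrRight_apply, map_one]
    rfl
  map_mul' g h := by
    ext x i
    rw [LinearIsometryEquiv.piLpCongrRight_apply, map_mul]
    rfl

theorem dU_apply {K : Type*} [NormedAddCommGroup K] [InnerProductSpace ℂ K] (I : Type)
    [Fintype I] (U : G →* (K ≃ₗᵢ[ℂ] K)) (g : G) (x : PiLp 2 fun _ : I => K) (i : I) :
    dU I U g x i = U g (x i) := rfl

theorem dom_bound {K : Type*} [NormedAddCommGroup K] [InnerProductSpace ℂ K] [CompleteSpace K]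
    (U : G →* (K ≃ₗᵢ[ℂ] K)) {I : Type} [Fintype I] [DecidableEq I] [Nonempty I] (v : I → K)
    (Φ : G → ℂ) (hΦ : PD Φ) (C C' : ℝ) (hC' : 0 ≤ C')
    (hdom : PD fun g => (C : ℂ) * ((∑ i, inner ℂ (v i) (U g (v i))) / Fintype.card I) - Φ g)
    (hB : Bdd Φ C') (h1 : 0 < (Φ 1).re) (hC : 0 < C) :
    (Φ 1).re / C ≤ (∑ i, ‖zz U (v i)‖ ^ 2) / Fintype.card I := by
  have hn : (0 : ℝ) < Fintype.card I := by exact_mod_cast Fintype.card_pos
  obtain ⟨n, hndef⟩ : ∃ n : ℝ, n = (Fintype.card I : ℝ) := ⟨_, rfl⟩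
  rw [← hndef] at hn ⊢
  set V : PiLp 2 fun _ : I => K := WithLp.toLp 2 fun i => (((√n)⁻¹ : ℝ) : ℂ) • v i with hV
  have hVi : ∀ i, V i = (((√n)⁻¹ : ℝ) : ℂ) • v i := fun i => rfl
  have hin : ∀ x y : G, (inner ℂ (dU I U x V) (dU I U y V) : ℂ) =
      (∑ i, inner ℂ (v i) (U (x⁻¹ * y) (v i))) / Fintype.card I := by
    intro x y
    rw [PiLp.inner_apply, Finset.sum_div]
    refine Finset.sum_congr rfl fun i _ => ?_
    rw [dU_apply, dU_apply, unit_inner, hVi, map_smul, map_smul, inner_smul_left,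
      inner_smul_right, map_mul, Complex.conj_ofReal]
    have h2 : ((((√n)⁻¹ : ℝ) : ℂ)) * ((((√n)⁻¹ : ℝ) : ℂ)) = (Fintype.card I : ℂ)⁻¹ := by
      rw [← Complex.ofReal_mul, ← mul_inv, Real.mul_self_sqrt hn.le, hndef]
      push_cast
      rfl
    rw [← mul_assoc, h2, div_eq_inv_mul]
    rfl
  have hform : ∀ a : G →₀ ℂ, (Q (fun x y => Φ (x⁻¹ * y)) a a).re ≤
      C * ‖Finsupp.linearCombination ℂ (fun x => dU I U x V) a‖ ^ 2 := by
    intro a
    have h2 := norm_lc_sq (fun x => dU I U x V) a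
    simp only [hin] at h2
    have h3 := hdom.2 a
    have h4 : 0 ≤ Q (fun x y => (C : ℂ) * ((∑ i, inner ℂ (v i) (U (x⁻¹ * y) (v i))) /
        Fintype.card I) - Φ (x⁻¹ * y)) a a := h3
    rw [Q_comb, ← h2] at h4
    have h5 := (Complex.le_def.1 h4).1
    simp only [Complex.zero_re, Complex.sub_re, Complex.re_ofReal_mul, Complex.ofReal_re] at h5
    linarith
  obtain ⟨h, hh1, hh2, hh3⟩ := riesz_reg (dU I U) V Φ hΦ C C' hC.le hC' hform hB
  -- the components are regular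
  have hreg : ∀ i, h i ∈ regSub U := by
    intro i ζ
    set ζ' : PiLp 2 fun _ : I => K := WithLp.toLp 2 (Pi.single i ζ) with hζ'
    refine ⟨C * C' * ‖ζ'‖ ^ 2, fun T => ?_⟩
    refine le_trans (le_of_eq ?_) (hh3 T ζ')
    refine Finset.sum_congr rfl fun g _ => ?_
    congr 2
    rw [PiLp.inner_apply, Finset.sum_eq_single i]
    · rw [dU_apply]
      congr 1
      exact (Pi.single_eq_same (M := fun _ : I => K) i ζ).symm
    · intro j _ hj
      have : ζ' j = 0 := Pi.single_eq_of_ne (M := fun _ : I => K) hj ζ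
      rw [this, inner_zero_right]
    · intro hi
      exact absurd (Finset.mem_univ i) hi
  have hsum : ‖∑ i, (inner ℂ (h i) (v i) : ℂ)‖ ^ 2 ≤ ‖h‖ ^ 2 * ∑ i, ‖zz U (v i)‖ ^ 2 := by
    have h2 : ∀ i, (inner ℂ (h i) (v i) : ℂ) = inner ℂ (h i) (zz U (v i)) := by
      intro i
      have h3 := zz_inner U (v i) (h i) (Submodule.le_topologicalClosure _ (hreg i))
      have h4 : (inner ℂ (h i) (v i - zz U (v i)) : ℂ) = 0 := by
        rw [← inner_conj_symm, h3, map_zero]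
      rw [inner_sub_right, sub_eq_zero] at h4
      exact h4
    have h3 : ‖∑ i, (inner ℂ (h i) (v i) : ℂ)‖ ≤ ∑ i, ‖h i‖ * ‖zz U (v i)‖ := by
      refine (norm_sum_le _ _).trans (Finset.sum_le_sum fun i _ => ?_)
      rw [h2]
      exact norm_inner_le_norm _ _
    calc ‖∑ i, (inner ℂ (h i) (v i) : ℂ)‖ ^ 2 ≤ (∑ i, ‖h i‖ * ‖zz U (v i)‖) ^ 2 :=
          pow_le_pow_left₀ (norm_nonneg _) h3 2
      _ ≤ (∑ i, ‖h i‖ ^ 2) * ∑ i, ‖zz U (v i)‖ ^ 2 := Finset.sum_mul_sq_le_sq_mul_sq _ _ _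
      _ = ‖h‖ ^ 2 * ∑ i, ‖zz U (v i)‖ ^ 2 := by rw [PiLp.norm_sq_eq_of_L2]
  have hval : ‖(Φ 1)‖ ^ 2 = n⁻¹ * ‖∑ i, (inner ℂ (h i) (v i) : ℂ)‖ ^ 2 := by
    rw [← hh1, PiLp.inner_apply]
    have h2 : ∀ i ∈ (Finset.univ : Finset I), (inner ℂ (h i) (V i) : ℂ) =
        (((√n)⁻¹ : ℝ) : ℂ) * inner ℂ (h i) (v i) := by
      intro i _
      rw [hVi, inner_smul_right]
    rw [Finset.sum_congr rfl h2, ← Finset.mul_sum, norm_mul, mul_pow, Complex.norm_real,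
      Real.norm_eq_abs, sq_abs, inv_pow, Real.sq_sqrt hn.le]
  have h2 : (Φ 1).re ^ 2 ≤ ‖(Φ 1)‖ ^ 2 := by
    have := Complex.abs_re_le_norm (Φ 1)
    rw [← sq_abs]
    exact pow_le_pow_left₀ (abs_nonneg _) this 2
  have hz0 : 0 ≤ ∑ i, ‖zz U (v i)‖ ^ 2 := Finset.sum_nonneg fun i _ => sq_nonneg _
  have h3 : (Φ 1).re ^ 2 ≤ n⁻¹ * ((C * (Φ 1).re) * ∑ i, ‖zz U (v i)‖ ^ 2) := by
    refine h2.trans ?_
    rw [hval]
    refine mul_le_mul_of_nonneg_left (hsum.trans ?_) (by positivity)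
    exact mul_le_mul_of_nonneg_right hh2 hz0
  rw [div_le_iff₀ hC]
  have h4 : (Φ 1).re * (Φ 1).re ≤
      ((∑ i, ‖zz U (v i)‖ ^ 2) / n * C) * (Φ 1).re := by
    calc (Φ 1).re * (Φ 1).re = (Φ 1).re ^ 2 := by ring
      _ ≤ _ := h3
      _ = _ := by ring
  exact le_of_mul_le_mul_right h4 h1

/-- Square summable almost invariant positive definite functions from a matrix model. -/
theorem dom_fun {I : Type} [Fintype I] [DecidableEq I] [Nonempty I] (Λ : G → I → I → ℂ)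
    (hΛ : (Matrix.of fun p q : G × I => Λ (p.1⁻¹ * q.1) p.2 q.2).PosSemidef)
    (hΛ1 : ∀ i j, Λ 1 i j = if i = j then 1 else 0)
    (Φ : G → ℂ) (hΦ : PD Φ) (C C' : ℝ) (hC' : 0 ≤ C')
    (hdom : PD fun g => (C : ℂ) * ((∑ i, Λ g i i) / Fintype.card I) - Φ g)
    (hB : Bdd Φ C') (h1 : 0 < (Φ 1).re) (hC : 0 < C) (η : ℝ) (hη : 0 < η) :
    ∃ f : G → ℂ, PD f ∧ (∃ N : ℝ, ∀ T : Finset G, ∑ g ∈ T, ‖f g‖ ^ 2 ≤ N) ∧
      (Φ 1).re / C - η ≤ (f 1).re ∧
      ∀ g, ‖f 1 - f g‖ ≤ √(1 - (∑ i, ∑ j, ‖Λ g i j‖ ^ 2) / Fintype.card I) + 2 * η := by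
  obtain ⟨K, _, _, _, U, v, hUv⟩ := rep_exists Λ hΛ
  have hv : ∀ i j, inner ℂ (v i) (v j) = if i = j then (1 : ℂ) else 0 := by
    intro i j
    have h2 := hUv 1 i j
    rw [map_one, hΛ1] at h2
    exact h2
  have hc := dom_bound U v Φ hΦ C C' hC' (by simpa only [hUv] using hdom) hB h1 hC
  obtain ⟨f, hf1, hf2, hf3, hf4⟩ := model_fun U v hv _ hc η hη
  refine ⟨f, hf1, hf2, hf3, fun g => ?_⟩
  have h2 := hf4 g
  unfold sqs at h2
  simpa only [hUv] using h2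

end Pool.Agent.ZAR
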