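import Pool.Agent.ZAR.Min

/-!
# ZAR: conjugates of the minimal projection
-/

set_option autoImplicit false

open scoped ComplexOrder Topology

namespace Pool.Agent.ZAR

open Pool.Agent.FAP Pool.Agent.JM

universe u

/-! ### Positive definite functions -/

theorem prod_dom {G : Type u} [Group G] {ι : Type*} (s : Finset ι) (φ : ι → G → ℂ) (ψ : G → ℂ)
    (hψ : PD ψ) (h : ∀ i ∈ s, PD (φ i)) (hd : ∀ i ∈ s, PD fun g => ψ g - φ i g) :
    PD fun g => ψ g ^ s.card - ∏ i ∈ s, φ i g := by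
  classical
  induction s using Finset.induction_on with
  | empty => exact PD.zero.congr fun g => by simp
  | insert a s ha ih =>
    have h1 := ih (fun i hi => h i (Finset.mem_insert_of_mem hi))
      fun i hi => hd i (Finset.mem_insert_of_mem hi)
    have h2 := (hd a (Finset.mem_insert_self a s)).mul (hψ.pow s.card)
    have h3 := (h a (Finset.mem_insert_self a s)).mul h1
    refine (h2.add h3).congr fun g => ?_
    rw [Finset.card_insert_of_notMem ha, Finset.prod_insert ha]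
    ring

theorem bdd_of_finite {G : Type u} [Group G] (Φ : G → ℂ) (hfin : (Function.support Φ).Finite) :
    Bdd Φ (∑ s ∈ hfin.toFinset, ‖Φ s‖) := by
  classical
  obtain ⟨C, hC⟩ : ∃ C, C = ∑ s ∈ hfin.toFinset, ‖Φ s‖ := ⟨_, rfl⟩
  rw [← hC]
  have hsum : ∀ (T : Finset G) (k : G → G), Function.Injective k → ∑ h ∈ T, ‖Φ (k h)‖ ≤ C := by
    intro T k hk
    rw [hC, ← Finset.sum_image (f := fun s => ‖Φ s‖) (g := k) (fun a _ b _ hab => hk hab)]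
    refine le_trans (Finset.sum_le_sum_of_subset_of_nonneg (t := hfin.toFinset ∪ T.image k)
      Finset.subset_union_right fun _ _ _ => norm_nonneg _) (le_of_eq ?_)
    symm
    refine Finset.sum_subset Finset.subset_union_left fun s _ hs => ?_
    rw [Set.Finite.mem_toFinset, Function.mem_support, not_not] at hs
    rw [hs, norm_zero]
  intro T b
  have h1 : (∑ g ∈ T, ∑ h ∈ T, star (b g) * Φ (g⁻¹ * h) * b h).re ≤
      ∑ g ∈ T, ∑ h ∈ T, ‖Φ (g⁻¹ * h)‖ * ((‖b g‖ ^ 2 + ‖b h‖ ^ 2) / 2) := by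
    rw [Complex.re_sum]
    refine Finset.sum_le_sum fun g _ => ?_
    rw [Complex.re_sum]
    refine Finset.sum_le_sum fun h _ => ?_
    refine le_trans (Complex.re_le_norm _) ?_
    rw [norm_mul, norm_mul, norm_star]
    have h2 : ‖b g‖ * ‖b h‖ ≤ (‖b g‖ ^ 2 + ‖b h‖ ^ 2) / 2 := by
      nlinarith [sq_nonneg (‖b g‖ - ‖b h‖)]
    calc ‖b g‖ * ‖Φ (g⁻¹ * h)‖ * ‖b h‖ = ‖Φ (g⁻¹ * h)‖ * (‖b g‖ * ‖b h‖) := by ring
      _ ≤ _ := mul_le_mul_of_nonneg_left h2 (norm_nonneg _)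
  refine le_trans h1 ?_
  have h2 : ∑ g ∈ T, ∑ h ∈ T, ‖Φ (g⁻¹ * h)‖ * ((‖b g‖ ^ 2 + ‖b h‖ ^ 2) / 2) =
      (∑ g ∈ T, (∑ h ∈ T, ‖Φ (g⁻¹ * h)‖) * ‖b g‖ ^ 2) / 2 +
      (∑ h ∈ T, (∑ g ∈ T, ‖Φ (g⁻¹ * h)‖) * ‖b h‖ ^ 2) / 2 := by
    rw [Finset.sum_congr rfl fun g _ => Finset.sum_mul T (fun h => ‖Φ (g⁻¹ * h)‖) (‖b g‖ ^ 2),
      Finset.sum_congr rfl fun h _ => Finset.sum_mul T (fun g => ‖Φ (g⁻¹ * h)‖) (‖b h‖ ^ 2),
      Finset.sum_comm (s := T) (t := T) (f := fun h g => ‖Φ (g⁻¹ * h)‖ * ‖b h‖ ^ 2),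
      ← add_div, ← Finset.sum_add_distrib, Finset.sum_div]
    refine Finset.sum_congr rfl fun g _ => ?_
    rw [← Finset.sum_add_distrib, Finset.sum_div]
    exact Finset.sum_congr rfl fun h _ => by ring
  rw [h2]
  have h3 : ∑ g ∈ T, (∑ h ∈ T, ‖Φ (g⁻¹ * h)‖) * ‖b g‖ ^ 2 ≤ C * ∑ g ∈ T, ‖b g‖ ^ 2 := by
    rw [Finset.mul_sum]
    exact Finset.sum_le_sum fun g _ => mul_le_mul_of_nonneg_right
      (hsum T (fun h => g⁻¹ * h) (mul_right_injective g⁻¹)) (sq_nonneg _)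
  have h4 : ∑ h ∈ T, (∑ g ∈ T, ‖Φ (g⁻¹ * h)‖) * ‖b h‖ ^ 2 ≤ C * ∑ g ∈ T, ‖b g‖ ^ 2 := by
    rw [Finset.mul_sum]
    exact Finset.sum_le_sum fun h _ => mul_le_mul_of_nonneg_right
      (hsum T (fun g => g⁻¹ * h) fun a b hab => inv_injective (mul_left_injective h hab))
      (sq_nonneg _)
  linarith

variable {H : Type u} [NormedAddCommGroup H] [InnerProductSpace ℂ H] [CompleteSpace H]

/-! ### Minimal projections -/

/-- A minimal projection of the weak closure. -/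
structure MP (Γ : Subgroup (unitary (H →L[ℂ] H))) (Ω : H) (m : ℝ) (q : H →L[ℂ] H) : Prop where
  mem : q ∈ SS Γ
  sa : star q = q
  idem : q * q = q
  norm : ‖q Ω‖ ^ 2 = m

variable {Γ : Subgroup (unitary (H →L[ℂ] H))} {Ω : H} {m : ℝ} {q : H →L[ℂ] H}

theorem MP.inner_self (hq : MP Γ Ω m q) (v : H) :
    (inner ℂ v (q v) : ℂ) = ((‖q v‖ ^ 2 : ℝ) : ℂ) := by
  have h1 := inner_star_self q v
  rwa [hq.sa, hq.idem] at h1

theorem MP.ne (hq : MP Γ Ω m q) (hm : 0 < m) : q ≠ 0 := by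
  rintro rfl
  have h1 := hq.norm
  simp at h1
  linarith

theorem MP.dich (hq : MP Γ Ω m q) (hlow : ∀ x ∈ SS Γ, x ≠ 0 → m ≤ ‖x Ω‖ ^ 2)
    {x : H →L[ℂ] H} (hx : x ∈ SS Γ) (h0 : q * x * q ≠ 0) : ‖(q * x * q) Ω‖ ^ 2 = m := by
  refine le_antisymm ?_ (hlow _ (mem_SS_mul (mem_SS_mul hq.mem hx) hq.mem) h0)
  rw [← hq.norm]
  exact pow_le_pow_left₀ (norm_nonneg _) (SS_norm (mem_SS_mul hq.mem hx) (q Ω)) 2

theorem star_coe (g : Γ) : star ((g : unitary (H →L[ℂ] H)) : H →L[ℂ] H) =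
    (((g⁻¹ : Γ) : unitary (H →L[ℂ] H)) : H →L[ℂ] H) := rfl

theorem coe_mul_star (g : Γ) : ((g : unitary (H →L[ℂ] H)) : H →L[ℂ] H) *
    star ((g : unitary (H →L[ℂ] H)) : H →L[ℂ] H) = 1 :=
  Unitary.coe_mul_star_self _

theorem star_mul_coe (g : Γ) : star ((g : unitary (H →L[ℂ] H)) : H →L[ℂ] H) *
    ((g : unitary (H →L[ℂ] H)) : H →L[ℂ] H) = 1 :=
  Unitary.coe_star_mul_self _

section

variable {M : StarSubalgebra ℂ (H →L[ℂ] H)} (hΩ : TraceVec M Ω) (hSM : ∀ x ∈ SS Γ, x ∈ M)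

include hΩ hSM

theorem MP.half (hq : MP Γ Ω m q) (hlow : ∀ x ∈ SS Γ, x ≠ 0 → m ≤ ‖x Ω‖ ^ 2) (g : Γ)
    (h0 : q * ((g : unitary (H →L[ℂ] H)) : H →L[ℂ] H) * q ≠ 0) :
    ((g : unitary (H →L[ℂ] H)) : H →L[ℂ] H) * q =
      q * ((g : unitary (H →L[ℂ] H)) : H →L[ℂ] H) * q := by
  obtain ⟨a, ha⟩ : ∃ a, a = ((g : unitary (H →L[ℂ] H)) : H →L[ℂ] H) := ⟨_, rfl⟩
  have haS : a ∈ SS Γ := by
    rw [ha]
    exact mem_SS_coe g
  rw [← ha] at h0 ⊢
  have h1 := hq.dich hlow haS h0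
  have h2 : ‖(a * q) Ω‖ ^ 2 = m := by
    rw [← hq.norm, ha]
    show ‖((g : unitary (H →L[ℂ] H)) : H →L[ℂ] H) (q Ω)‖ ^ 2 = _
    rw [Unitary.norm_map]
  have h3 : (inner ℂ ((a * q) Ω) ((q * a * q) Ω) : ℂ) = ((‖(q * a * q) Ω‖ ^ 2 : ℝ) : ℂ) :=
    hq.inner_self ((a * q) Ω)
  have h4 := norm_sub_sq (𝕜 := ℂ) ((a * q) Ω) ((q * a * q) Ω)
  rw [h3, h1, h2] at h4
  have h5 : RCLike.re ((m : ℝ) : ℂ) = m := Complex.ofReal_re m
  rw [h5] at h4
  have h6 : ‖(a * q - q * a * q) Ω‖ ^ 2 = 0 := by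
    show ‖(a * q) Ω - (q * a * q) Ω‖ ^ 2 = 0
    linarith
  have h7 : (a * q - q * a * q) Ω = 0 := norm_eq_zero.1 ((pow_eq_zero_iff two_ne_zero).1 h6)
  have h8 := hΩ.sep _ (sub_mem (hSM _ (mem_SS_mul haS hq.mem))
    (hSM _ (mem_SS_mul (mem_SS_mul hq.mem haS) hq.mem))) h7
  exact sub_eq_zero.1 h8

theorem MP.comm (hq : MP Γ Ω m q) (hlow : ∀ x ∈ SS Γ, x ≠ 0 → m ≤ ‖x Ω‖ ^ 2) (g : Γ)
    (h0 : q * ((g : unitary (H →L[ℂ] H)) : H →L[ℂ] H) * q ≠ 0) :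
    ((g : unitary (H →L[ℂ] H)) : H →L[ℂ] H) * q =
      q * ((g : unitary (H →L[ℂ] H)) : H →L[ℂ] H) := by
  have h1 := hq.half hΩ hSM hlow g h0
  have h2 : q * (((g⁻¹ : Γ) : unitary (H →L[ℂ] H)) : H →L[ℂ] H) * q ≠ 0 := by
    intro h
    apply h0
    have h3 := congrArg star h
    rw [← star_coe, star_mul, star_mul, star_star, hq.sa, star_zero, ← mul_assoc] at h3
    exact h3
  have h3 := congrArg star (hq.half hΩ hSM hlow g⁻¹ h2)
  rw [← star_coe, star_mul, star_mul, star_mul, star_star, hq.sa, ← mul_assoc] at h3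
  exact h1.trans h3.symm

theorem MP.conj (hq : MP Γ Ω m q) (g : Γ) :
    MP Γ Ω m (((g : unitary (H →L[ℂ] H)) : H →L[ℂ] H) * q *
      star ((g : unitary (H →L[ℂ] H)) : H →L[ℂ] H)) := by
  obtain ⟨a, ha⟩ : ∃ a, a = ((g : unitary (H →L[ℂ] H)) : H →L[ℂ] H) := ⟨_, rfl⟩
  have haS : a ∈ SS Γ := by
    rw [ha]
    exact mem_SS_coe g
  have h1 : star a * a = 1 := by
    rw [ha]
    exact star_mul_coe g
  rw [← ha]
  have hsa : star (a * q * star a) = a * q * star a := by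
    rw [star_mul, star_mul, star_star, hq.sa, mul_assoc]
  have hid : (a * q * star a) * (a * q * star a) = a * q * star a := by
    calc (a * q * star a) * (a * q * star a) = a * q * (star a * a) * (q * star a) := by
          simp only [mul_assoc]
      _ = a * (q * q) * star a := by rw [h1]; simp only [mul_assoc, one_mul]
      _ = a * q * star a := by rw [hq.idem]
  refine ⟨mem_SS_mul (mem_SS_mul haS hq.mem) (mem_SS_star haS), hsa, hid, ?_⟩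
  have h2 := inner_star_self (a * q * star a) Ω
  rw [hsa, hid, mul_assoc, hΩ.trace a (hSM a haS) (q * star a)
    (mul_mem (hSM q hq.mem) (star_mem (hSM a haS))), mul_assoc, h1, mul_one,
    hq.inner_self, hq.norm, ← mul_assoc] at h2
  exact_mod_cast h2.symm

theorem MP.orth (hq : MP Γ Ω m q) (hlow : ∀ x ∈ SS Γ, x ≠ 0 → m ≤ ‖x Ω‖ ^ 2) (g h : Γ)
    (hne : ((g : unitary (H →L[ℂ] H)) : H →L[ℂ] H) * q *
      star ((g : unitary (H →L[ℂ] H)) : H →L[ℂ] H) ≠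
      ((h : unitary (H →L[ℂ] H)) : H →L[ℂ] H) * q *
      star ((h : unitary (H →L[ℂ] H)) : H →L[ℂ] H)) :
    (((g : unitary (H →L[ℂ] H)) : H →L[ℂ] H) * q *
      star ((g : unitary (H →L[ℂ] H)) : H →L[ℂ] H)) *
      (((h : unitary (H →L[ℂ] H)) : H →L[ℂ] H) * q *
      star ((h : unitary (H →L[ℂ] H)) : H →L[ℂ] H)) = 0 := by
  have hgh : (((g⁻¹ * h : Γ) : unitary (H →L[ℂ] H)) : H →L[ℂ] H) =
      star ((g : unitary (H →L[ℂ] H)) : H →L[ℂ] H) *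
        ((h : unitary (H →L[ℂ] H)) : H →L[ℂ] H) := rfl
  have hc := hq.comm hΩ hSM hlow (g⁻¹ * h)
  rw [hgh] at hc
  have e1 := coe_mul_star g
  have e2 := coe_mul_star h
  obtain ⟨a, ha⟩ : ∃ a, a = ((g : unitary (H →L[ℂ] H)) : H →L[ℂ] H) := ⟨_, rfl⟩
  obtain ⟨b, hb⟩ : ∃ b, b = ((h : unitary (H →L[ℂ] H)) : H →L[ℂ] H) := ⟨_, rfl⟩
  rw [← ha, ← hb] at hc hne ⊢
  rw [← ha] at e1
  rw [← hb] at e2
  by_cases h0 : q * (star a * b) * q = 0
  · calc (a * q * star a) * (b * q * star b) = a * (q * (star a * b) * q) * star b := by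
          simp only [mul_assoc]
      _ = 0 := by rw [h0, mul_zero, zero_mul]
  · exfalso
    apply hne
    have h1 := hc h0
    calc a * q * star a = a * q * star a * (b * star b) := by rw [e2, mul_one]
      _ = a * (q * (star a * b)) * star b := by simp only [mul_assoc]
      _ = a * ((star a * b) * q) * star b := by rw [h1]
      _ = (a * star a) * b * q * star b := by simp only [mul_assoc]
      _ = b * q * star b := by rw [e1, one_mul]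

end

end Pool.Agent.ZAR
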