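import Pool.Agent.ZAR.Coef

/-!
# ZAR: a star polynomial in the coefficients with finite support
-/

set_option autoImplicit false

open scoped ComplexOrder

namespace Pool.Agent.ZAR

open Pool.Agent.FAP Pool.Agent.JM

universe u

variable {H : Type u} [NormedAddCommGroup H] [InnerProductSpace ℂ H] [CompleteSpace H]

/-- The group `Γ` is approximated by matrix units of `M`. -/
def HF (M : StarSubalgebra ℂ (H →L[ℂ] H)) (Ω : H) (Γ : Subgroup (unitary (H →L[ℂ] H))) : Prop :=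
  ∀ (F : Finset Γ) (ε : ℝ), 0 < ε → ∃ (n : ℕ) (e : Fin n → Fin n → H →L[ℂ] H), MU M e ∧
    ∀ u ∈ F, ∃ c : Fin n → Fin n → ℂ,
      ‖((u : unitary (H →L[ℂ] H)) : H →L[ℂ] H) Ω - ∑ i, ∑ j, c i j • e i j Ω‖ ≤ ε

/-- The coefficient functions. -/
def CF (M : StarSubalgebra ℂ (H →L[ℂ] H)) (Ω : H) (Γ : Subgroup (unitary (H →L[ℂ] H))) :
    Set (Γ → ℂ) := {φ | ∃ c ∈ M, φ = cf Γ Ω c}

theorem pow_ge (x δ ε : ℝ) (D : ℕ) (h0 : 0 ≤ δ) (h1 : δ ≤ 1) (h2 : D * δ ≤ ε)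
    (hx : 1 - δ ≤ x) : 1 - ε ≤ ((1 + 2 * x) / 3) ^ D := by
  have h3 : 1 + (D : ℝ) * (-δ) ≤ (1 + -δ) ^ D := one_add_mul_le_pow (by linarith) D
  have h4 : (1 + -δ) ^ D ≤ ((1 + 2 * x) / 3) ^ D := by
    refine pow_le_pow_left₀ (by linarith) ?_ D
    linarith
  linarith

section

variable {M : StarSubalgebra ℂ (H →L[ℂ] H)} {Ω : H} (hΩ : TraceVec M Ω)
  {Γ : Subgroup (unitary (H →L[ℂ] H))} (hΓ : ∀ u ∈ Γ, (u : H →L[ℂ] H) ∈ M)

include hΩ hΓ

theorem models (hF : HF M Ω Γ) (D : ℕ) (F : Finset Γ) (ε : ℝ) (hε : 0 < ε) :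
    ∃ (I : Type) (_ : Fintype I) (_ : Nonempty I) (Λ : Γ → I → I → ℂ), Mdl Λ ∧
      (∀ g, avd Λ g = th Γ Ω g ^ D) ∧ ∀ g ∈ F, 1 - ε ≤ avs Λ g := by
  obtain ⟨δ, hδ⟩ : ∃ δ : ℝ, δ = min 1 (ε / (D + 1)) := ⟨_, rfl⟩
  have hδ0 : 0 < δ := by
    rw [hδ]
    exact lt_min one_pos (by positivity)
  have hδ1 : δ ≤ 1 := by
    rw [hδ]
    exact min_le_left _ _
  have hδ2 : D * δ ≤ ε := by
    have h1 : δ ≤ ε / (D + 1) := by
      rw [hδ]
      exact min_le_right _ _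
    rw [le_div_iff₀ (by positivity)] at h1
    nlinarith
  obtain ⟨n, e, he, happ⟩ := hF F (√δ) (Real.sqrt_pos.2 hδ0)
  have hn : n ≠ 0 := by
    rintro rfl
    have h1 := he.one
    simp only [Finset.univ_eq_empty, Finset.sum_empty] at h1
    have h2 : ‖(0 : H →L[ℂ] H) Ω‖ = ‖(1 : H →L[ℂ] H) Ω‖ := by rw [h1]
    have h3 : ‖(1 : H →L[ℂ] H) Ω‖ = 1 := hΩ.norm_one
    rw [h3] at h2
    simp at h2
  obtain ⟨Λ, hΛ, h1, h2⟩ := base_model M hΩ Γ hΓ he ⟨0, Nat.pos_of_ne_zero hn⟩ F (√δ)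
    (Real.sqrt_nonneg _) happ
  have : Nonempty (Fin n) := ⟨⟨0, Nat.pos_of_ne_zero hn⟩⟩
  obtain ⟨J, i1, i2, Λ', hΛ', h3, h4⟩ := model_degree hΛ D
  refine ⟨J, i1, i2, Λ', hΛ', fun g => ?_, fun g hg => ?_⟩
  · rw [h3, h1]
    rfl
  · rw [h4]
    refine pow_ge _ δ ε D hδ0.le hδ1 hδ2 ?_
    have h5 := h2 g hg
    rwa [Real.sq_sqrt hδ0.le] at h5

/-- The criterion for groups of unitaries. -/
theorem amenable_of_dom (hF : HF M Ω Γ) (Φ : Γ → ℂ) (hΦ : PD Φ) (C C' : ℝ) (D : ℕ)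
    (hC : 0 < C) (hC' : 0 ≤ C') (hB : Bdd Φ C') (h1 : 0 < (Φ 1).re)
    (hdom : PD fun g => (C : ℂ) * th Γ Ω g ^ D - Φ g) : Amenable Γ := by
  refine amenable_of_models Φ hΦ C C' hC hC' hB h1 fun F ε hε => ?_
  obtain ⟨I, i1, i2, Λ, hΛ, h2, h3⟩ := models hΩ hΓ hF D F ε hε
  refine ⟨I, i1, i2, Λ, hΛ, hdom.congr fun g => ?_, h3⟩
  rw [h2]

theorem adjoin_le_span : StarAlgebra.adjoin ℂ (CF M Ω Γ) ≤
    spanAlg (th Γ Ω) (th_pd Γ Ω) (th_star Γ Ω) := by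
  refine StarAlgebra.adjoin_le ?_
  rintro φ ⟨c, hc, rfl⟩
  exact cf_mem hΩ hΓ hc

end

theorem delta_pd {G : Type u} [Group G] [DecidableEq G] :
    PD (fun g : G => if g = 1 then (1 : ℂ) else 0) := by
  have h1 : (Matrix.of fun x y : G => if x⁻¹ * y = 1 then (1 : ℂ) else 0) = 1 := by
    ext x y
    rw [Matrix.of_apply, Matrix.one_apply]
    simp only [inv_mul_eq_one]
  unfold PD
  rw [h1]
  exact Matrix.PosSemidef.one

theorem delta_bdd {G : Type u} [Group G] [DecidableEq G] :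
    Bdd (fun g : G => if g = 1 then (1 : ℂ) else 0) 1 := by
  intro T b
  rw [one_mul, Complex.re_sum]
  refine le_of_eq (Finset.sum_congr rfl fun g hg => ?_)
  rw [Finset.sum_eq_single g]
  · simp only [inv_mul_cancel, if_true, mul_one]
    have h1 : star (b g) * b g = ((‖b g‖ ^ 2 : ℝ) : ℂ) := by
      rw [mul_comm, ← Complex.normSq_eq_norm_sq, ← Complex.mul_conj]
      rfl
    rw [h1, Complex.ofReal_re]
  · intro h _ hh
    have h1 : ¬ g⁻¹ * h = 1 := fun h2 => hh (inv_mul_eq_one.1 h2).symm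
    simp only [if_neg h1, mul_zero, zero_mul]
  · intro h
    exact absurd hg h

section

variable {M : StarSubalgebra ℂ (H →L[ℂ] H)} {Ω : H} (hΩ : TraceVec M Ω)
  {Γ : Subgroup (unitary (H →L[ℂ] H))} (hΓ : ∀ u ∈ Γ, (u : H →L[ℂ] H) ∈ M)

include hΩ hΓ

open Classical in
/-- If the indicator function of `{1}` is a star polynomial in the coefficients, the group is
amenable. -/
theorem amenable_of_delta (hF : HF M Ω Γ)
    (h : (fun g : Γ => if g = 1 then (1 : ℂ) else 0) ∈ StarAlgebra.adjoin ℂ (CF M Ω Γ)) :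
    Amenable Γ := by
  obtain ⟨D, C, hC, hd⟩ := dom_of_span (th_pd Γ Ω) (th_three Γ Ω)
    (adjoin_le_span hΩ hΓ h) delta_pd
  exact amenable_of_dom hΩ hΓ hF _ delta_pd C 1 D hC zero_le_one delta_bdd (by simp) hd

omit hΩ in
/-- Translation. -/
theorem shift_mem (g0 : Γ) {F : Γ → ℂ} (h : F ∈ StarAlgebra.adjoin ℂ (CF M Ω Γ)) :
    (fun g => F (g0 * g)) ∈ StarAlgebra.adjoin ℂ (CF M Ω Γ) := by
  let T : (Γ → ℂ) →⋆ₐ[ℂ] (Γ → ℂ) :=
    { toFun := fun F g => F (g0 * g)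
      map_one' := rfl
      map_mul' := fun _ _ => rfl
      map_zero' := rfl
      map_add' := fun _ _ => rfl
      commutes' := fun _ => rfl
      map_star' := fun _ => rfl }
  have h1 : StarAlgebra.adjoin ℂ (CF M Ω Γ) ≤
      (StarAlgebra.adjoin ℂ (CF M Ω Γ)).comap T := by
    refine StarAlgebra.adjoin_le ?_
    rintro φ ⟨c, hc, rfl⟩
    refine StarAlgebra.subset_adjoin ℂ _ ⟨c * ((g0 : unitary (H →L[ℂ] H)) : H →L[ℂ] H),
      mul_mem hc (hΓ g0 g0.2), ?_⟩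
    funext g
    rfl
  exact h1 h

/-- Separation of points by coefficients. -/
theorem sep_coef (s : Γ) (hs : s ≠ 1) : ∃ f ∈ StarAlgebra.adjoin ℂ (CF M Ω Γ), f 1 ≠ f s := by
  obtain ⟨x, hx⟩ : ∃ x : H →L[ℂ] H, x = 1 - ((s : unitary (H →L[ℂ] H)) : H →L[ℂ] H) :=
    ⟨_, rfl⟩
  have hxM : x ∈ M := by
    rw [hx]
    exact sub_mem (one_mem M) (hΓ s s.2)
  refine ⟨cf Γ Ω (star x), StarAlgebra.subset_adjoin ℂ _ ⟨star x, star_mem hxM, rfl⟩, ?_⟩
  intro h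
  have h1 : cf Γ Ω (star x) 1 - cf Γ Ω (star x) s = ((‖x Ω‖ ^ 2 : ℝ) : ℂ) := by
    unfold cf
    rw [← inner_sub_right]
    have h2 : (star x * (((1 : Γ) : unitary (H →L[ℂ] H)) : H →L[ℂ] H)) Ω -
        (star x * ((s : unitary (H →L[ℂ] H)) : H →L[ℂ] H)) Ω = star x (x Ω) := by
      have h6 : x Ω = Ω - ((s : unitary (H →L[ℂ] H)) : H →L[ℂ] H) Ω := by
        rw [hx]
        rfl
      rw [h6, map_sub]
      rfl
    rw [h2, ← inner_star_left', inner_self_c]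
  rw [h, sub_self] at h1
  have h3 : ‖x Ω‖ ^ 2 = 0 := by exact_mod_cast h1.symm
  have h4 : x Ω = 0 := norm_eq_zero.1 (pow_eq_zero_iff (two_ne_zero)|>.1 h3)
  have h5 := hΩ.sep x hxM h4
  rw [hx, sub_eq_zero] at h5
  exact hs (Subtype.ext (Subtype.ext h5.symm))

/-- If some nonzero star polynomial in the coefficients has finite support, the group is
amenable. -/
theorem amenable_of_support (hF : HF M Ω Γ) (F : Γ → ℂ)
    (h : F ∈ StarAlgebra.adjoin ℂ (CF M Ω Γ)) (h0 : F ≠ 0) (hfin : (Function.support F).Finite) :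
    Amenable Γ := by
  classical
  obtain ⟨g0, hg0⟩ := Function.ne_iff.1 h0
  obtain ⟨E, hE⟩ : ∃ E : Γ → ℂ, E = fun g => F (g0 * g) := ⟨_, rfl⟩
  have hEm : E ∈ StarAlgebra.adjoin ℂ (CF M Ω Γ) := by
    rw [hE]
    exact shift_mem hΓ g0 h
  have hE1 : E 1 ≠ 0 := by
    rw [hE]
    simpa using hg0
  have hEf : (Function.support E).Finite := by
    have h1 : Function.support E = (fun g => g0 * g) ⁻¹' (Function.support F) := by
      rw [hE]
      rfl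
    rw [h1]
    exact hfin.preimage (mul_right_injective g0).injOn
  choose f hf hf' using fun (s : {s : Γ // s ≠ 1}) => sep_coef hΩ hΓ s.1 s.2
  obtain ⟨k, hk⟩ : ∃ k : Γ → (Γ → ℂ), ∀ s, k s = if hs : s = 1 then 1 else
      f ⟨s, hs⟩ - algebraMap ℂ (Γ → ℂ) (f ⟨s, hs⟩ s) := ⟨_, fun _ => rfl⟩
  have hkm : ∀ s, k s ∈ StarAlgebra.adjoin ℂ (CF M Ω Γ) := by
    intro s
    rw [hk]
    by_cases hs : s = 1
    · rw [dif_pos hs]
      exact one_mem _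
    · rw [dif_neg hs]
      exact sub_mem (hf _) (algebraMap_mem _ _)
  have hk1 : ∀ s, k s 1 ≠ 0 := by
    intro s
    rw [hk]
    by_cases hs : s = 1
    · rw [dif_pos hs]
      exact one_ne_zero
    · rw [dif_neg hs]
      exact sub_ne_zero.2 (hf' ⟨s, hs⟩)
  have hks : ∀ s, s ≠ 1 → k s s = 0 := by
    intro s hs
    rw [hk, dif_neg hs]
    exact sub_self _
  obtain ⟨P, hP⟩ : ∃ P : Γ → ℂ, P = E * ∏ s ∈ hEf.toFinset.erase 1, k s := ⟨_, rfl⟩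
  have hPm : P ∈ StarAlgebra.adjoin ℂ (CF M Ω Γ) := by
    rw [hP]
    exact mul_mem hEm (prod_mem fun s _ => hkm s)
  have hP1 : P 1 ≠ 0 := by
    rw [hP, Pi.mul_apply, Finset.prod_apply]
    exact mul_ne_zero hE1 (Finset.prod_ne_zero_iff.2 fun s _ => hk1 s)
  have hP0 : ∀ g, g ≠ 1 → P g = 0 := by
    intro g hg
    rw [hP, Pi.mul_apply, Finset.prod_apply]
    by_cases hEg : E g = 0
    · rw [hEg, zero_mul]
    · rw [Finset.prod_eq_zero (i := g), mul_zero]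
      · rw [Finset.mem_erase, Set.Finite.mem_toFinset]
        exact ⟨hg, hEg⟩
      · exact hks g hg
  refine amenable_of_delta hΩ hΓ hF ?_
  have h1 : (fun g : Γ => if g = 1 then (1 : ℂ) else 0) = (P 1)⁻¹ • P := by
    funext g
    rw [Pi.smul_apply, smul_eq_mul]
    by_cases hg : g = 1
    · subst hg
      rw [if_pos rfl, inv_mul_cancel₀ hP1]
    · rw [if_neg hg, hP0 g hg, mul_zero]
  rw [h1]
  exact SMulMemClass.smul_mem _ hPm

end

end Pool.Agent.ZAR
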