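import Pool.Agent.ZAR.Graph
import Pool.Agent.ZAR.PartA

/-!
# ZAR: a star polynomial in the coefficients which is in `ℓ^p`
-/

set_option autoImplicit false

open scoped ComplexOrder

namespace Pool.Agent.ZAR

open Pool.Agent.FAP Pool.Agent.JM

universe u

section

variable {G : Type u} [Group G]

/-- The inequality of Cauchy and Schwarz for positive definite functions. -/
theorem PD.cs {φ : G → ℂ} (h : PD φ) (a b : G →₀ ℂ) :
    ‖Q (fun x y => φ (x⁻¹ * y)) a b‖ ≤ √((Q (fun x y => φ (x⁻¹ * y)) a a).re) *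
      √((Q (fun x y => φ (x⁻¹ * y)) b b).re) := by
  obtain ⟨K, _, _, _, w, hw, -⟩ := gram_exists _ h
  have h1 := inner_lc w a b
  have h2 := norm_lc_sq w a
  have h3 := norm_lc_sq w b
  simp only [hw] at h1 h2 h3
  rw [← h1, ← h2, ← h3, Complex.ofReal_re, Complex.ofReal_re, Real.sqrt_sq (norm_nonneg _),
    Real.sqrt_sq (norm_nonneg _)]
  exact norm_inner_le_norm _ _

theorem Q_add2 {X : Type u} (k l : X → X → ℂ) (a b : X →₀ ℂ) :
    Q (fun x y => k x y + l x y) a b = Q k a b + Q l a b := by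
  unfold Q Finsupp.sum
  rw [← Finset.sum_add_distrib]
  refine Finset.sum_congr rfl fun x _ => ?_
  rw [← Finset.sum_add_distrib]
  refine Finset.sum_congr rfl fun y _ => ?_
  ring

theorem Q_smul2 {X : Type u} (k : X → X → ℂ) (C : ℂ) (a b : X →₀ ℂ) :
    Q (fun x y => C * k x y) a b = C * Q k a b := by
  unfold Q Finsupp.sum
  rw [Finset.mul_sum]
  refine Finset.sum_congr rfl fun x _ => ?_
  rw [Finset.mul_sum]
  refine Finset.sum_congr rfl fun y _ => ?_
  ring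

/-- Enlarging the exponent. -/
theorem sqrt_dom {θ : G → ℂ} (hθ : PD θ) (h3 : PD fun g => 3 * θ g - 1) (D E : ℕ)
    (a b : G →₀ ℂ) {C : ℝ} (hC : 0 ≤ C) :
    C * (√((Q (fun x y => θ (x⁻¹ * y) ^ D) a a).re) * √((Q (fun x y => θ (x⁻¹ * y) ^ D) b b).re)) ≤
      C * 3 ^ E * (√((Q (fun x y => θ (x⁻¹ * y) ^ (D + E)) a a).re) *
        √((Q (fun x y => θ (x⁻¹ * y) ^ (D + E)) b b).re)) := by
  have i1 : ∀ a : G →₀ ℂ, √((Q (fun x y => θ (x⁻¹ * y) ^ D) a a).re) ≤
      √(3 ^ E) * √((Q (fun x y => θ (x⁻¹ * y) ^ (D + E)) a a).re) := by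
    intro a
    rw [← Real.sqrt_mul (by positivity)]
    exact Real.sqrt_le_sqrt (PD.Q_le (φ := fun g => θ g ^ (D + E)) (ψ := fun g => θ g ^ D)
      (C := 3 ^ E) (pow_dom hθ h3 D E) a)
  have h4 : √(3 ^ E : ℝ) * √(3 ^ E : ℝ) = 3 ^ E := Real.mul_self_sqrt (by positivity)
  calc _ ≤ C * ((√(3 ^ E) * √((Q (fun x y => θ (x⁻¹ * y) ^ (D + E)) a a).re)) *
        (√(3 ^ E) * √((Q (fun x y => θ (x⁻¹ * y) ^ (D + E)) b b).re))) :=
        mul_le_mul_of_nonneg_left (mul_le_mul (i1 a) (i1 b) (Real.sqrt_nonneg _)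
          (by positivity)) hC
    _ = C * (√(3 ^ E : ℝ) * √(3 ^ E : ℝ)) *
        (√((Q (fun x y => θ (x⁻¹ * y) ^ (D + E)) a a).re) *
        √((Q (fun x y => θ (x⁻¹ * y) ^ (D + E)) b b).re)) := by ring
    _ = _ := by rw [h4]

/-- The functions with a dominated sesquilinear form. -/
noncomputable def domSub2 {θ : G → ℂ} (hθ : PD θ) (h3 : PD fun g => 3 * θ g - 1) :
    Submodule ℂ (G → ℂ) where
  carrier := {φ | ∃ (D : ℕ) (C : ℝ), 0 ≤ C ∧ ∀ a b : G →₀ ℂ,
    ‖Q (fun x y => φ (x⁻¹ * y)) a b‖ ≤ C * (√((Q (fun x y => θ (x⁻¹ * y) ^ D) a a).re) *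
      √((Q (fun x y => θ (x⁻¹ * y) ^ D) b b).re))}
  zero_mem' := by
    refine ⟨0, 0, le_rfl, fun a b => ?_⟩
    rw [zero_mul]
    simp [Q]
  add_mem' {φ ψ} := by
    rintro ⟨D, C, hC, h⟩ ⟨D', C', hC', h'⟩
    refine ⟨D + D', C * 3 ^ D' + C' * 3 ^ D, by positivity, fun a b => ?_⟩
    have e1 : Q (fun x y => (φ + ψ) (x⁻¹ * y)) a b =
        Q (fun x y => φ (x⁻¹ * y)) a b + Q (fun x y => ψ (x⁻¹ * y)) a b :=
      Q_add2 _ _ a b
    rw [e1]
    refine le_trans (norm_add_le _ _) (le_trans (add_le_add (h a b) (h' a b)) ?_)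
    have i1 := sqrt_dom hθ h3 D D' a b hC
    have i2 := sqrt_dom hθ h3 D' D a b hC'
    rw [add_comm D' D] at i2
    rw [add_mul]
    exact add_le_add i1 i2
  smul_mem' c φ := by
    rintro ⟨D, C, hC, h⟩
    refine ⟨D, ‖c‖ * C, by positivity, fun a b => ?_⟩
    have e1 : Q (fun x y => (c • φ) (x⁻¹ * y)) a b = c * Q (fun x y => φ (x⁻¹ * y)) a b :=
      Q_smul2 _ _ a b
    rw [e1, norm_mul, mul_assoc]
    exact mul_le_mul_of_nonneg_left (h a b) (norm_nonneg c)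

theorem span_dom2 {θ : G → ℂ} (hθ : PD θ) (h3 : PD fun g => 3 * θ g - 1)
    {φ : G → ℂ} (hφ : φ ∈ Submodule.span ℂ (Dmn θ)) :
    ∃ (D : ℕ) (C : ℝ), 0 ≤ C ∧ ∀ a b : G →₀ ℂ,
    ‖Q (fun x y => φ (x⁻¹ * y)) a b‖ ≤ C * (√((Q (fun x y => θ (x⁻¹ * y) ^ D) a a).re) *
      √((Q (fun x y => θ (x⁻¹ * y) ^ D) b b).re)) := by
  have h1 : Submodule.span ℂ (Dmn θ) ≤ domSub2 hθ h3 := by
    rw [Submodule.span_le]
    rintro ψ ⟨hψ, D, C, hC, h⟩
    refine ⟨D, C, hC, fun a b => (hψ.cs a b).trans ?_⟩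
    have i1 : ∀ a : G →₀ ℂ, √((Q (fun x y => ψ (x⁻¹ * y)) a a).re) ≤
        √C * √((Q (fun x y => θ (x⁻¹ * y) ^ D) a a).re) := by
      intro a
      rw [← Real.sqrt_mul hC]
      exact Real.sqrt_le_sqrt (PD.Q_le (φ := fun g => θ g ^ D) h a)
    calc _ ≤ (√C * √((Q (fun x y => θ (x⁻¹ * y) ^ D) a a).re)) *
          (√C * √((Q (fun x y => θ (x⁻¹ * y) ^ D) b b).re)) :=
          mul_le_mul (i1 a) (i1 b) (Real.sqrt_nonneg _) (by positivity)
      _ = (√C * √C) * (√((Q (fun x y => θ (x⁻¹ * y) ^ D) a a).re) *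
          √((Q (fun x y => θ (x⁻¹ * y) ^ D) b b).re)) := by ring
      _ = _ := by rw [Real.mul_self_sqrt hC]
  exact h1 hφ

/-- A function with a bounded sesquilinear form is a coefficient. -/
theorem riesz_form {K : Type u} [NormedAddCommGroup K]
    [InnerProductSpace ℂ K] [CompleteSpace K] (U : G →* (K ≃ₗᵢ[ℂ] K)) (v : K) (F : G → ℂ)
    (C : ℝ) (hC : 0 ≤ C) (hQ : ∀ a b : G →₀ ℂ, ‖Q (fun x y => F (x⁻¹ * y)) a b‖ ≤
      C * (‖Finsupp.linearCombination ℂ (fun x => U x v) a‖ *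
        ‖Finsupp.linearCombination ℂ (fun x => U x v) b‖)) :
    ∃ ζ : K, (∀ g, inner ℂ ζ (U g v) = F g) ∧ ∀ a : G →₀ ℂ,
      ‖Finsupp.linearCombination ℂ (fun x => U x ζ) a‖ ≤
        C * ‖Finsupp.linearCombination ℂ (fun x => U x v) a‖ := by
  classical
  set e : (G →₀ ℂ) →ₗ[ℂ] K := Finsupp.linearCombination ℂ (fun x => U x v) with he
  set f : (G →₀ ℂ) →ₗ[ℂ] ℂ := Finsupp.linearCombination ℂ F with hf
  have hfQ : ∀ a, f a = Q (fun x y => F (x⁻¹ * y)) (Finsupp.single 1 1) a := by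
    intro a
    unfold Q
    rw [Finsupp.sum_single_index (by simp), hf, Finsupp.linearCombination_apply]
    refine Finsupp.sum_congr fun x _ => ?_
    show a x * F x = star 1 * F (1⁻¹ * x) * a x
    rw [inv_one, one_mul, star_one, one_mul, mul_comm]
  have hfe : ∀ a, ‖f a‖ ≤ (C * ‖v‖) * ‖e a‖ := by
    intro a
    have h1 := hQ (Finsupp.single 1 1) a
    rw [← hfQ, he, Finsupp.linearCombination_single, one_smul, map_one] at h1
    rw [mul_assoc]
    exact h1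
  set W : Submodule ℂ K := (LinearMap.range e).topologicalClosure with hW
  have hWc : IsClosed (W : Set K) := Submodule.isClosed_topologicalClosure _
  have _ : CompleteSpace W := hWc.completeSpace_coe
  have heW : ∀ a, e a ∈ W := fun a =>
    Submodule.le_topologicalClosure _ (LinearMap.mem_range_self e a)
  set e' : (G →₀ ℂ) →ₗ[ℂ] W := e.codRestrict W heW with he'
  have hd : DenseRange e' := by
    intro z
    rw [Metric.mem_closure_iff]
    intro ε hε
    have hz : (z : K) ∈ closure (LinearMap.range e : Set K) := z.2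
    obtain ⟨b, hb1, hb2⟩ := Metric.mem_closure_iff.1 hz ε hε
    obtain ⟨a, ha⟩ := hb1
    refine ⟨e' a, ⟨a, rfl⟩, ?_⟩
    rw [Subtype.dist_eq]
    rw [← ha] at hb2
    exact hb2
  have hfe' : ∀ a, ‖f a‖ ≤ (C * ‖v‖) * ‖e' a‖ := hfe
  set F' : W →L[ℂ] ℂ := f.extendOfNorm e' with hF
  have hFe : ∀ a, F' (e' a) = f a := fun a => LinearMap.extendOfNorm_eq hd ⟨_, hfe'⟩ a
  set h : W := (InnerProductSpace.toDual ℂ W).symm F' with hh
  have hhe : ∀ a, inner ℂ (h : K) (e a) = f a := by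
    intro a
    rw [← hFe a]
    have h3 : inner ℂ h (e' a) = F' (e' a) := by
      rw [hh, InnerProductSpace.toDual_symm_apply]
    rw [← h3]
    rfl
  have hval : ∀ g, inner ℂ (h : K) (U g v) = F g := by
    intro g
    have h3 := hhe (Finsupp.single g 1)
    rw [he, hf, Finsupp.linearCombination_single, Finsupp.linearCombination_single, one_smul,
      one_smul] at h3
    exact h3
  have htr : ∀ g a, U g (e a) = e (a.mapDomain (fun x => g * x)) := by
    intro g a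
    rw [he, Finsupp.linearCombination_mapDomain, Finsupp.linearCombination_apply,
      Finsupp.linearCombination_apply, map_finsuppSum]
    refine Finsupp.sum_congr fun x _ => ?_
    rw [map_smul]
    congr 1
    show U g (U x v) = U (g * x) v
    rw [map_mul]
    rfl
  have hUW : ∀ g, U g (h : K) ∈ W := by
    intro g
    have h3 : (h : K) ∈ closure (LinearMap.range e : Set K) := h.2
    have h4 := map_mem_closure (U g).continuous h3
      (t := (LinearMap.range e : Set K)) (by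
        rintro _ ⟨a, rfl⟩
        exact ⟨_, (htr g a).symm⟩)
    exact h4
  refine ⟨h, hval, fun a => ?_⟩
  obtain ⟨x, hx⟩ : ∃ x, x = Finsupp.linearCombination ℂ (fun x => U x (h : K)) a := ⟨_, rfl⟩
  rw [← hx]
  have hxW : x ∈ W := by
    rw [hx, Finsupp.linearCombination_apply]
    exact W.sum_mem fun g _ => W.smul_mem _ (hUW g)
  have hxe : ∀ b, (inner ℂ x (e b) : ℂ) = Q (fun x y => F (x⁻¹ * y)) a b := by
    intro b
    rw [hx, he, Finsupp.linearCombination_apply, Finsupp.linearCombination_apply,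
      Finsupp.sum_inner]
    unfold Q
    refine Finsupp.sum_congr fun p _ => ?_
    rw [Finsupp.inner_sum]
    simp only [inner_smul_left, inner_smul_right]
    refine Finsupp.sum_congr fun q _ => ?_
    have h3 : (inner ℂ (U p (h : K)) (U q v) : ℂ) = F (p⁻¹ * q) := by
      rw [unit_inner, ← hval, map_mul]
      rfl
    rw [h3]
    simp only [starRingEnd_apply]
    ring
  have h3 : ∀ z ∈ W, ‖(inner ℂ x z : ℂ)‖ ≤ (C * ‖e a‖) * ‖z‖ := by
    intro z hz
    have hcl : IsClosed {z : K | ‖(inner ℂ x z : ℂ)‖ ≤ (C * ‖e a‖) * ‖z‖} :=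
      isClosed_le (by fun_prop) (by fun_prop)
    refine closure_minimal (s := (LinearMap.range e : Set K)) ?_ hcl hz
    rintro _ ⟨b, rfl⟩
    show ‖(inner ℂ x (e b) : ℂ)‖ ≤ (C * ‖e a‖) * ‖e b‖
    rw [hxe, mul_assoc]
    exact hQ a b
  have h4 := h3 x hxW
  have h5 : ‖(inner ℂ x x : ℂ)‖ = ‖x‖ * ‖x‖ := by
    rw [inner_self_eq_norm_sq_to_K, norm_pow, RCLike.norm_ofReal, abs_norm, sq]
  rw [h5] at h4
  rcases (norm_nonneg x).eq_or_lt with h0 | h0
  · rw [← h0]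
    positivity
  · exact le_of_mul_le_mul_right h4 h0

end

section

variable {H : Type u} [NormedAddCommGroup H] [InnerProductSpace ℂ H] [CompleteSpace H]
  {M : StarSubalgebra ℂ (H →L[ℂ] H)} {Ω : H} (hΩ : TraceVec M Ω)
  {Γ : Subgroup (unitary (H →L[ℂ] H))} (hΓ : ∀ u ∈ Γ, (u : H →L[ℂ] H) ∈ M)

include hΩ hΓ

/-- If some nonzero star polynomial in the coefficients is square summable, the group is
amenable. -/
theorem amenable_of_l2 (hF : HF M Ω Γ) (F : Γ → ℂ)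
    (h : F ∈ StarAlgebra.adjoin ℂ (CF M Ω Γ)) (h0 : F ≠ 0)
    (hs : Summable fun g => ‖F g‖ ^ 2) : Amenable Γ := by
  obtain ⟨D, C, hC, hd⟩ := span_dom2 (th_pd Γ Ω) (th_three Γ Ω) (adjoin_le_span hΩ hΓ h)
  have hθD := (th_pd Γ Ω).pow D
  have hΛ : (Matrix.of fun p q : Γ × Unit => th Γ Ω (p.1⁻¹ * q.1) ^ D).PosSemidef := by
    obtain ⟨K, _, _, _, w, hw, -⟩ := gram_exists _ hθD
    exact psd_gram (fun p : Γ × Unit => w p.1) _ fun x y => (hw x.1 y.1).symm
  obtain ⟨K, _, _, _, U, v', hUv'⟩ := rep_exists (fun g (_ _ : Unit) => th Γ Ω g ^ D) hΛ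
  obtain ⟨v, hv⟩ : ∃ v, v = v' () := ⟨_, rfl⟩
  have hUv : ∀ g, (inner ℂ v (U g v) : ℂ) = th Γ Ω g ^ D := by
    intro g
    rw [hv]
    exact hUv' g () ()
  have hker : ∀ x y, (inner ℂ (U x v) (U y v) : ℂ) = th Γ Ω (x⁻¹ * y) ^ D := by
    intro x y
    rw [unit_inner, ← hUv, map_mul]
    rfl
  have hnorm : ∀ a : Γ →₀ ℂ, √((Q (fun x y => th Γ Ω (x⁻¹ * y) ^ D) a a).re) =
      ‖Finsupp.linearCombination ℂ (fun x => U x v) a‖ := by
    intro a
    have h1 := norm_lc_sq (fun x => U x v) a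
    simp only [hker] at h1
    rw [← h1, Complex.ofReal_re, Real.sqrt_sq (norm_nonneg _)]
  simp only [hnorm] at hd
  obtain ⟨ζ, hζ, hζn⟩ := riesz_form U v F C hC hd
  have hs' : Summable fun g => ‖(inner ℂ ζ (U g v) : ℂ)‖ ^ 2 := by
    simp only [hζ]
    exact hs
  have hξ0 : rr U ζ ζ ≠ 0 := by
    intro h1
    apply h0
    funext g
    rw [← hζ g]
    exact rr_ne U ζ v hs' h1 g
  have hξn : ∀ a : Γ →₀ ℂ, ‖Finsupp.linearCombination ℂ (fun x => U x (rr U ζ ζ)) a‖ ≤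
      ‖Finsupp.linearCombination ℂ (fun x => U x ζ) a‖ := by
    intro a
    obtain ⟨z, hz⟩ : ∃ z, z = Finsupp.linearCombination ℂ (fun x => U x (rr U ζ ζ)) a :=
      ⟨_, rfl⟩
    rw [← hz]
    have h0 : ∀ y : K,
        (inner ℂ (Finsupp.linearCombination ℂ (fun x => U x (rr U ζ ζ)) a) y : ℂ) =
        inner ℂ (Finsupp.linearCombination ℂ (fun x => U x ζ) a) (rr U ζ y) := by
      intro y
      rw [Finsupp.linearCombination_apply, Finsupp.linearCombination_apply, Finsupp.sum_inner,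
        Finsupp.sum_inner]
      refine Finsupp.sum_congr fun x _ => ?_
      rw [inner_smul_left, inner_smul_left, ← rr_comm, rr_sa]
    have h1 : (inner ℂ z z : ℂ) =
        inner ℂ (Finsupp.linearCombination ℂ (fun x => U x ζ) a) (rr U ζ z) := by
      rw [← h0, ← hz]
    have h2 : ‖z‖ * ‖z‖ ≤ ‖Finsupp.linearCombination ℂ (fun x => U x ζ) a‖ * ‖z‖ := by
      have h3 : ‖(inner ℂ z z : ℂ)‖ = ‖z‖ * ‖z‖ := by
        rw [inner_self_eq_norm_sq_to_K, norm_pow, RCLike.norm_ofReal, abs_norm, sq]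
      rw [← h3, h1]
      exact (norm_inner_le_norm _ _).trans
        (mul_le_mul_of_nonneg_left (rr_norm U ζ z) (norm_nonneg _))
    rcases (norm_nonneg z).eq_or_lt with h4 | h4
    · rw [← h4]
      positivity
    · exact le_of_mul_le_mul_right h2 h4
  refine amenable_of_dom hΩ hΓ hF (fun g => inner ℂ (rr U ζ ζ) (U g (rr U ζ ζ)))
    (PD.coef U _) (C ^ 2 + 1) 1 D (by positivity) zero_le_one (rr_bdd U ζ) ?_ ?_
  · rw [map_one]
    show 0 < (inner ℂ (rr U ζ ζ) (rr U ζ ζ) : ℂ).re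
    rw [inner_self_c, Complex.ofReal_re]
    have := norm_pos_iff.2 hξ0
    positivity
  · constructor
    · exact ((hθD.smul (show (0 : ℝ) ≤ C ^ 2 + 1 by positivity)).1).sub
        (PD.coef U (rr U ζ ζ)).1
    · intro a
      show 0 ≤ Q (fun x y => ((C ^ 2 + 1 : ℝ) : ℂ) * th Γ Ω (x⁻¹ * y) ^ D -
        inner ℂ (rr U ζ ζ) (U (x⁻¹ * y) (rr U ζ ζ))) a a
      rw [Q_comb]
      have h1 := norm_lc_sq (fun x => U x v) a
      simp only [hker] at h1
      have h2 := norm_lc_sq (fun x => U x (rr U ζ ζ)) a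
      have h3 : ∀ x y, (inner ℂ (U x (rr U ζ ζ)) (U y (rr U ζ ζ)) : ℂ) =
          inner ℂ (rr U ζ ζ) (U (x⁻¹ * y) (rr U ζ ζ)) := by
        intro x y
        rw [unit_inner, map_mul]
        rfl
      simp only [h3] at h2
      rw [← h1, ← h2, ← Complex.ofReal_mul, ← Complex.ofReal_sub, Complex.zero_le_real,
        sub_nonneg]
      have h4 := (hξn a).trans (hζn a)
      have h5 := pow_le_pow_left₀ (norm_nonneg _) h4 2
      rw [mul_pow] at h5
      nlinarith [sq_nonneg ‖Finsupp.linearCombination ℂ (fun x => U x v) a‖]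

/-- If some nonzero star polynomial in the coefficients is in `ℓ^p`, the group is amenable. -/
theorem amenable_of_lp (hF : HF M Ω Γ) (F : Γ → ℂ)
    (h : F ∈ StarAlgebra.adjoin ℂ (CF M Ω Γ)) (h0 : F ≠ 0) (p : ℕ)
    (hs : Summable fun g => ‖F g‖ ^ p) : Amenable Γ := by
  refine amenable_of_l2 hΩ hΓ hF (F ^ p) (pow_mem h p) ?_ ?_
  · obtain ⟨g, hg⟩ := Function.ne_iff.1 h0
    refine Function.ne_iff.2 ⟨g, ?_⟩
    exact pow_ne_zero p hg
  · refine Summable.of_nonneg_of_le (fun g => sq_nonneg _) (fun g => ?_)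
      (hs.mul_left (∑' g, ‖F g‖ ^ p))
    rw [Pi.pow_apply, norm_pow, sq]
    exact mul_le_mul_of_nonneg_right (hs.le_tsum g fun _ _ => by positivity) (by positivity)

end

end Pool.Agent.ZAR
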