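import Pool.Agent.ZAR.PartC
import Pool.Agent.FAP.Fun

/-!
# ZAR: operators as functions
-/

set_option autoImplicit false

open scoped ComplexOrder

namespace Pool.Agent.ZAR

open Pool.Agent.FAP Pool.Agent.JM

universe u

section

variable {H : Type u} [NormedAddCommGroup H] [InnerProductSpace ℂ H]

/-- `M` contains every bounded operator which commutes with all bounded operators commuting with
`M`. -/
def Bicomm (M : Submodule ℂ (H → H)) : Prop :=
  ∀ x : H → H, IsBoundedLinearMap ℂ x →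
    (∀ c : H → H, IsBoundedLinearMap ℂ c → (∀ y ∈ M, c ∘ y = y ∘ c) → c ∘ x = x ∘ c) → x ∈ M

/-- The `e i j` are matrix units in `M` with sum of the diagonal the identity. -/
structure MatrixUnits (M : Submodule ℂ (H → H)) {n : ℕ} (e : Fin n → Fin n → H → H) : Prop where
  mem : ∀ i j, e i j ∈ M
  mul : ∀ i j k, e i j ∘ e j k = e i k
  zero : ∀ i j k l, j ≠ k → e i j ∘ e k l = 0
  adj : ∀ i j, IsAdj (e i j) (e j i)
  one : ∑ i, e i i = id

/-- Finite subsets of `Γ` are approximable, in the norm `‖x Ω‖`, by linear combinations of matrix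
units of `M`. -/
def MatrixApprox (M : Submodule ℂ (H → H)) (Ω : H) (Γ : Subgroup (Equiv.Perm H)) : Prop :=
  ∀ (F : Finset (Equiv.Perm H)) (t : ℝ), (∀ u ∈ F, u ∈ Γ) → 0 < t →
    ∃ (n : ℕ) (e : Fin n → Fin n → H → H), MatrixUnits M e ∧
      ∀ u ∈ F, ∃ c : Fin n → Fin n → ℂ, ‖u Ω - ∑ i, ∑ j, c i j • e i j Ω‖ ≤ t

/-- The von Neumann algebra generated by `Γ` is a factor: a bounded operator which commutes with
`Γ` and with all bounded operators commuting with `Γ` is a scalar. -/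
def Factorial (Γ : Subgroup (Equiv.Perm H)) : Prop :=
  ∀ z : H → H, IsBoundedLinearMap ℂ z → (∀ u ∈ Γ, z ∘ u = u ∘ z) →
    (∀ c : H → H, IsBoundedLinearMap ℂ c → (∀ u ∈ Γ, c ∘ u = u ∘ c) → c ∘ z = z ∘ c) →
    ∃ l : ℂ, z = l • id

/-- The orthogonal projection of `u Ω` on `V` is zero or has norm at least `δ`. -/
def Gap (V : Submodule ℂ H) (Ω : H) (Γ : Subgroup (Equiv.Perm H)) : Prop :=
  ∃ δ : ℝ, 0 < δ ∧ ∀ u ∈ Γ, (∀ v ∈ V, (inner ℂ v (u Ω) : ℂ) = 0) ∨
    ∃ v ∈ V, ‖v‖ ≤ 1 ∧ δ ≤ ‖(inner ℂ v (u Ω) : ℂ)‖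

end

variable {H : Type u} [NormedAddCommGroup H] [InnerProductSpace ℂ H] [CompleteSpace H]
  {M : Submodule ℂ (H → H)} {Ω : H} {Γ : Subgroup (Equiv.Perm H)}

theorem traceVec_toSub (hM : StarAlg M) (htr : Tracial M Ω) (hs : ∀ x ∈ M, x Ω = 0 → x = 0) :
    TraceVec (toSub M hM) Ω := by
  refine ⟨htr.1, trace_toSub hM htr, fun x hx h0 => ?_⟩
  ext v
  exact congrFun (hs _ hx h0) v

/-- matrix units as continuous linear maps -/
theorem mu_toSub (hM : StarAlg M) {n : ℕ} {e : Fin n → Fin n → H → H} (he : MatrixUnits M e) :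
    ∃ e' : Fin n → Fin n → H →L[ℂ] H, MU (toSub M hM) e' ∧ ∀ i j v, e' i j v = e i j v := by
  refine ⟨fun i j => (hM.bdd _ (he.mem i j)).toContinuousLinearMap, ⟨fun i j => he.mem i j,
    fun i j k => ?_, fun i j k l hjk => ?_, fun i j => ?_, ?_⟩, fun i j v => rfl⟩
  · ext v
    exact congrFun (he.mul i j k) v
  · ext v
    exact congrFun (he.zero i j k l hjk) v
  · have h1 : IsAdj ((hM.bdd _ (he.mem i j)).toContinuousLinearMap : H → H) (e j i) := he.adj i j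
    have h2 := adj_eq h1
    ext v
    exact (congrFun h2 v).symm
  · ext v
    have h1 := congrFun he.one v
    rw [Finset.sum_apply] at h1
    rw [sum_apply]
    exact h1

theorem hf_toSub (hM : StarAlg M) (hΓ : DiscreteIn M Ω Γ) (hF : MatrixApprox M Ω Γ) :
    HF (toSub M hM) Ω (toU hM hΓ).range := by
  classical
  intro F ε hε
  obtain ⟨F', hF', hFF'⟩ := exists_preimage hM hΓ
    (F.image fun u : (toU hM hΓ).range => (u : unitary (H →L[ℂ] H))) (by
      intro u hu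
      obtain ⟨w, -, rfl⟩ := Finset.mem_image.1 hu
      exact w.2)
  obtain ⟨n, e, he, happ⟩ := hF F' ε hF' hε
  obtain ⟨e', he', hee⟩ := mu_toSub hM he
  refine ⟨n, e', he', fun u hu => ?_⟩
  obtain ⟨g, hg, hug⟩ := hFF' u (Finset.mem_image_of_mem _ hu)
  obtain ⟨c, hc⟩ := happ g hg
  refine ⟨c, ?_⟩
  rw [hug]
  simp only [hee]
  exact hc

theorem disc_toU (hM : StarAlg M) (hΓ : DiscreteIn M Ω Γ) : Disc Ω (toU hM hΓ).range := by
  obtain ⟨-, c, hc, h⟩ := discrete_range hM hΓ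
  exact ⟨c, hc, fun g hg => h g g.2 fun h1 => hg (Subtype.ext h1)⟩

theorem ss_toSub (hM : StarAlg M) (hM' : Bicomm M) (hΓ : DiscreteIn M Ω Γ) :
    ∀ x ∈ SS (toU hM hΓ).range, x ∈ toSub M hM := by
  intro x hx
  refine hM' (x : H → H) x.isBoundedLinearMap fun c hc hcomm => ?_
  have h1 := SS_comm hx (c := hc.toContinuousLinearMap) fun g => by
    obtain ⟨u, hu⟩ := g.2
    ext v
    have h2 := congrFun (hcomm _ (hΓ.1 u u.2).1) v
    rw [← hu]
    exact h2
  funext v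
  exact congrArg (fun T : H →L[ℂ] H => T v) h1

theorem factor_toU (hM : StarAlg M) (hΓ : DiscreteIn M Ω Γ) (hfac : Factorial Γ) :
    ∀ z : H →L[ℂ] H, (∀ g : (toU hM hΓ).range, z * ((g : unitary (H →L[ℂ] H)) : H →L[ℂ] H) =
      ((g : unitary (H →L[ℂ] H)) : H →L[ℂ] H) * z) →
    (∀ c : H →L[ℂ] H, (∀ g : (toU hM hΓ).range,
      c * ((g : unitary (H →L[ℂ] H)) : H →L[ℂ] H) =
      ((g : unitary (H →L[ℂ] H)) : H →L[ℂ] H) * c) → c * z = z * c) → ∃ l : ℂ, z = l • 1 := by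
  intro z h1 h2
  have h3 : ∀ u ∈ Γ, (z : H → H) ∘ u = u ∘ (z : H → H) := by
    intro u hu
    have h3 := h1 ⟨toU hM hΓ ⟨u, hu⟩, ⟨⟨u, hu⟩, rfl⟩⟩
    funext v
    exact congrArg (fun T : H →L[ℂ] H => T v) h3
  have h4 : ∀ c : H → H, IsBoundedLinearMap ℂ c → (∀ u ∈ Γ, c ∘ u = u ∘ c) →
      c ∘ (z : H → H) = (z : H → H) ∘ c := by
    intro c hc hcomm
    have h5 := h2 hc.toContinuousLinearMap fun g => by
      obtain ⟨u, hu⟩ := g.2
      ext v
      have h4 := congrFun (hcomm _ u.2) v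
      rw [← hu]
      exact h4
    funext v
    exact congrArg (fun T : H →L[ℂ] H => T v) h5
  obtain ⟨l, hl⟩ := hfac (z : H → H) z.isBoundedLinearMap h3 h4
  refine ⟨l, ?_⟩
  ext v
  exact congrFun hl v

/-- The gap condition for finitely many operators. -/
theorem gap_operators (V : Submodule ℂ H) [FiniteDimensional ℂ V] (hV : Ω ∈ V)
    (h1 : ‖Ω‖ = 1) (hM : StarAlg M) (hΓ : DiscreteIn M Ω Γ) (hg : Gap V Ω Γ) :
    ∃ (δ : ℝ) (C : Finset (H →L[ℂ] H)), 0 < δ ∧ 1 ∈ C ∧ ∀ g : (toU hM hΓ).range,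
      (∀ c ∈ C, cf (toU hM hΓ).range Ω c g = 0) ∨
        ∃ c ∈ C, δ ≤ ‖cf (toU hM hΓ).range Ω c g‖ := by
  classical
  obtain ⟨δ, hδ, h⟩ := hg
  obtain ⟨b⟩ : Nonempty (OrthonormalBasis (Fin (Module.finrank ℂ V)) ℂ V) :=
    ⟨stdOrthonormalBasis ℂ V⟩
  obtain ⟨N, hN⟩ : ∃ N : ℝ, N = Module.finrank ℂ V + 1 := ⟨_, rfl⟩
  have hN0 : 0 < N := by
    rw [hN]
    positivity
  let R : Fin (Module.finrank ℂ V) → H →L[ℂ] H := fun i =>
    (innerSL ℂ ((b i : V) : H)).smulRight Ω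
  have hΩ1 : (inner ℂ Ω Ω : ℂ) = 1 := by
    rw [inner_self_c, h1]
    norm_num
  have hR : ∀ i (g : (toU hM hΓ).range), cf (toU hM hΓ).range Ω (R i) g =
      inner ℂ ((b i : V) : H) (((g : unitary (H →L[ℂ] H)) : H →L[ℂ] H) Ω) := by
    intro i g
    show (inner ℂ Ω ((inner ℂ ((b i : V) : H) (((g : unitary (H →L[ℂ] H)) : H →L[ℂ] H) Ω) : ℂ)
      • Ω) : ℂ) = _
    rw [inner_smul_right, hΩ1, mul_one]
  refine ⟨δ / N, insert 1 (Finset.univ.image R), by positivity, Finset.mem_insert_self _ _,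
    fun g => ?_⟩
  obtain ⟨u, hu⟩ := g.2
  have hgu : ∀ v, ((g : unitary (H →L[ℂ] H)) : H →L[ℂ] H) v = (u : Equiv.Perm H) v := by
    intro v
    rw [← hu]
    rfl
  rcases h u u.2 with h2 | ⟨v, hv, hv1, h2⟩
  · refine Or.inl fun c hc => ?_
    rcases Finset.mem_insert.1 hc with rfl | hc
    · have h3 := h2 Ω hV
      rw [← hgu] at h3
      exact h3
    · obtain ⟨i, -, rfl⟩ := Finset.mem_image.1 hc
      rw [hR, hgu]
      exact h2 _ (b i).2
  · refine Or.inr ?_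
    by_contra hcon
    push Not at hcon
    have h3 : (inner ℂ v ((u : Equiv.Perm H) Ω) : ℂ) = ∑ i, star (inner ℂ (b i) (⟨v, hv⟩ : V)) *
        inner ℂ ((b i : V) : H) ((u : Equiv.Perm H) Ω) := by
      have h4 : v = ∑ i, (inner ℂ (b i) (⟨v, hv⟩ : V) : ℂ) • ((b i : V) : H) := by
        have h5 := congrArg (fun x : V => (x : H)) (b.sum_repr' (⟨v, hv⟩ : V))
        simp only [Submodule.coe_sum, Submodule.coe_smul] at h5
        exact h5.symm
      conv_lhs => rw [h4]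
      rw [sum_inner]
      exact Finset.sum_congr rfl fun i _ => by
        rw [inner_smul_left]
        rfl
    have h4 : ‖(inner ℂ v ((u : Equiv.Perm H) Ω) : ℂ)‖ ≤
        ∑ _i : Fin (Module.finrank ℂ V), δ / N := by
      rw [h3]
      refine (norm_sum_le _ _).trans (Finset.sum_le_sum fun i _ => ?_)
      rw [norm_mul, norm_star]
      have h5 : ‖(inner ℂ (b i) (⟨v, hv⟩ : V) : ℂ)‖ ≤ 1 := by
        refine (norm_inner_le_norm _ _).trans ?_
        rw [b.norm_eq_one, one_mul]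
        exact hv1
      have h6 := (hcon (R i) (Finset.mem_insert_of_mem
        (Finset.mem_image_of_mem _ (Finset.mem_univ i)))).le
      rw [hR, hgu] at h6
      calc _ ≤ 1 * (δ / N) := mul_le_mul h5 h6 (norm_nonneg _) zero_le_one
        _ = δ / N := one_mul _
    rw [Finset.sum_const, Finset.card_univ, Fintype.card_fin, nsmul_eq_mul] at h4
    have h5 : (Module.finrank ℂ V : ℝ) * (δ / N) < δ := by
      rw [← mul_div_assoc, div_lt_iff₀ hN0, hN]
      nlinarith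
    linarith

/-- The theorem. -/
theorem amenable_of_gap (hM : StarAlg M) (hM' : Bicomm M) (htr : Tracial M Ω)
    (hs : ∀ x ∈ M, x Ω = 0 → x = 0) (hΓ : DiscreteIn M Ω Γ) (hF : MatrixApprox M Ω Γ)
    (hfac : Factorial Γ) (V : Submodule ℂ H) [FiniteDimensional ℂ V] (hV : Ω ∈ V)
    (hg : Gap V Ω Γ) : Amenable Γ := by
  refine amenable_of_equiv (MonoidHom.ofInjective (toU_injective hM hΓ)) ?_
  obtain ⟨δ, C, hδ, hC1, hτ⟩ := gap_operators V hV htr.1 hM hΓ hg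
  exact amenable_of_isolated (traceVec_toSub hM htr hs) (ss_toSub hM hM' hΓ) hδ hC1 hτ
    (hf_toSub hM hΓ hF) (disc_toU hM hΓ) (factor_toU hM hΓ hfac)

end Pool.Agent.ZAR
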