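import Pool.Agent.ZAR.Form
import Pool.Agent.ZAR.Fun

/-!
# ZAR: polynomials in the coefficients, operators as functions
-/

set_option autoImplicit false

open scoped ComplexOrder

namespace Pool.Agent.ZAR

open Pool.Agent.FAP Pool.Agent.JM

universe u

section

variable {H : Type u} [NormedAddCommGroup H] [InnerProductSpace ℂ H]

/-- `Γ` is a group of unitaries of `M`. -/
def UnitariesIn (M : Submodule ℂ (H → H)) (Γ : Subgroup (Equiv.Perm H)) : Prop :=
  ∀ u ∈ Γ, (u : H → H) ∈ M ∧ IsAdj (u : H → H) (u⁻¹ : Equiv.Perm H)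

/-- The numbers `τ(x i u) = ⟪Ω, x i u Ω⟫` and their conjugates. -/
noncomputable def coefVal (Ω : H) {r : ℕ} (x : Fin r → H → H) (u : H → H) : Fin r ⊕ Fin r → ℂ :=
  Sum.elim (fun i => inner ℂ Ω (x i (u Ω))) (fun i => star (inner ℂ Ω (x i (u Ω))))

/-- The value of the polynomial `P` at the numbers `τ(x i u)` and their conjugates. -/
noncomputable def polyVal (Ω : H) {r : ℕ} (x : Fin r → H → H)
    (P : MvPolynomial (Fin r ⊕ Fin r) ℂ) (u : H → H) : ℂ :=
  MvPolynomial.eval (coefVal Ω x u) P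

end

theorem aeval_fun {X σ : Type*} (f : σ → X → ℂ) (P : MvPolynomial σ ℂ) (g : X) :
    (MvPolynomial.aeval f P) g = MvPolynomial.eval (fun i => f i g) P := by
  induction P using MvPolynomial.induction_on with
  | C a =>
    rw [MvPolynomial.aeval_C, MvPolynomial.eval_C]
    rfl
  | add p q hp hq => rw [map_add, Pi.add_apply, hp, hq, map_add]
  | mul_X p i hp =>
    rw [map_mul, Pi.mul_apply, hp, MvPolynomial.aeval_X, map_mul, MvPolynomial.eval_X]

theorem aeval_mem_sub {X σ : Type*} (A : StarSubalgebra ℂ (X → ℂ)) (f : σ → X → ℂ)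
    (hf : ∀ i, f i ∈ A) (P : MvPolynomial σ ℂ) : MvPolynomial.aeval f P ∈ A := by
  induction P using MvPolynomial.induction_on with
  | C a =>
    rw [MvPolynomial.aeval_C]
    exact algebraMap_mem _ a
  | add p q hp hq =>
    rw [map_add]
    exact add_mem hp hq
  | mul_X p i hp =>
    rw [map_mul, MvPolynomial.aeval_X]
    exact mul_mem hp (hf i)

variable {H : Type u} [NormedAddCommGroup H] [InnerProductSpace ℂ H] [CompleteSpace H]
  {M : Submodule ℂ (H → H)} {Ω : H} {Γ : Subgroup (Equiv.Perm H)}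

/-- the unitary operator of an element of `Γ` -/
noncomputable def toV (hM : StarAlg M) (hΓ : UnitariesIn M Γ) : Γ →* unitary (H →L[ℂ] H) where
  toFun u := ⟨(hM.bdd _ (hΓ u u.2).1).toContinuousLinearMap, by
    have h1 : star ((hM.bdd _ (hΓ u u.2).1).toContinuousLinearMap) =
        (hM.bdd _ (hΓ (u⁻¹ : Γ) (u⁻¹ : Γ).2).1).toContinuousLinearMap := by
      have h2 : IsAdj ((hM.bdd _ (hΓ u u.2).1).toContinuousLinearMap : H → H)
          (⇑((u : Equiv.Perm H)⁻¹)) := (hΓ u u.2).2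
      have h3 := adj_eq h2
      ext v
      exact (congrFun h3 v).symm
    rw [Unitary.mem_iff, h1]
    constructor
    · ext v
      show (u : Equiv.Perm H)⁻¹ ((u : Equiv.Perm H) v) = v
      simp
    · ext v
      show (u : Equiv.Perm H) ((u : Equiv.Perm H)⁻¹ v) = v
      simp⟩
  map_one' := by
    apply Subtype.ext
    ext v
    rfl
  map_mul' a b := by
    apply Subtype.ext
    ext v
    rfl

theorem toV_apply (hM : StarAlg M) (hΓ : UnitariesIn M Γ) (u : Γ) (v : H) :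
    ((toV hM hΓ u : unitary (H →L[ℂ] H)) : H →L[ℂ] H) v = (u : Equiv.Perm H) v := rfl

theorem toV_injective (hM : StarAlg M) (hΓ : UnitariesIn M Γ) :
    Function.Injective (toV hM hΓ) := by
  intro a b h
  apply Subtype.ext
  ext v
  rw [← toV_apply hM hΓ a, ← toV_apply hM hΓ b, h]

theorem hf_toV (hM : StarAlg M) (hΓ : UnitariesIn M Γ) (hF : MatrixApprox M Ω Γ) :
    HF (toSub M hM) Ω (toV hM hΓ).range := by
  classical
  intro F ε hε
  have h1 : ∀ u : (toV hM hΓ).range, ∃ g : Γ, toV hM hΓ g = u := fun u => u.2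
  choose g hg using h1
  obtain ⟨n, e, he, happ⟩ := hF (F.image fun u => ((g u : Γ) : Equiv.Perm H)) ε (by
    intro u hu
    obtain ⟨w, -, rfl⟩ := Finset.mem_image.1 hu
    exact (g w).2) hε
  obtain ⟨e', he', hee⟩ := mu_toSub hM he
  refine ⟨n, e', he', fun u hu => ?_⟩
  obtain ⟨c, hc⟩ := happ (g u) (Finset.mem_image_of_mem _ hu)
  refine ⟨c, ?_⟩
  rw [← hg u, toV_apply]
  simp only [hee]
  exact hc

/-- The theorem for a polynomial in the coefficients which is in `ℓ^p`. -/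
theorem amenable_of_poly (hM : StarAlg M) (htr : Tracial M Ω)
    (hs : ∀ x ∈ M, x Ω = 0 → x = 0) (hΓ : UnitariesIn M Γ) (hF : MatrixApprox M Ω Γ)
    {r : ℕ} (x : Fin r → H → H) (hx : ∀ i, x i ∈ M) (P : MvPolynomial (Fin r ⊕ Fin r) ℂ)
    (p : ℕ) (h0 : ∃ u ∈ Γ, polyVal Ω x P u ≠ 0)
    (hp : Summable fun u : Γ => ‖polyVal Ω x P (u : Equiv.Perm H)‖ ^ p) : Amenable Γ := by
  obtain ⟨e, he⟩ : ∃ e : Γ ≃* (toV hM hΓ).range, ∀ u, e u = toV hM hΓ u :=
    ⟨MonoidHom.ofInjective (toV_injective hM hΓ), fun u => rfl⟩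
  refine amenable_of_equiv e ?_
  let x' : Fin r → H →L[ℂ] H := fun i => (hM.bdd _ (hx i)).toContinuousLinearMap
  let f : Fin r ⊕ Fin r → (toV hM hΓ).range → ℂ := Sum.elim
    (fun i => cf (toV hM hΓ).range Ω (x' i)) (fun i => star (cf (toV hM hΓ).range Ω (x' i)))
  obtain ⟨F, hFdef⟩ : ∃ F : (toV hM hΓ).range → ℂ, F = MvPolynomial.aeval f P := ⟨_, rfl⟩
  have hFm : F ∈ StarAlgebra.adjoin ℂ (CF (toSub M hM) Ω (toV hM hΓ).range) := by
    have h1 : ∀ i, cf (toV hM hΓ).range Ω (x' i) ∈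
        StarAlgebra.adjoin ℂ (CF (toSub M hM) Ω (toV hM hΓ).range) := fun i =>
      StarAlgebra.subset_adjoin ℂ _ ⟨x' i, hx i, rfl⟩
    rw [hFdef]
    refine aeval_mem_sub _ f (fun i => ?_) P
    rcases i with i | i
    · exact h1 i
    · exact star_mem (h1 i)
  have hFv : ∀ u : Γ, F (e u) = polyVal Ω x P (u : Equiv.Perm H) := by
    intro u
    have hcf : ∀ c : H →L[ℂ] H, cf (toV hM hΓ).range Ω c (e u) =
        inner ℂ Ω (c ((u : Equiv.Perm H) Ω)) := by
      intro c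
      show (inner ℂ Ω (c (((e u : unitary (H →L[ℂ] H)) : H →L[ℂ] H) Ω)) : ℂ) = _
      rw [he u]
      rfl
    have hv : (fun i => f i (e u)) = coefVal Ω x (u : Equiv.Perm H) := by
      funext i
      rcases i with i | i
      · exact hcf (x' i)
      · exact congrArg star (hcf (x' i))
    rw [hFdef, aeval_fun, hv]
    rfl
  refine amenable_of_lp (traceVec_toSub hM htr hs) (fun u hu => ?_) (hf_toV hM hΓ hF) F hFm ?_ p ?_
  · obtain ⟨g, rfl⟩ := hu
    exact (hΓ g g.2).1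
  · obtain ⟨u, hu, h⟩ := h0
    refine Function.ne_iff.2 ⟨e ⟨u, hu⟩, ?_⟩
    rw [hFv]
    exact h
  · rw [← e.toEquiv.summable_iff]
    refine hp.congr fun u => ?_
    show ‖polyVal Ω x P (u : Equiv.Perm H)‖ ^ p = ‖F (e u)‖ ^ p
    rw [hFv]

end Pool.Agent.ZAR
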