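import Mathlib

/-!
# ZAR: the Hilbert space of a positive semidefinite kernel and of an equivariant kernel
-/

set_option autoImplicit false

open scoped ComplexOrder

namespace Pool.Agent.ZAR

universe u

/-- The quadratic form of a kernel. -/
noncomputable def Q {X : Type u} (k : X → X → ℂ) (a b : X →₀ ℂ) : ℂ :=
  a.sum fun x s => b.sum fun y t => star s * k x y * t

/-- Every positive semidefinite kernel is the kernel of the scalar products of a total family of
vectors of a Hilbert space. -/
theorem gram_exists {X : Type u} (k : X → X → ℂ) (hk : (Matrix.of k).PosSemidef) :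
    ∃ (K : Type u) (_ : NormedAddCommGroup K) (_ : InnerProductSpace ℂ K) (_ : CompleteSpace K)
      (w : X → K), (∀ x y, inner ℂ (w x) (w y) = k x y) ∧
      DenseRange (Finsupp.linearCombination ℂ w) := by
  classical
  let c : PreInnerProductSpace.Core ℂ (X →₀ ℂ) :=
    { inner := fun a b => Q k a b
      conj_inner_symm := by
        intro f g
        show (starRingEnd ℂ) (Q k g f) = Q k f g
        unfold Q
        rw [Finsupp.sum_comm]
        simp only [map_finsuppSum]
        refine Finsupp.sum_congr fun x _ => Finsupp.sum_congr fun y _ => ?_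
        have h := hk.1.apply x y
        simp only [Matrix.of_apply] at h
        rw [← h]
        simp only [map_mul, starRingEnd_apply, star_star]
        ring
      re_inner_nonneg := by
        intro a
        have h := hk.2 a
        exact (RCLike.nonneg_iff (K := ℂ)).1 h |>.1
      add_left := by
        intro a b d
        show Q k (a + b) d = Q k a d + Q k b d
        unfold Q
        rw [Finsupp.sum_add_index'] <;> simp [← Finsupp.sum_add, add_mul]
      smul_left := by
        intro a b r
        show Q k (r • a) b = (starRingEnd ℂ) r * Q k a b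
        unfold Q
        rw [Finsupp.sum_smul_index] <;> simp [Finsupp.mul_sum, ← mul_assoc] }
  let i1 : SeminormedAddCommGroup (X →₀ ℂ) :=
    @InnerProductSpace.Core.toSeminormedAddCommGroup ℂ (X →₀ ℂ) _ _ _ c
  let i2 : InnerProductSpace ℂ (X →₀ ℂ) := @InnerProductSpace.ofCore ℂ (X →₀ ℂ) _ _ _ c
  have hin : ∀ a b : X →₀ ℂ, inner ℂ a b = Q k a b := fun a b => rfl
  refine ⟨UniformSpace.Completion (X →₀ ℂ), inferInstance, inferInstance, inferInstance,
    fun x => ((Finsupp.single x 1 : X →₀ ℂ) : UniformSpace.Completion (X →₀ ℂ)), ?_, ?_⟩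
  · intro x y
    rw [UniformSpace.Completion.inner_coe, hin]
    unfold Q
    simp
  · have h : ∀ a : X →₀ ℂ, Finsupp.linearCombination ℂ
        (fun x => ((Finsupp.single x 1 : X →₀ ℂ) : UniformSpace.Completion (X →₀ ℂ))) a =
        (a : UniformSpace.Completion (X →₀ ℂ)) := by
      intro a
      have h1 := Finsupp.apply_linearCombination ℂ
        (UniformSpace.Completion.toComplL (𝕜 := ℂ) (E := X →₀ ℂ)).toLinearMap
        (fun x => (Finsupp.single x 1 : X →₀ ℂ)) a
      have h2 : Finsupp.linearCombination ℂ (fun x => (Finsupp.single x 1 : X →₀ ℂ)) a = a := by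
        rw [Finsupp.linearCombination_apply]
        simp
      rw [h2] at h1
      exact h1.symm
    rw [DenseRange, show Set.range (Finsupp.linearCombination ℂ
      (fun x => ((Finsupp.single x 1 : X →₀ ℂ) : UniformSpace.Completion (X →₀ ℂ)))) =
      Set.range (fun a : X →₀ ℂ => (a : UniformSpace.Completion (X →₀ ℂ))) by
        ext z
        simp only [Set.mem_range, h]]
    exact UniformSpace.Completion.denseRange_coe

/-- The norm of a linear combination of vectors with given scalar products. -/
theorem inner_lc {X : Type u} {K : Type*} [NormedAddCommGroup K] [InnerProductSpace ℂ K]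
    (w : X → K) (a b : X →₀ ℂ) :
    inner ℂ (Finsupp.linearCombination ℂ w a) (Finsupp.linearCombination ℂ w b) =
      Q (fun x y => inner ℂ (w x) (w y)) a b := by
  rw [Finsupp.linearCombination_apply, Finsupp.linearCombination_apply, Finsupp.sum_inner]
  unfold Q
  refine Finsupp.sum_congr fun x _ => ?_
  rw [Finsupp.inner_sum]
  simp only [inner_smul_left, inner_smul_right]
  refine Finsupp.sum_congr fun y _ => ?_
  simp only [starRingEnd_apply]
  ring

theorem norm_lc_sq {X : Type u} {K : Type*} [NormedAddCommGroup K] [InnerProductSpace ℂ K]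
    (w : X → K) (a : X →₀ ℂ) : ((‖Finsupp.linearCombination ℂ w a‖ ^ 2 : ℝ) : ℂ) =
      Q (fun x y => inner ℂ (w x) (w y)) a a := by
  rw [← inner_lc, inner_self_eq_norm_sq_to_K]
  norm_cast

/-- A family of kernels which is invariant under a group acts on the Hilbert space. -/
theorem rep_exists {G : Type u} [Group G] {I : Type} (Λ : G → I → I → ℂ)
    (hΛ : (Matrix.of fun p q : G × I => Λ (p.1⁻¹ * q.1) p.2 q.2).PosSemidef) :
    ∃ (K : Type u) (_ : NormedAddCommGroup K) (_ : InnerProductSpace ℂ K) (_ : CompleteSpace K)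
      (U : G →* (K ≃ₗᵢ[ℂ] K)) (v : I → K), ∀ g i j, inner ℂ (v i) (U g (v j)) = Λ g i j := by
  classical
  obtain ⟨K, i1, i2, i3, w, hw, hd⟩ := gram_exists _ hΛ
  refine ⟨K, i1, i2, i3, ?_⟩
  let e : (G × I →₀ ℂ) →ₗ[ℂ] K := Finsupp.linearCombination ℂ w
  let f : G → (G × I →₀ ℂ) →ₗ[ℂ] K := fun g =>
    Finsupp.linearCombination ℂ (fun p : G × I => w (g * p.1, p.2))
  have hfe : ∀ g a, ‖f g a‖ = ‖e a‖ := by
    intro g a
    have h1 := norm_lc_sq (fun p : G × I => w (g * p.1, p.2)) a
    have h2 := norm_lc_sq w a
    simp only [hw] at h1 h2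
    have h3 : (fun x y : G × I => Λ ((g * x.1)⁻¹ * (g * y.1)) x.2 y.2) =
        fun x y : G × I => Λ (x.1⁻¹ * y.1) x.2 y.2 := by
      funext x y
      congr 1
      group
    rw [h3] at h1
    have h4 := h1.trans h2.symm
    have h5 : ‖f g a‖ ^ 2 = ‖e a‖ ^ 2 := by exact_mod_cast h4
    exact (sq_eq_sq₀ (norm_nonneg _) (norm_nonneg _)).1 h5
  let T : G → K →L[ℂ] K := fun g => (f g).extendOfNorm e
  have hT : ∀ g a, T g (e a) = f g a := fun g a =>
    LinearMap.extendOfNorm_eq hd ⟨1, fun x => by rw [hfe, one_mul]⟩ a
  have hTn : ∀ g x, ‖T g x‖ ≤ ‖x‖ := by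
    intro g x
    have := LinearMap.norm_extendOfNorm_apply_le (f := f g) (e := e) hd 1
      (fun x => by rw [hfe, one_mul]) x
    rwa [one_mul] at this
  have hTw : ∀ g p, T g (w p) = w (g * p.1, p.2) := by
    intro g p
    have h1 := hT g (Finsupp.single p 1)
    simp only [e, f, Finsupp.linearCombination_single, one_smul] at h1
    exact h1
  have hext : ∀ A B : K →L[ℂ] K, (∀ p, A (w p) = B (w p)) → A = B := by
    intro A B h
    refine ContinuousLinearMap.ext fun x => ?_
    refine hd.induction (P := fun x => A x = B x) ?_ (isClosed_eq A.continuous B.continuous) x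
    rintro _ ⟨a, rfl⟩
    rw [Finsupp.linearCombination_apply]
    simp only [map_finsuppSum, map_smul, h]
  have hmul : ∀ g h x, T (g * h) x = T g (T h x) := by
    intro g h x
    have h1 : T (g * h) = (T g).comp (T h) := hext _ _ fun p => by
      rw [ContinuousLinearMap.comp_apply, hTw, hTw, hTw, mul_assoc]
    rw [h1]
    rfl
  have hone : ∀ x, T 1 x = x := by
    intro x
    have h1 : T 1 = ContinuousLinearMap.id ℂ K := hext _ _ fun p => by
      rw [hTw, one_mul]
      rfl
    rw [h1]
    rfl
  let E : G → (K ≃ₗᵢ[ℂ] K) := fun g =>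
    { toFun := T g
      invFun := T g⁻¹
      left_inv := fun x => by rw [← hmul, inv_mul_cancel, hone]
      right_inv := fun x => by rw [← hmul, mul_inv_cancel, hone]
      map_add' := fun x y => map_add _ _ _
      map_smul' := fun c x => by simp
      norm_map' := fun x => by
        refine le_antisymm (hTn g x) ?_
        have h1 := hTn g⁻¹ (T g x)
        rw [← hmul, inv_mul_cancel, hone] at h1
        exact h1 }
  refine ⟨⟨⟨E, ?_⟩, ?_⟩, fun i => w (1, i), fun g i j => ?_⟩
  · ext x
    exact hone x
  · intro g h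
    ext x
    exact hmul g h x
  · show inner ℂ (w (1, i)) (T g (w (1, j))) = _
    rw [hTw, hw]
    simp

end Pool.Agent.ZAR
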