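import Pool.Agent.ZAR.Crit

/-!
# ZAR: operations on matrix models
-/

set_option autoImplicit false
set_option linter.unusedSectionVars false

open scoped ComplexOrder

namespace Pool.Agent.ZAR

universe u

variable {G : Type u} [Group G] {I : Type}

theorem Mdl.conj {Λ : G → I → I → ℂ} (h : Mdl Λ) : Mdl fun g i j => star (Λ g i j) where
  psd := psd_conj h.psd
  one i := by rw [h.one, star_one]
  off i j hij := by rw [h.off i j hij, star_zero]

/-- Products of kernels. -/
theorem psd_prod {X : Type u} {ι : Type*} (s : Finset ι) (k : ι → X → X → ℂ)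
    (h : ∀ i ∈ s, (Matrix.of (k i)).PosSemidef) :
    (Matrix.of fun x y => ∏ i ∈ s, k i x y).PosSemidef := by
  classical
  induction s using Finset.induction_on with
  | empty =>
    simp only [Finset.prod_empty]
    exact psd_gram (fun _ : X => (1 : ℂ)) _ fun _ _ => by simp
  | insert a s ha ih =>
    simp only [Finset.prod_insert ha]
    exact psd_mul (h a (Finset.mem_insert_self a s))
      (ih fun i hi => h i (Finset.mem_insert_of_mem hi))

theorem psd_sum {X : Type u} {ι : Type*} (s : Finset ι) (k : ι → X → X → ℂ)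
    (h : ∀ i ∈ s, (Matrix.of (k i)).PosSemidef) :
    (Matrix.of fun x y => ∑ i ∈ s, k i x y).PosSemidef := by
  classical
  induction s using Finset.induction_on with
  | empty =>
    simp only [Finset.sum_empty]
    exact psd_gram (fun _ : X => (0 : ℂ)) _ fun _ _ => by simp
  | insert a s ha ih =>
    simp only [Finset.sum_insert ha]
    exact Matrix.PosSemidef.add (h a (Finset.mem_insert_self a s))
      (ih fun i hi => h i (Finset.mem_insert_of_mem hi))

theorem psd_sub {X Y : Type u} (k : X → X → ℂ) (h : (Matrix.of k).PosSemidef) (f : Y → X) :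
    (Matrix.of fun x y => k (f x) (f y)).PosSemidef := h.submatrix f

/-! ### Powers -/

theorem Mdl.pow {Λ : G → I → I → ℂ} (h : Mdl Λ) (D : ℕ) :
    Mdl (I := Fin D → I) fun g f f' => ∏ k, Λ g (f k) (f' k) where
  psd := by
    refine psd_prod Finset.univ (fun (k : Fin D) (p q : G × (Fin D → I)) =>
      Λ (p.1⁻¹ * q.1) (p.2 k) (q.2 k)) fun k _ => ?_
    exact psd_sub _ h.psd fun p : G × (Fin D → I) => (p.1, p.2 k)
  one f := Finset.prod_eq_one fun k _ => h.one _
  off f f' hf := by
    obtain ⟨k, hk⟩ := Function.ne_iff.1 hf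
    exact Finset.prod_eq_zero (Finset.mem_univ k) (h.off _ _ hk)

theorem avd_pow [Fintype I] (Λ : G → I → I → ℂ) (D : ℕ) (g : G) :
    avd (I := Fin D → I) (fun g f f' => ∏ k, Λ g (f k) (f' k)) g = avd Λ g ^ D := by
  classical
  unfold avd
  rw [div_pow, Fintype.sum_pow, Fintype.card_fun, Fintype.card_fin]
  push_cast
  rfl

theorem avs_pow [Fintype I] (Λ : G → I → I → ℂ) (D : ℕ) (g : G) :
    avs (I := Fin D → I) (fun g f f' => ∏ k, Λ g (f k) (f' k)) g = avs Λ g ^ D := by
  classical
  unfold avs
  rw [div_pow, Fintype.card_fun, Fintype.card_fin, ← Fintype.sum_prod_type',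
    ← Fintype.sum_prod_type', Fintype.sum_pow]
  push_cast
  congr 1
  rw [← Equiv.sum_comp (Equiv.arrowProdEquivProdArrow (Fin D) (fun _ => I) (fun _ => I))]
  refine Finset.sum_congr rfl fun f _ => ?_
  rw [norm_prod, ← Finset.prod_pow]
  rfl

/-! ### Block sums -/

/-- The block diagonal model. -/
def blk {A : Type} [DecidableEq A] (Λ : A → G → I → I → ℂ) (g : G) (p q : I × A) : ℂ :=
  if p.2 = q.2 then Λ p.2 g p.1 q.1 else 0

theorem Mdl.blk {A : Type} [DecidableEq A] [Fintype A] {Λ : A → G → I → I → ℂ}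
    (h : ∀ a, Mdl (Λ a)) : Mdl (blk Λ) where
  psd := by
    have h1 : (fun p q : G × (I × A) => ZAR.blk Λ (p.1⁻¹ * q.1) p.2 q.2) =
        fun p q : G × (I × A) => ∑ a : A, (((if p.2.2 = a then 1 else 0) : ℂ) *
          (if q.2.2 = a then 1 else 0)) * Λ a (p.1⁻¹ * q.1) p.2.1 q.2.1 := by
      funext p q
      unfold ZAR.blk
      by_cases hpq : p.2.2 = q.2.2
      · rw [if_pos hpq, Finset.sum_eq_single p.2.2]
        · rw [if_pos rfl, if_pos hpq.symm, one_mul, one_mul]
        · intro a _ ha
          rw [if_neg (Ne.symm ha), zero_mul, zero_mul]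
        · intro ha
          exact absurd (Finset.mem_univ _) ha
      · rw [if_neg hpq, Finset.sum_eq_zero]
        intro a _
        by_cases ha : p.2.2 = a
        · rw [if_neg (show ¬ q.2.2 = a from fun h => hpq (ha.trans h.symm)), mul_zero, zero_mul]
        · rw [if_neg ha, zero_mul, zero_mul]
    rw [h1]
    refine psd_sum Finset.univ (fun (a : A) (p q : G × (I × A)) =>
      (((if p.2.2 = a then 1 else 0) : ℂ) * (if q.2.2 = a then 1 else 0)) *
        Λ a (p.1⁻¹ * q.1) p.2.1 q.2.1) fun a _ => psd_mul ?_ ?_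
    · refine psd_gram (fun p : G × (I × A) => ((if p.2.2 = a then 1 else 0) : ℂ)) _ fun p q => ?_
      by_cases hp : p.2.2 = a <;> by_cases hq : q.2.2 = a <;> simp [hp, hq]
    · exact psd_sub _ (h a).psd fun p : G × (I × A) => (p.1, p.2.1)
  one p := by
    unfold ZAR.blk
    rw [if_pos rfl, (h p.2).one]
  off p q hpq := by
    unfold ZAR.blk
    by_cases h2 : p.2 = q.2
    · rw [if_pos h2]
      exact (h p.2).off _ _ fun h1 => hpq (Prod.ext h1 h2)
    · rw [if_neg h2]

theorem avd_blk {A : Type} [DecidableEq A] [Fintype A] [Fintype I] (Λ : A → G → I → I → ℂ)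
    (g : G) : avd (blk Λ) g = (∑ a, avd (Λ a) g) / Fintype.card A := by
  unfold avd
  rw [Fintype.sum_prod_type_right, ← Finset.sum_div, div_div, Fintype.card_prod]
  push_cast
  congr 1
  refine Finset.sum_congr rfl fun a _ => Finset.sum_congr rfl fun i _ => ?_
  unfold blk
  rw [if_pos rfl]

theorem avs_blk {A : Type} [DecidableEq A] [Fintype A] [Fintype I] (Λ : A → G → I → I → ℂ)
    (g : G) : avs (blk Λ) g = (∑ a, avs (Λ a) g) / Fintype.card A := by
  unfold avs
  rw [Fintype.sum_prod_type_right, ← Finset.sum_div, div_div, Fintype.card_prod]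
  push_cast
  congr 1
  refine Finset.sum_congr rfl fun a _ => Finset.sum_congr rfl fun i _ => ?_
  rw [Fintype.sum_prod_type]
  refine Finset.sum_congr rfl fun j _ => ?_
  rw [Finset.sum_eq_single a]
  · unfold blk
    rw [if_pos rfl]
  · intro b _ hb
    unfold blk
    rw [if_neg (Ne.symm hb), norm_zero, zero_pow two_ne_zero]
  · intro ha
    exact absurd (Finset.mem_univ _) ha

/-! ### The trivial model -/

open Classical in
/-- The constant model. -/
noncomputable def cst (I : Type) (_g : G) (i j : I) : ℂ := if i = j then 1 else 0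

theorem Mdl.cst [Fintype I] : Mdl (cst (G := G) I) where
  psd := by
    classical
    refine psd_gram (fun p : G × I => (EuclideanSpace.single p.2 (1 : ℂ))) _ fun p q => ?_
    unfold ZAR.cst
    rw [EuclideanSpace.inner_single_left]
    by_cases h : p.2 = q.2
    · simp [h]
    · simp [h]
  one i := by simp [ZAR.cst]
  off i j hij := by simp [ZAR.cst, hij]

theorem avd_cst [Fintype I] [Nonempty I] (g : G) : avd (cst (G := G) I) g = 1 := by
  unfold avd cst
  simp

theorem avs_cst [Fintype I] [Nonempty I] (g : G) : avs (cst (G := G) I) g = 1 := by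
  classical
  unfold avs cst
  have h1 : ∀ i : I, ∑ j : I, ‖(if i = j then (1 : ℂ) else 0)‖ ^ 2 = 1 := by
    intro i
    rw [Finset.sum_eq_single i]
    · simp
    · intro j _ hj
      rw [if_neg (Ne.symm hj), norm_zero, zero_pow two_ne_zero]
    · intro h
      exact absurd (Finset.mem_univ _) h
  simp [h1]

theorem avd_conj [Fintype I] (Λ : G → I → I → ℂ) (g : G) :
    avd (fun g i j => star (Λ g i j)) g = star (avd Λ g) := by
  unfold avd
  simp

theorem avs_conj [Fintype I] (Λ : G → I → I → ℂ) (g : G) :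
    avs (fun g i j => star (Λ g i j)) g = avs Λ g := by
  unfold avs
  simp only [norm_star]

/-- From a model to the model of degree `D`. -/
theorem model_degree [Fintype I] [Nonempty I] {Λ : G → I → I → ℂ} (h : Mdl Λ) (D : ℕ) :
    ∃ (J : Type) (_ : Fintype J) (_ : Nonempty J) (Λ' : G → J → J → ℂ), Mdl Λ' ∧
      (∀ g, avd Λ' g = ((1 + avd Λ g + star (avd Λ g)) / 3) ^ D) ∧
      ∀ g, avs Λ' g = ((1 + 2 * avs Λ g) / 3) ^ D := by
  let L : Fin 3 → G → I → I → ℂ := ![cst (G := G) I, Λ, fun g i j => star (Λ g i j)]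
  have hL : ∀ a, Mdl (L a) := by
    intro a
    fin_cases a
    · exact Mdl.cst
    · exact h
    · exact h.conj
  refine ⟨Fin D → I × Fin 3, inferInstance, inferInstance,
    fun g f f' => ∏ k, blk L g (f k) (f' k), (Mdl.blk hL).pow D, fun g => ?_, fun g => ?_⟩
  · rw [avd_pow, avd_blk, Fin.sum_univ_three]
    have e : avd (L 0) g + avd (L 1) g + avd (L 2) g = 1 + avd Λ g + star (avd Λ g) := by
      rw [← avd_conj, ← avd_cst (I := I) g]
      rfl
    rw [e]
    simp
  · rw [avs_pow, avs_blk, Fin.sum_univ_three]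
    have e : avs (L 0) g + avs (L 1) g + avs (L 2) g = 1 + 2 * avs Λ g := by
      have h1 : avs (L 0) g = 1 := avs_cst (I := I) g
      have h2 : avs (L 2) g = avs Λ g := avs_conj Λ g
      have h3 : avs (L 1) g = avs Λ g := rfl
      rw [h1, h2, h3]
      ring
    rw [e]
    simp

end Pool.Agent.ZAR
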