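import Pool.Agent.ZAR.Psd
import Pool.Agent.ZAR.Ops

/-!
# ZAR: regular vectors from a square summable coefficient
-/

set_option autoImplicit false

open scoped ComplexOrder ENNReal

namespace Pool.Agent.ZAR

universe u

variable {G : Type u} [Group G] {K : Type u} [NormedAddCommGroup K] [InnerProductSpace ℂ K]

/-- The square summable functions. -/
abbrev L2 (G : Type u) : Type u := lp (fun _ : G => ℂ) 2

/-- The graph of the map from vectors to their coefficients with respect to `ζ`. -/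
noncomputable def Gr (U : G →* (K ≃ₗᵢ[ℂ] K)) (ζ : K) : Submodule ℂ (WithLp 2 (K × L2 G)) where
  carrier := {z | ∀ g, (z.snd : G → ℂ) g = inner ℂ ζ (U g z.fst)}
  zero_mem' := by
    intro g
    rw [WithLp.zero_snd, WithLp.zero_fst, map_zero, inner_zero_right]
    rfl
  add_mem' := by
    intro a b ha hb g
    rw [WithLp.add_snd, WithLp.add_fst, map_add, inner_add_right, ← ha g, ← hb g]
    rfl
  smul_mem' := by
    intro c a ha g
    rw [WithLp.smul_snd, WithLp.smul_fst, map_smul, inner_smul_right, ← ha g]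
    rfl

theorem mem_Gr {U : G →* (K ≃ₗᵢ[ℂ] K)} {ζ : K} {z : WithLp 2 (K × L2 G)} : z ∈ Gr U ζ ↔
    ∀ g, (z.snd : G → ℂ) g = inner ℂ ζ (U g z.fst) := Iff.rfl

theorem isClosed_Gr (U : G →* (K ≃ₗᵢ[ℂ] K)) (ζ : K) :
    IsClosed (Gr U ζ : Set (WithLp 2 (K × L2 G))) := by
  have h1 : (Gr U ζ : Set (WithLp 2 (K × L2 G))) =
      ⋂ g, {z | lp.evalCLM ℂ (fun _ : G => ℂ) 2 g z.snd = inner ℂ ζ (U g z.fst)} := by
    ext z
    rw [Set.mem_iInter]
    rfl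
  rw [h1]
  refine isClosed_iInter fun g => isClosed_eq ?_ ?_
  · exact (lp.evalCLM ℂ (fun _ : G => ℂ) 2 g).continuous.comp (WithLp.continuous_snd 2 K (L2 G))
  · exact (innerSL ℂ ζ).continuous.comp
      ((U g).continuous.comp (WithLp.continuous_fst 2 K (L2 G)))

theorem summable_sq (s : L2 G) : Summable fun g => ‖s g‖ ^ 2 := by
  have h1 := (memℓp_gen_iff (p := 2) (by norm_num)).1 (lp.memℓp s)
  simpa using h1

theorem memℓp_two {f : G → ℂ} (hf : Summable fun g => ‖f g‖ ^ 2) :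
    Memℓp (E := fun _ : G => ℂ) f 2 := by
  refine memℓp_gen ?_
  simpa using hf

/-- Right translation. -/
noncomputable def tr (h : G) (s : L2 G) : L2 G :=
  ⟨fun g => s (g * h), memℓp_two ((Equiv.mulRight h).summable_iff.2 (summable_sq s))⟩

theorem tr_apply (h : G) (s : L2 G) (g : G) : tr h s g = s (g * h) := rfl

theorem tr_inner (h : G) (s s' : L2 G) :
    (inner ℂ (tr h s) s' : ℂ) = inner ℂ s (tr h⁻¹ s') := by
  rw [lp.inner_eq_tsum, lp.inner_eq_tsum,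
    ← (Equiv.mulRight h).tsum_eq (fun g => (inner ℂ (s g) ((tr h⁻¹ s') g) : ℂ))]
  refine tsum_congr fun g => ?_
  rw [tr_apply, tr_apply]
  show (inner ℂ (s (g * h)) (s' g) : ℂ) = inner ℂ (s (g * h)) (s' (g * h * h⁻¹))
  rw [mul_inv_cancel_right]

/-- The action on the sum. -/
noncomputable def act2 (U : G →* (K ≃ₗᵢ[ℂ] K)) (h : G) (z : WithLp 2 (K × L2 G)) :
    WithLp 2 (K × L2 G) := WithLp.toLp 2 (U h z.fst, tr h z.snd)

theorem act2_inner (U : G →* (K ≃ₗᵢ[ℂ] K)) (h : G) (z w : WithLp 2 (K × L2 G)) :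
    (inner ℂ (act2 U h z) w : ℂ) = inner ℂ z (act2 U h⁻¹ w) := by
  rw [WithLp.prod_inner_apply, WithLp.prod_inner_apply]
  show (inner ℂ (U h z.fst) w.fst : ℂ) + inner ℂ (tr h z.snd) w.snd =
    inner ℂ z.fst (U h⁻¹ w.fst) + inner ℂ z.snd (tr h⁻¹ w.snd)
  rw [unit_inner, tr_inner]

theorem act2_mem {U : G →* (K ≃ₗᵢ[ℂ] K)} {ζ : K} {z : WithLp 2 (K × L2 G)} (hz : z ∈ Gr U ζ)
    (h : G) : act2 U h z ∈ Gr U ζ := by
  intro g
  have h1 := hz (g * h)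
  rw [map_mul] at h1
  exact h1

theorem act2_sub (U : G →* (K ≃ₗᵢ[ℂ] K)) (h : G) (z w : WithLp 2 (K × L2 G)) :
    act2 U h (z - w) = act2 U h z - act2 U h w := by
  have h1 : tr h (z - w).snd = tr h z.snd - tr h w.snd := rfl
  unfold act2
  rw [h1, WithLp.sub_fst, map_sub]
  rfl

variable [CompleteSpace K]

/-- The projection on the graph. -/
noncomputable def pg (U : G →* (K ≃ₗᵢ[ℂ] K)) (ζ : K) :
    WithLp 2 (K × L2 G) →L[ℂ] WithLp 2 (K × L2 G) :=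
  have _ : CompleteSpace (Gr U ζ) := (isClosed_Gr U ζ).completeSpace_coe
  (Gr U ζ).starProjection

section

variable (U : G →* (K ≃ₗᵢ[ℂ] K)) (ζ : K)

theorem pg_mem (x : WithLp 2 (K × L2 G)) : pg U ζ x ∈ Gr U ζ := by
  have _ : CompleteSpace (Gr U ζ) := (isClosed_Gr U ζ).completeSpace_coe
  exact Submodule.starProjection_apply_mem _ x

theorem pg_inner (x y : WithLp 2 (K × L2 G)) (hy : y ∈ Gr U ζ) :
    inner ℂ (x - pg U ζ x) y = (0 : ℂ) := by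
  have _ : CompleteSpace (Gr U ζ) := (isClosed_Gr U ζ).completeSpace_coe
  exact Submodule.starProjection_inner_eq_zero x y hy

theorem pg_unique (x y : WithLp 2 (K × L2 G)) (hy : y ∈ Gr U ζ)
    (h : ∀ w ∈ Gr U ζ, inner ℂ (x - y) w = (0 : ℂ)) : pg U ζ x = y := by
  have _ : CompleteSpace (Gr U ζ) := (isClosed_Gr U ζ).completeSpace_coe
  exact Submodule.eq_starProjection_of_mem_of_inner_eq_zero hy h

theorem pg_norm (x : WithLp 2 (K × L2 G)) : ‖pg U ζ x‖ ≤ ‖x‖ := by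
  have _ : CompleteSpace (Gr U ζ) := (isClosed_Gr U ζ).completeSpace_coe
  exact Submodule.norm_starProjection_apply_le _ x

theorem pg_comm (h : G) (x : WithLp 2 (K × L2 G)) :
    pg U ζ (act2 U h x) = act2 U h (pg U ζ x) := by
  refine pg_unique U ζ _ _ (act2_mem (pg_mem U ζ x) h) fun w hw => ?_
  rw [← act2_sub, act2_inner]
  exact pg_inner U ζ x _ (act2_mem hw h⁻¹)

theorem pg_sa (x y : WithLp 2 (K × L2 G)) :
    (inner ℂ (pg U ζ x) y : ℂ) = inner ℂ x (pg U ζ y) := by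
  have h1 := pg_inner U ζ x _ (pg_mem U ζ y)
  have h2 := pg_inner U ζ y _ (pg_mem U ζ x)
  rw [inner_sub_left, sub_eq_zero] at h1 h2
  rw [h1, ← inner_conj_symm, h2, inner_conj_symm]

/-- The corner of the projection. -/
noncomputable def rr (y : K) : K := (pg U ζ (WithLp.toLp 2 (y, 0))).fst

theorem norm_fst_le' (z : WithLp 2 (K × L2 G)) : ‖z.fst‖ ^ 2 + ‖z.snd‖ ^ 2 = ‖z‖ ^ 2 := by
  have h1 : (inner ℂ z z : ℂ) = inner ℂ z.fst z.fst + inner ℂ z.snd z.snd :=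
    WithLp.prod_inner_apply z z
  rw [inner_self_c, inner_self_c, inner_self_c] at h1
  exact_mod_cast h1.symm

theorem norm_emb (y : K) : ‖(WithLp.toLp 2 (y, 0) : WithLp 2 (K × L2 G))‖ = ‖y‖ := by
  have h1 := norm_fst_le' (G := G) (WithLp.toLp 2 (y, 0) : WithLp 2 (K × L2 G))
  have h2 : (WithLp.toLp 2 (y, 0) : WithLp 2 (K × L2 G)).fst = y := rfl
  have h3 : (WithLp.toLp 2 (y, 0) : WithLp 2 (K × L2 G)).snd = 0 := rfl
  rw [h2, h3, norm_zero, zero_pow two_ne_zero, add_zero] at h1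
  exact ((sq_eq_sq₀ (norm_nonneg _) (norm_nonneg _)).1 h1).symm

theorem rr_norm (y : K) : ‖rr U ζ y‖ ≤ ‖y‖ := by
  have h1 := pg_norm U ζ (WithLp.toLp 2 (y, 0))
  rw [norm_emb] at h1
  have h2 := norm_fst_le' (pg U ζ (WithLp.toLp 2 (y, 0)))
  have h3 : ‖rr U ζ y‖ ^ 2 ≤ ‖pg U ζ (WithLp.toLp 2 (y, 0))‖ ^ 2 := by
    rw [← h2]
    exact le_add_of_nonneg_right (sq_nonneg _)
  exact ((sq_le_sq₀ (norm_nonneg _) (norm_nonneg _)).1 h3).trans h1

theorem rr_comm (h : G) (y : K) : rr U ζ (U h y) = U h (rr U ζ y) := by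
  have h1 : (WithLp.toLp 2 (U h y, 0) : WithLp 2 (K × L2 G)) =
      act2 U h (WithLp.toLp 2 (y, 0)) := rfl
  unfold rr
  rw [h1, pg_comm]
  rfl

theorem rr_sa (x y : K) : (inner ℂ (rr U ζ x) y : ℂ) = inner ℂ x (rr U ζ y) := by
  have h1 := pg_sa U ζ (WithLp.toLp 2 (x, 0)) (WithLp.toLp 2 (y, 0))
  rw [WithLp.prod_inner_apply, WithLp.prod_inner_apply] at h1
  have h2 : (inner ℂ (pg U ζ (WithLp.toLp 2 (x, 0))).snd (0 : L2 G) : ℂ) = 0 :=
    inner_zero_right _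
  have h3 : (inner ℂ (0 : L2 G) (pg U ζ (WithLp.toLp 2 (y, 0))).snd : ℂ) = 0 :=
    inner_zero_left _
  have h4 : (inner ℂ (pg U ζ (WithLp.toLp 2 (x, 0))).fst y : ℂ) +
      inner ℂ (pg U ζ (WithLp.toLp 2 (x, 0))).snd (0 : L2 G) =
      inner ℂ x (pg U ζ (WithLp.toLp 2 (y, 0))).fst +
      inner ℂ (0 : L2 G) (pg U ζ (WithLp.toLp 2 (y, 0))).snd := h1
  rw [h2, h3, add_zero, add_zero] at h4
  exact h4

/-- The coefficients of `rr ζ` are square summable, with a uniform bound. -/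
theorem rr_reg (T : Finset G) (y : K) :
    ∑ g ∈ T, ‖(inner ℂ (rr U ζ ζ) (U g y) : ℂ)‖ ^ 2 ≤ ‖y‖ ^ 2 := by
  set s : L2 G := (pg U ζ (WithLp.toLp 2 (y, 0))).snd with hs
  have h1 : ∀ g, (inner ℂ (rr U ζ ζ) (U g y) : ℂ) = s g := by
    intro g
    rw [rr_sa, rr_comm]
    exact (pg_mem U ζ (WithLp.toLp 2 (y, 0)) g).symm
  simp only [h1]
  have h2 : ∑ g ∈ T, ‖s g‖ ^ 2 ≤ ‖s‖ ^ 2 := by
    have h3 : (inner ℂ s s : ℂ) = ∑' g, inner ℂ (s g) (s g) := lp.inner_eq_tsum s s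
    have h4 : ‖s‖ ^ 2 = ∑' g, ‖s g‖ ^ 2 := by
      rw [inner_self_c] at h3
      have h5 : ∀ g, (inner ℂ (s g) (s g) : ℂ) = ((‖s g‖ ^ 2 : ℝ) : ℂ) := fun g =>
        inner_self_c _
      simp only [h5] at h3
      rw [← Complex.ofReal_tsum] at h3
      exact_mod_cast h3
    rw [h4]
    exact (summable_sq s).sum_le_tsum T fun g _ => sq_nonneg _
  have h3 := norm_fst_le' (pg U ζ (WithLp.toLp 2 (y, 0)))
  have h4 := pg_norm U ζ (WithLp.toLp 2 (y, 0))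
  rw [norm_emb] at h4
  have h5 := pow_le_pow_left₀ (norm_nonneg _) h4 2
  rw [← h3, ← hs] at h5
  have h6 := sq_nonneg ‖(pg U ζ (WithLp.toLp 2 (y, 0))).fst‖
  linarith

/-- If `rr ζ = 0`, the square summable coefficient is zero. -/
theorem rr_ne (v : K) (hF : Summable fun g => ‖(inner ℂ ζ (U g v) : ℂ)‖ ^ 2)
    (h0 : rr U ζ ζ = 0) (g : G) : (inner ℂ ζ (U g v) : ℂ) = 0 := by
  set s : L2 G := ⟨fun g => inner ℂ ζ (U g v), memℓp_two hF⟩ with hs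
  have hmem : (WithLp.toLp 2 (v, s) : WithLp 2 (K × L2 G)) ∈ Gr U ζ := fun g => rfl
  have hfix : pg U ζ (WithLp.toLp 2 (v, s)) = WithLp.toLp 2 (v, s) :=
    pg_unique U ζ _ _ hmem fun w _ => by
      rw [sub_self, inner_zero_left]
  have hz : pg U ζ (WithLp.toLp 2 (U g⁻¹ ζ, 0)) = 0 := by
    have h1 : (pg U ζ (WithLp.toLp 2 (U g⁻¹ ζ, 0))).fst = 0 := by
      have h2 : (pg U ζ (WithLp.toLp 2 (U g⁻¹ ζ, 0))).fst = rr U ζ (U g⁻¹ ζ) := rfl
      rw [h2, rr_comm, h0, map_zero]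
    have h2 : (pg U ζ (WithLp.toLp 2 (U g⁻¹ ζ, 0))).snd = 0 := by
      ext k
      rw [pg_mem U ζ (WithLp.toLp 2 (U g⁻¹ ζ, 0)) k, h1, map_zero, inner_zero_right]
      rfl
    have h3 := norm_fst_le' (pg U ζ (WithLp.toLp 2 (U g⁻¹ ζ, 0)))
    rw [h1, h2, norm_zero, norm_zero] at h3
    have h4 : ‖pg U ζ (WithLp.toLp 2 (U g⁻¹ ζ, 0))‖ ^ 2 = 0 := by
      rw [← h3]
      norm_num
    exact norm_eq_zero.1 ((pow_eq_zero_iff two_ne_zero).1 h4)
  have h1 := pg_sa U ζ (WithLp.toLp 2 (U g⁻¹ ζ, 0)) (WithLp.toLp 2 (v, s))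
  rw [hz, hfix, inner_zero_left, WithLp.prod_inner_apply] at h1
  have h2 : (0 : ℂ) = inner ℂ (U g⁻¹ ζ) v + inner ℂ (0 : L2 G) s := h1
  rw [inner_zero_left, add_zero, unit_inner, inv_inv] at h2
  exact h2.symm

/-- The diagonal coefficient of `rr ζ` has a bounded quadratic form. -/
theorem rr_bdd : Bdd (fun g => (inner ℂ (rr U ζ ζ) (U g (rr U ζ ζ)) : ℂ)) 1 := by
  intro T b
  set ξ := rr U ζ ζ with hξ
  have h1 := norm_sum_sq T b (fun g => U g ξ)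
  have h2 : ∀ g h, (inner ℂ (U g ξ) (U h ξ) : ℂ) = inner ℂ ξ (U (g⁻¹ * h) ξ) := by
    intro g h
    rw [unit_inner, map_mul]
    rfl
  simp only [h2] at h1
  rw [← h1, one_mul]
  set y := ∑ g ∈ T, b g • U g ξ with hy
  have h3 : (inner ℂ y y : ℂ) = ∑ g ∈ T, (starRingEnd ℂ) (b g) * inner ℂ ξ (U g⁻¹ y) := by
    conv_lhs => rw [hy, sum_inner]
    refine Finset.sum_congr rfl fun g _ => ?_
    rw [inner_smul_left, unit_inner]
  have h4 : ‖y‖ ^ 2 ≤ ∑ g ∈ T, ‖b g‖ * ‖(inner ℂ ξ (U g⁻¹ y) : ℂ)‖ := by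
    have h5 : ‖(inner ℂ y y : ℂ)‖ = ‖y‖ ^ 2 := by
      rw [inner_self_c, Complex.norm_real, Real.norm_of_nonneg (sq_nonneg _)]
    rw [← h5, h3]
    refine (norm_sum_le _ _).trans (Finset.sum_le_sum fun g _ => ?_)
    rw [norm_mul, RCLike.norm_conj]
  have h5 : (∑ g ∈ T, ‖b g‖ * ‖(inner ℂ ξ (U g⁻¹ y) : ℂ)‖) ^ 2 ≤
      (∑ g ∈ T, ‖b g‖ ^ 2) * ‖y‖ ^ 2 := by
    refine (Finset.sum_mul_sq_le_sq_mul_sq _ _ _).trans ?_
    refine mul_le_mul_of_nonneg_left ?_ (Finset.sum_nonneg fun _ _ => sq_nonneg _)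
    classical
    have h6 := rr_reg U ζ (T.image fun g => g⁻¹) y
    rw [Finset.sum_image (fun a _ c _ hac => inv_injective hac)] at h6
    exact h6
  have h6 : ‖y‖ ^ 2 * ‖y‖ ^ 2 ≤ (∑ g ∈ T, ‖b g‖ ^ 2) * ‖y‖ ^ 2 := by
    calc ‖y‖ ^ 2 * ‖y‖ ^ 2 = (‖y‖ ^ 2) ^ 2 := by ring
      _ ≤ _ := pow_le_pow_left₀ (sq_nonneg _) h4 2
      _ ≤ _ := h5
  rcases (sq_nonneg ‖y‖).eq_or_lt with h7 | h7
  · rw [← h7]
    exact Finset.sum_nonneg fun _ _ => sq_nonneg _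
  · exact le_of_mul_le_mul_right h6 h7

end

end Pool.Agent.ZAR
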