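import Pool.Agent.ZAR.Wot

/-!
# ZAR: the minimal projection of the weak closure
-/

set_option autoImplicit false

open scoped ComplexOrder Topology

namespace Pool.Agent.ZAR

open Pool.Agent.FAP Pool.Agent.JM

universe u

variable {H : Type u} [NormedAddCommGroup H] [InnerProductSpace ℂ H] [CompleteSpace H]

/-- `⟪ξ, x* x ξ⟫ = ‖x ξ‖²`. -/
theorem inner_star_self (x : H →L[ℂ] H) (ξ : H) :
    (inner ℂ ξ ((star x * x) ξ) : ℂ) = ((‖x ξ‖ ^ 2 : ℝ) : ℂ) := by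
  show (inner ℂ ξ (star x (x ξ)) : ℂ) = _
  rw [← inner_star_left', inner_self_c]

section

variable {M : StarSubalgebra ℂ (H →L[ℂ] H)} {Ω : H} (hΩ : TraceVec M Ω)
  {Γ : Subgroup (unitary (H →L[ℂ] H))} (hSM : ∀ x ∈ SS Γ, x ∈ M) {δ : ℝ} (hδ : 0 < δ)
  {C : Finset (H →L[ℂ] H)} (hC1 : 1 ∈ C)
  (hτ : ∀ g : Γ, (∀ c ∈ C, cf Γ Ω c g = 0) ∨ ∃ c ∈ C, δ ≤ ‖cf Γ Ω c g‖)

include hτ

theorem gap {x : H →L[ℂ] H} (hx : x ∈ SS Γ) :
    (∀ c ∈ C, (inner ℂ (star c Ω) (x Ω) : ℂ) = 0) ∨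
      ∃ c ∈ C, δ ≤ ‖(inner ℂ (star c Ω) (x Ω) : ℂ)‖ := by
  refine KK_ind (Γ := Γ) (p := fun f => (∀ c ∈ C, f (star c Ω, Ω) = 0) ∨
    ∃ c ∈ C, δ ≤ ‖f (star c Ω, Ω)‖) ?_ ?_ hx
  · have c1 : IsClosed {f : H × H → ℂ | ∀ c ∈ C, f (star c Ω, Ω) = 0} := by
      simp only [Set.ofPred_forall]
      exact isClosed_iInter fun c => isClosed_iInter fun _ =>
        isClosed_eq (by fun_prop) continuous_const
    have c2 : IsClosed {f : H × H → ℂ | ∃ c ∈ C, δ ≤ ‖f (star c Ω, Ω)‖} := by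
      have e : {f : H × H → ℂ | ∃ c ∈ C, δ ≤ ‖f (star c Ω, Ω)‖} =
          ⋃ c ∈ C, {f : H × H → ℂ | δ ≤ ‖f (star c Ω, Ω)‖} := by
        ext f
        simp
      rw [e]
      exact isClosed_biUnion_finset fun c _ => isClosed_le continuous_const (by fun_prop)
    exact c1.union c2
  · intro g
    rcases hτ g with h | ⟨c, hc, h⟩
    · refine Or.inl fun c hc => ?_
      have h1 := h c hc
      unfold cf at h1
      rw [← h1]
      exact (inner_star_right' c Ω _).symm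
    · refine Or.inr ⟨c, hc, ?_⟩
      have h1 : cf Γ Ω c g = frm ((g : unitary (H →L[ℂ] H)) : H →L[ℂ] H) (star c Ω, Ω) :=
        inner_star_right' c Ω _
      rwa [← h1]

include hΩ hSM hC1 hδ

/-- A lower bound for the norms in the weak closure. -/
theorem exists_gap : ∃ η : ℝ, 0 < η ∧ ∀ x ∈ SS Γ, x ≠ 0 → η ≤ ‖x Ω‖ ^ 2 := by
  obtain ⟨B, hB⟩ : ∃ B : ℝ, B = 1 + ∑ c ∈ C, ‖star c Ω‖ := ⟨_, rfl⟩
  have hB0 : 0 < B := by
    rw [hB]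
    have : 0 ≤ ∑ c ∈ C, ‖star c Ω‖ := Finset.sum_nonneg fun _ _ => norm_nonneg _
    linarith
  refine ⟨(δ / B) ^ 2, by positivity, fun x hx h0 => ?_⟩
  rcases gap hτ (mem_SS_mul (mem_SS_star hx) hx) with h1 | ⟨c, hc, h1⟩
  · have h2 := h1 1 hC1
    rw [star_one] at h2
    have h3 : (inner ℂ Ω ((star x * x) Ω) : ℂ) = 0 := h2
    rw [inner_star_self] at h3
    have h4 : ‖x Ω‖ ^ 2 = 0 := by exact_mod_cast h3
    have h5 : x Ω = 0 := norm_eq_zero.1 ((pow_eq_zero_iff two_ne_zero).1 h4)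
    exact absurd (hΩ.sep x (hSM x hx) h5) h0
  · have h2 : ‖(inner ℂ (star c Ω) ((star x * x) Ω) : ℂ)‖ ≤ ‖star c Ω‖ * ‖(star x * x) Ω‖ :=
      norm_inner_le_norm _ _
    have h3 : ‖(star x * x) Ω‖ ≤ ‖x Ω‖ := SS_norm (mem_SS_star hx) (x Ω)
    have h4 : ‖star c Ω‖ ≤ B := by
      rw [hB]
      have := Finset.single_le_sum (f := fun c : H →L[ℂ] H => ‖star c Ω‖)
        (fun _ _ => norm_nonneg _) hc
      linarith
    have h5 : δ ≤ B * ‖x Ω‖ :=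
      h1.trans (h2.trans (mul_le_mul h4 h3 (norm_nonneg _) hB0.le))
    refine pow_le_pow_left₀ (by positivity) ?_ 2
    rw [div_le_iff₀ hB0]
    linarith

/-- The minimal projection. -/
theorem exists_min : ∃ (p : H →L[ℂ] H) (m : ℝ), p ∈ SS Γ ∧ 0 < m ∧ star p = p ∧ p * p = p ∧
    ‖p Ω‖ ^ 2 = m ∧ ∀ x ∈ SS Γ, x ≠ 0 → m ≤ ‖x Ω‖ ^ 2 := by
  obtain ⟨η, hη, hgap⟩ := exists_gap hΩ hSM hδ hC1 hτ
  obtain ⟨K1, hK1⟩ : ∃ K1 : Set (H × H → ℂ), K1 = KK Γ ∩ ({f | ∀ ξ η : H,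
      ‖f (η, ξ)‖ ^ 2 ≤ ‖η‖ ^ 2 * (f (ξ, ξ)).re} ∩ ({f | ∀ ξ : H, (f (ξ, ξ)).im = 0} ∩
      {f | η ≤ (f (Ω, Ω)).re})) := ⟨_, rfl⟩
  have hcomp : IsCompact K1 := by
    rw [hK1]
    refine isCompact_KK.inter_right (IsClosed.inter ?_ (IsClosed.inter ?_ ?_))
    · simp only [Set.ofPred_forall]
      exact isClosed_iInter fun ξ => isClosed_iInter fun η =>
        isClosed_le (by fun_prop) (by fun_prop)
    · simp only [Set.ofPred_forall]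
      exact isClosed_iInter fun ξ => isClosed_eq (by fun_prop) continuous_const
    · exact isClosed_le continuous_const (by fun_prop)
  have hmemK : ∀ x ∈ SS Γ, x ≠ 0 → frm (star x * x) ∈ K1 := by
    intro x hx h0
    rw [hK1]
    refine ⟨mem_SS_mul (mem_SS_star hx) hx, fun ξ η => ?_, fun ξ => ?_, ?_⟩
    · have h1 : frm (star x * x) (ξ, ξ) = ((‖x ξ‖ ^ 2 : ℝ) : ℂ) := inner_star_self x ξ
      have h2 : frm (star x * x) (η, ξ) = inner ℂ (x η) (x ξ) :=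
        (inner_star_left' x η (x ξ)).symm
      rw [h1, h2, Complex.ofReal_re, ← mul_pow]
      refine pow_le_pow_left₀ (norm_nonneg _) ?_ 2
      exact le_trans (norm_inner_le_norm _ _)
        (mul_le_mul_of_nonneg_right (SS_norm hx η) (norm_nonneg _))
    · have h1 : frm (star x * x) (ξ, ξ) = ((‖x ξ‖ ^ 2 : ℝ) : ℂ) := inner_star_self x ξ
      rw [h1, Complex.ofReal_im]
    · show η ≤ (frm (star x * x) (Ω, Ω)).re
      have h1 : frm (star x * x) (Ω, Ω) = ((‖x Ω‖ ^ 2 : ℝ) : ℂ) := inner_star_self x Ω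
      rw [h1, Complex.ofReal_re]
      exact hgap x hx h0
  have hone : (1 : H →L[ℂ] H) ≠ 0 := by
    intro h
    have h2 : ‖(1 : H →L[ℂ] H) Ω‖ = ‖(0 : H →L[ℂ] H) Ω‖ := by rw [h]
    have h3 : ‖(1 : H →L[ℂ] H) Ω‖ = 1 := hΩ.norm_one
    rw [h3] at h2
    simp at h2
  obtain ⟨f, hf, hmin⟩ := hcomp.exists_isMinOn ⟨_, hmemK 1 mem_SS_one hone⟩
    (f := fun f : H × H → ℂ => (f (Ω, Ω)).re) (by fun_prop)
  have hf' := hf
  rw [hK1] at hf'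
  obtain ⟨hfK, hf1, hf2, hf3⟩ := hf'
  obtain ⟨p, rfl⟩ := exists_frm hfK
  obtain ⟨m, hm⟩ : ∃ m : ℝ, m = (frm p (Ω, Ω)).re := ⟨_, rfl⟩
  have hm0 : 0 < m := by
    rw [hm]
    exact lt_of_lt_of_le hη hf3
  have hpS : p ∈ SS Γ := hfK
  have hlow : ∀ x ∈ SS Γ, x ≠ 0 → m ≤ ‖x Ω‖ ^ 2 := by
    intro x hx h0
    have h1 := hmin (hmemK x hx h0)
    have h2 : (frm (star x * x) (Ω, Ω)).re = ‖x Ω‖ ^ 2 := by
      have h3 : frm (star x * x) (Ω, Ω) = ((‖x Ω‖ ^ 2 : ℝ) : ℂ) := inner_star_self x Ω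
      rw [h3, Complex.ofReal_re]
    simp only [Set.mem_ofPred_eq] at h1
    rw [h2, ← hm] at h1
    exact h1
  have hsa : star p = p := by
    have h1 : (p : H →ₗ[ℂ] H).IsSymmetric := by
      rw [LinearMap.isSymmetric_iff_inner_map_self_real]
      intro v
      have h2 : (inner ℂ v (p v) : ℂ).im = 0 := hf2 v
      have h3 : (inner ℂ v (p v) : ℂ) = (starRingEnd ℂ) (inner ℂ v (p v)) := by
        apply Complex.ext
        · rw [Complex.conj_re]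
        · rw [Complex.conj_im, h2, neg_zero]
      have h4 : (inner ℂ (p v) v : ℂ) = inner ℂ v (p v) := by
        rw [← inner_conj_symm, ← h3]
      show (starRingEnd ℂ) (inner ℂ (p v) v : ℂ) = inner ℂ (p v) v
      rw [h4, ← h3]
    exact (ContinuousLinearMap.isSelfAdjoint_iff_isSymmetric.2 h1)
  have hpos : ∀ ξ, ‖p ξ‖ ^ 2 ≤ (inner ℂ ξ (p ξ) : ℂ).re := by
    intro ξ
    have h1 := hf1 ξ (p ξ)
    have h2 : frm p (p ξ, ξ) = ((‖p ξ‖ ^ 2 : ℝ) : ℂ) := inner_self_c (p ξ)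
    rw [h2, Complex.norm_real, Real.norm_of_nonneg (sq_nonneg _)] at h1
    have h3 : (frm p (ξ, ξ)).re = (inner ℂ ξ (p ξ) : ℂ).re := rfl
    rw [h3, sq (‖p ξ‖ ^ 2)] at h1
    by_cases h4 : ‖p ξ‖ ^ 2 = 0
    · have h5 : p ξ = 0 := norm_eq_zero.1 ((pow_eq_zero_iff two_ne_zero).1 h4)
      rw [h5]
      simp
    · exact le_of_mul_le_mul_left h1 (lt_of_le_of_ne (sq_nonneg _) (Ne.symm h4))
  have hp0 : p ≠ 0 := by
    rintro rfl
    have h1 : (frm (0 : H →L[ℂ] H) (Ω, Ω)) = 0 := by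
      show inner ℂ Ω ((0 : H →L[ℂ] H) Ω) = (0 : ℂ)
      simp
    rw [h1] at hm
    rw [hm] at hm0
    simp at hm0
  have e1 : ‖p Ω‖ ^ 2 = m := by
    refine le_antisymm ?_ (hlow p hpS hp0)
    rw [hm]
    exact hpos Ω
  have hpp : p * p ∈ SS Γ := mem_SS_mul hpS hpS
  have hτp : (inner ℂ Ω ((p * p) Ω) : ℂ) = ((‖p Ω‖ ^ 2 : ℝ) : ℂ) := by
    have h1 := inner_star_self p Ω
    rwa [hsa] at h1
  have hpp0 : p * p ≠ 0 := by
    intro h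
    rw [h, e1] at hτp
    have h1 : (inner ℂ Ω ((0 : H →L[ℂ] H) Ω) : ℂ) = 0 := by simp
    rw [h1] at hτp
    have h2 : m = 0 := by exact_mod_cast hτp.symm
    linarith
  have e2 := hlow _ hpp hpp0
  have e3 : ‖(p * p) Ω‖ ^ 2 ≤ (inner ℂ (p Ω) ((p * p) Ω) : ℂ).re := hpos (p Ω)
  have e4 : ‖(p * p) Ω‖ ≤ ‖p Ω‖ := SS_norm hpS (p Ω)
  have e5 : ‖(p * p) Ω‖ ^ 2 ≤ m := by
    rw [← e1]
    exact pow_le_pow_left₀ (norm_nonneg _) e4 2
  have e6 : ‖p Ω - (p * p) Ω‖ ^ 2 ≤ 0 := by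
    have h1 := norm_sub_sq (𝕜 := ℂ) (p Ω) ((p * p) Ω)
    have h2 : RCLike.re (inner ℂ (p Ω) ((p * p) Ω) : ℂ) =
      (inner ℂ (p Ω) ((p * p) Ω) : ℂ).re := rfl
    rw [h2] at h1
    linarith
  have e7 : (p - p * p) Ω = 0 := by
    have h1 : ‖p Ω - (p * p) Ω‖ ^ 2 = 0 := le_antisymm e6 (sq_nonneg _)
    exact norm_eq_zero.1 ((pow_eq_zero_iff two_ne_zero).1 h1)
  have e8 := hΩ.sep _ (sub_mem (hSM p hpS) (hSM _ hpp)) e7
  exact ⟨p, m, hpS, hm0, hsa, (sub_eq_zero.1 e8).symm, e1, hlow⟩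

end

end Pool.Agent.ZAR
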