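import Pool.Agent.ZAR.Reg

/-!
# ZAR: the regular part of a unitary representation
-/

set_option autoImplicit false

open scoped ComplexOrder

namespace Pool.Agent.ZAR

universe u

variable {G : Type u} [Group G] {K : Type*} [NormedAddCommGroup K] [InnerProductSpace ℂ K]

/-- The vectors with square summable coefficients. -/
def regSub (U : G →* (K ≃ₗᵢ[ℂ] K)) : Submodule ℂ K where
  carrier := {ξ | ∀ ζ : K, ∃ N : ℝ, ∀ T : Finset G, ∑ g ∈ T, ‖(inner ℂ (U g ξ) ζ : ℂ)‖ ^ 2 ≤ N}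
  zero_mem' := fun ζ => ⟨0, fun T => by simp⟩
  add_mem' := by
    intro a b ha hb ζ
    obtain ⟨N, hN⟩ := ha ζ
    obtain ⟨N', hN'⟩ := hb ζ
    refine ⟨2 * N + 2 * N', fun T => ?_⟩
    calc ∑ g ∈ T, ‖(inner ℂ (U g (a + b)) ζ : ℂ)‖ ^ 2
        ≤ ∑ g ∈ T, (2 * ‖(inner ℂ (U g a) ζ : ℂ)‖ ^ 2 + 2 * ‖(inner ℂ (U g b) ζ : ℂ)‖ ^ 2) := by
          refine Finset.sum_le_sum fun g _ => ?_
          rw [map_add, inner_add_left]
          have h1 := norm_add_le (inner ℂ (U g a) ζ : ℂ) (inner ℂ (U g b) ζ)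
          have h2 := pow_le_pow_left₀ (norm_nonneg _) h1 2
          nlinarith [sq_nonneg (‖(inner ℂ (U g a) ζ : ℂ)‖ - ‖(inner ℂ (U g b) ζ : ℂ)‖)]
      _ = 2 * ∑ g ∈ T, ‖(inner ℂ (U g a) ζ : ℂ)‖ ^ 2 +
          2 * ∑ g ∈ T, ‖(inner ℂ (U g b) ζ : ℂ)‖ ^ 2 := by
          rw [Finset.sum_add_distrib, Finset.mul_sum, Finset.mul_sum]
      _ ≤ 2 * N + 2 * N' := by linarith [hN T, hN' T]
  smul_mem' := by
    intro c a ha ζ
    obtain ⟨N, hN⟩ := ha ζ
    refine ⟨‖c‖ ^ 2 * N, fun T => ?_⟩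
    have h1 : ∀ g ∈ T, ‖(inner ℂ (U g (c • a)) ζ : ℂ)‖ ^ 2 =
        ‖c‖ ^ 2 * ‖(inner ℂ (U g a) ζ : ℂ)‖ ^ 2 := by
      intro g _
      rw [map_smul, inner_smul_left, norm_mul, mul_pow, RCLike.norm_conj]
    rw [Finset.sum_congr rfl h1, ← Finset.mul_sum]
    exact mul_le_mul_of_nonneg_left (hN T) (sq_nonneg _)

theorem mem_regSub {U : G →* (K ≃ₗᵢ[ℂ] K)} {ξ : K} : ξ ∈ regSub U ↔
    ∀ ζ : K, ∃ N : ℝ, ∀ T : Finset G, ∑ g ∈ T, ‖(inner ℂ (U g ξ) ζ : ℂ)‖ ^ 2 ≤ N := Iff.rfl

theorem regSub_inv {U : G →* (K ≃ₗᵢ[ℂ] K)} {ξ : K} (hξ : ξ ∈ regSub U) (h : G) :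
    U h ξ ∈ regSub U := by
  classical
  intro ζ
  obtain ⟨N, hN⟩ := hξ ζ
  refine ⟨N, fun T => ?_⟩
  have h1 := hN (T.image fun g => g * h)
  rw [Finset.sum_image (fun a _ b _ hab => mul_right_cancel hab)] at h1
  refine le_trans (le_of_eq ?_) h1
  refine Finset.sum_congr rfl fun g _ => ?_
  rw [map_mul]
  rfl

variable [CompleteSpace K]

/-- The projection on the closed span of the vectors with square summable coefficients. -/
noncomputable def zz (U : G →* (K ≃ₗᵢ[ℂ] K)) : K →L[ℂ] K :=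
  have _ : CompleteSpace (regSub U).topologicalClosure :=
    (Submodule.isClosed_topologicalClosure _).completeSpace_coe
  (regSub U).topologicalClosure.starProjection

variable (U : G →* (K ≃ₗᵢ[ℂ] K))

theorem zz_mem (x : K) : zz U x ∈ (regSub U).topologicalClosure := by
  have _ : CompleteSpace (regSub U).topologicalClosure :=
    (Submodule.isClosed_topologicalClosure _).completeSpace_coe
  exact Submodule.starProjection_apply_mem _ x

theorem zz_inner (x y : K) (hy : y ∈ (regSub U).topologicalClosure) :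
    inner ℂ (x - zz U x) y = (0 : ℂ) := by
  have _ : CompleteSpace (regSub U).topologicalClosure :=
    (Submodule.isClosed_topologicalClosure _).completeSpace_coe
  exact Submodule.starProjection_inner_eq_zero x y hy

theorem zz_unique (x y : K) (hy : y ∈ (regSub U).topologicalClosure)
    (h : ∀ w ∈ (regSub U).topologicalClosure, inner ℂ (x - y) w = (0 : ℂ)) : zz U x = y := by
  have _ : CompleteSpace (regSub U).topologicalClosure :=
    (Submodule.isClosed_topologicalClosure _).completeSpace_coe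
  exact Submodule.eq_starProjection_of_mem_of_inner_eq_zero hy h

theorem zz_norm (x : K) : ‖zz U x‖ ≤ ‖x‖ := by
  have _ : CompleteSpace (regSub U).topologicalClosure :=
    (Submodule.isClosed_topologicalClosure _).completeSpace_coe
  exact Submodule.norm_starProjection_apply_le _ x

omit [CompleteSpace K] in
theorem closure_inv (h : G) {ξ : K} (hξ : ξ ∈ (regSub U).topologicalClosure) :
    U h ξ ∈ (regSub U).topologicalClosure :=
  map_mem_closure (U h).continuous (s := (regSub U : Set K)) (t := (regSub U : Set K)) hξ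
    fun _ hy => regSub_inv hy h

theorem zz_comm (g : G) (x : K) : zz U (U g x) = U g (zz U x) := by
  refine zz_unique U _ _ (closure_inv U g (zz_mem U x)) fun w hw => ?_
  rw [← map_sub, unit_inner]
  exact zz_inner U x _ (closure_inv U g⁻¹ hw)

/-- The projection is self-adjoint and idempotent. -/
theorem zz_sa (x y : K) : inner ℂ (zz U x) (zz U y) = (inner ℂ x (zz U y) : ℂ) := by
  have h := zz_inner U x _ (zz_mem U y)
  rw [inner_sub_left, sub_eq_zero] at h
  exact h.symm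

end Pool.Agent.ZAR
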