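import Pool.Agent.ZAR.Psd
import Pool.Agent.ZAR.Proj

/-!
# ZAR: square summable positive definite functions from an orthonormal family
-/

set_option autoImplicit false

open scoped ComplexOrder

namespace Pool.Agent.ZAR

universe u

variable {G : Type u} [Group G] {K : Type*} [NormedAddCommGroup K] [InnerProductSpace ℂ K]

/-- The function built from two families of vectors. -/
noncomputable def ff (U : G →* (K ≃ₗᵢ[ℂ] K)) {I : Type} [Fintype I] (v y : I → K) (g : G) : ℂ :=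
  (∑ i, ∑ j, star (inner ℂ (v i) (U g (v j))) * inner ℂ (y i) (U g (y j))) / Fintype.card I

theorem ff_pd (U : G →* (K ≃ₗᵢ[ℂ] K)) {I : Type} [Fintype I] (v y : I → K) :
    PD (ff U v y) := by
  have h1 : (Matrix.of fun p q : G × I => (inner ℂ (U p.1 (v p.2)) (U q.1 (v q.2)) : ℂ)).PosSemidef
    := psd_gram (fun p : G × I => U p.1 (v p.2)) _ fun _ _ => rfl
  have h2 : (Matrix.of fun p q : G × I => (inner ℂ (U p.1 (y p.2)) (U q.1 (y q.2)) : ℂ)).PosSemidef
    := psd_gram (fun p : G × I => U p.1 (y p.2)) _ fun _ _ => rfl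
  have h3 := psd_block _ (psd_mul (psd_conj h1) h2)
  have h4 : PD fun g : G => ∑ i, ∑ j,
      star (inner ℂ (v i) (U g (v j)) : ℂ) * inner ℂ (y i) (U g (y j)) := by
    have h5 : (fun x y' : G => ∑ i, ∑ j, star (inner ℂ (v i) (U (x⁻¹ * y') (v j)) : ℂ) *
        inner ℂ (y i) (U (x⁻¹ * y') (y j))) = fun x y' : G => ∑ i, ∑ j,
        star (inner ℂ (U x (v i)) (U y' (v j)) : ℂ) * inner ℂ (U x (y i)) (U y' (y j)) := by
      funext a b
      refine Finset.sum_congr rfl fun i _ => Finset.sum_congr rfl fun j _ => ?_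
      rw [unit_inner U a, unit_inner U a, map_mul]
      rfl
    unfold PD
    rw [h5]
    exact h3
  have h5 := h4.smul (c := (Fintype.card I : ℝ)⁻¹) (by positivity)
  have h6 : ff U v y = fun g : G => (((Fintype.card I : ℝ)⁻¹ : ℝ) : ℂ) * ∑ i, ∑ j,
      star (inner ℂ (v i) (U g (v j)) : ℂ) * inner ℂ (y i) (U g (y j)) := by
    funext g
    unfold ff
    push_cast
    rw [div_eq_mul_inv, mul_comm]
  rw [h6]
  exact h5

theorem ff_sub_le (U : G →* (K ≃ₗᵢ[ℂ] K)) {I : Type} [Fintype I] [Nonempty I] (v y y' : I → K)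
    (hv : ∀ i, ‖v i‖ ≤ 1) (hy : ∀ i, ‖y i‖ ≤ 1) {δ : ℝ} (hδ1 : δ ≤ 1)
    (h : ∀ i, ‖y' i - y i‖ ≤ δ) (g : G) :
    ‖ff U v y' g - ff U v y g‖ ≤ 3 * Fintype.card I * δ := by
  have hδ : 0 ≤ δ := (norm_nonneg _).trans (h (Classical.arbitrary I))
  have hn : (0 : ℝ) < Fintype.card I := by exact_mod_cast Fintype.card_pos
  have hterm : ∀ i j, ‖star (inner ℂ (v i) (U g (v j)) : ℂ) * inner ℂ (y' i) (U g (y' j)) -
      star (inner ℂ (v i) (U g (v j)) : ℂ) * inner ℂ (y i) (U g (y j))‖ ≤ 3 * δ := by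
    intro i j
    have e : (inner ℂ (y' i) (U g (y' j)) : ℂ) - inner ℂ (y i) (U g (y j)) =
        inner ℂ (y' i - y i) (U g (y' j)) + inner ℂ (y i) (U g (y' j - y j)) := by
      rw [inner_sub_left, map_sub, inner_sub_right]
      ring
    rw [← mul_sub, norm_mul, e]
    have h1 : ‖star (inner ℂ (v i) (U g (v j)) : ℂ)‖ ≤ 1 := by
      rw [norm_star]
      refine (norm_inner_le_norm _ _).trans ?_
      rw [LinearIsometryEquiv.norm_map]
      exact mul_le_one₀ (hv i) (norm_nonneg _) (hv j)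
    have h2 : ‖(inner ℂ (y' i - y i) (U g (y' j)) : ℂ)‖ ≤ δ * (1 + δ) := by
      refine (norm_inner_le_norm _ _).trans ?_
      rw [LinearIsometryEquiv.norm_map]
      refine mul_le_mul (h i) ?_ (norm_nonneg _) hδ
      have h3 : y' j = y j + (y' j - y j) := by abel
      rw [h3]
      exact (norm_add_le _ _).trans (add_le_add (hy j) (h j))
    have h3 : ‖(inner ℂ (y i) (U g (y' j - y j)) : ℂ)‖ ≤ 1 * δ := by
      refine (norm_inner_le_norm _ _).trans ?_
      rw [LinearIsometryEquiv.norm_map]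
      exact mul_le_mul (hy i) (h j) (norm_nonneg _) zero_le_one
    have h4 := norm_add_le (inner ℂ (y' i - y i) (U g (y' j)) : ℂ)
      (inner ℂ (y i) (U g (y' j - y j)))
    calc ‖star (inner ℂ (v i) (U g (v j)) : ℂ)‖ * _ ≤ 1 * (δ * (1 + δ) + 1 * δ) := by
          refine mul_le_mul h1 (h4.trans (add_le_add h2 h3)) (norm_nonneg _) zero_le_one
      _ ≤ 3 * δ := by nlinarith
  unfold ff
  rw [← sub_div, norm_div, ← Finset.sum_sub_distrib]
  have h5 : ‖∑ i : I, ((∑ j, star (inner ℂ (v i) (U g (v j)) : ℂ) * inner ℂ (y' i) (U g (y' j))) -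
      ∑ j, star (inner ℂ (v i) (U g (v j)) : ℂ) * inner ℂ (y i) (U g (y j)))‖ ≤
      Fintype.card I * (Fintype.card I * (3 * δ)) := by
    calc _ ≤ ∑ i : I, ‖((∑ j, star (inner ℂ (v i) (U g (v j)) : ℂ) *
          inner ℂ (y' i) (U g (y' j))) -
          ∑ j, star (inner ℂ (v i) (U g (v j)) : ℂ) * inner ℂ (y i) (U g (y j)))‖ :=
          norm_sum_le _ _
      _ ≤ ∑ _i : I, (Fintype.card I * (3 * δ)) := by
          refine Finset.sum_le_sum fun i _ => ?_
          rw [← Finset.sum_sub_distrib]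
          calc _ ≤ ∑ j : I, ‖star (inner ℂ (v i) (U g (v j)) : ℂ) *
                inner ℂ (y' i) (U g (y' j)) -
                star (inner ℂ (v i) (U g (v j)) : ℂ) * inner ℂ (y i) (U g (y j))‖ :=
                norm_sum_le _ _
            _ ≤ ∑ _j : I, 3 * δ := Finset.sum_le_sum fun j _ => hterm i j
            _ = Fintype.card I * (3 * δ) := by simp
      _ = Fintype.card I * (Fintype.card I * (3 * δ)) := by simp
  have h6 : ‖(Fintype.card I : ℂ)‖ = Fintype.card I := by simp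
  rw [h6, div_le_iff₀ hn]
  refine h5.trans (le_of_eq ?_)
  ring

theorem ff_l2 (U : G →* (K ≃ₗᵢ[ℂ] K)) {I : Type} [Fintype I] [Nonempty I] (v y : I → K)
    (hv : ∀ i, ‖v i‖ ≤ 1) (hy : ∀ i, y i ∈ regSub U) :
    ∃ N : ℝ, ∀ T : Finset G, ∑ g ∈ T, ‖ff U v y g‖ ^ 2 ≤ N := by
  choose N hN using fun p : I × I => hy p.2 (y p.1)
  refine ⟨∑ p, N p, fun T => ?_⟩
  have hn : (0 : ℝ) < Fintype.card I := by exact_mod_cast Fintype.card_pos
  have h1 : ∀ g, ‖ff U v y g‖ ^ 2 ≤ ∑ p : I × I, ‖(inner ℂ (U g (y p.2)) (y p.1) : ℂ)‖ ^ 2 := by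
    intro g
    have h2 : ‖ff U v y g‖ ≤ (∑ p : I × I, ‖(inner ℂ (U g (y p.2)) (y p.1) : ℂ)‖) /
        Fintype.card I := by
      unfold ff
      rw [norm_div, ← Fintype.sum_prod_type']
      have h6 : ‖(Fintype.card I : ℂ)‖ = Fintype.card I := by simp
      rw [h6]
      refine div_le_div_of_nonneg_right ?_ hn.le
      refine (norm_sum_le _ _).trans (Finset.sum_le_sum fun p _ => ?_)
      rw [norm_mul, norm_star]
      have h3 : ‖(inner ℂ (v p.1) (U g (v p.2)) : ℂ)‖ ≤ 1 := by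
        refine (norm_inner_le_norm _ _).trans ?_
        rw [LinearIsometryEquiv.norm_map]
        exact mul_le_one₀ (hv _) (norm_nonneg _) (hv _)
      have h4 : ‖(inner ℂ (y p.1) (U g (y p.2)) : ℂ)‖ = ‖(inner ℂ (U g (y p.2)) (y p.1) : ℂ)‖ :=
        norm_inner_symm _ _
      rw [h4]
      exact mul_le_of_le_one_left (norm_nonneg _) h3
    have h3 := sq_sum_le_card_mul_sum_sq (s := (Finset.univ : Finset (I × I)))
      (f := fun p => ‖(inner ℂ (U g (y p.2)) (y p.1) : ℂ)‖)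
    rw [Finset.card_univ, Fintype.card_prod] at h3
    push_cast at h3
    calc ‖ff U v y g‖ ^ 2 ≤ ((∑ p : I × I, ‖(inner ℂ (U g (y p.2)) (y p.1) : ℂ)‖) /
          Fintype.card I) ^ 2 := pow_le_pow_left₀ (norm_nonneg _) h2 2
      _ ≤ _ := by
          rw [div_pow, div_le_iff₀ (by positivity)]
          refine h3.trans (le_of_eq ?_)
          ring
  calc ∑ g ∈ T, ‖ff U v y g‖ ^ 2
      ≤ ∑ g ∈ T, ∑ p : I × I, ‖(inner ℂ (U g (y p.2)) (y p.1) : ℂ)‖ ^ 2 :=
        Finset.sum_le_sum fun g _ => h1 g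
    _ = ∑ p : I × I, ∑ g ∈ T, ‖(inner ℂ (U g (y p.2)) (y p.1) : ℂ)‖ ^ 2 := Finset.sum_comm
    _ ≤ ∑ p, N p := Finset.sum_le_sum fun p _ => hN p T

end Pool.Agent.ZAR
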