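import Pool.Agent.ZAR.Model

/-!
# ZAR: almost invariance of the regular part
-/

set_option autoImplicit false

open scoped ComplexOrder

namespace Pool.Agent.ZAR

universe u

variable {G : Type u} [Group G] {K : Type*} [NormedAddCommGroup K] [InnerProductSpace ℂ K]
  [CompleteSpace K]

omit [CompleteSpace K] in
theorem inner_self_c (x : K) : (inner ℂ x x : ℂ) = ((‖x‖ ^ 2 : ℝ) : ℂ) := by
  rw [inner_self_eq_norm_sq_to_K]
  norm_cast

omit [CompleteSpace K] in
theorem ff_one (U : G →* (K ≃ₗᵢ[ℂ] K)) {I : Type} [Fintype I] [DecidableEq I] (v y : I → K)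
    (hv : ∀ i j, inner ℂ (v i) (v j) = if i = j then (1 : ℂ) else 0) :
    ff U v y 1 = ((∑ i, ‖y i‖ ^ 2) / Fintype.card I : ℝ) := by
  unfold ff
  push_cast
  congr 1
  refine Finset.sum_congr rfl fun i _ => ?_
  rw [Finset.sum_eq_single i]
  · rw [map_one]
    show star (inner ℂ (v i) (v i)) * (inner ℂ (y i) (y i) : ℂ) = _
    rw [hv, if_pos rfl, star_one, one_mul, inner_self_eq_norm_sq_to_K]
    norm_cast
  · intro j _ hj
    rw [map_one]
    show star (inner ℂ (v i) (v j)) * (inner ℂ (y i) (y j) : ℂ) = _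
    rw [hv, if_neg (Ne.symm hj), star_zero, zero_mul]
  · intro h
    exact absurd (Finset.mem_univ i) h

/-- The coefficients of the vectors `U g (v j)` with respect to the family. -/
noncomputable def sqs (U : G →* (K ≃ₗᵢ[ℂ] K)) {I : Type} [Fintype I] (v : I → K) (g : G) : ℝ :=
  (∑ i, ∑ j, ‖(inner ℂ (v i) (U g (v j)) : ℂ)‖ ^ 2) / Fintype.card I

theorem ff_zz (U : G →* (K ≃ₗᵢ[ℂ] K)) {I : Type} [Fintype I] [DecidableEq I] [Nonempty I]
    (v : I → K) (hv : ∀ i j, inner ℂ (v i) (v j) = if i = j then (1 : ℂ) else 0) (g : G) :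
    ‖ff U v (fun i => zz U (v i)) 1 - ff U v (fun i => zz U (v i)) g‖ ≤ √(1 - sqs U v g) := by
  have hn : (0 : ℝ) < Fintype.card I := by exact_mod_cast Fintype.card_pos
  have hv1 : ∀ i, ‖v i‖ = 1 := by
    intro i
    have h1 := hv i i
    rw [if_pos rfl, inner_self_c] at h1
    have h2 : ‖v i‖ ^ 2 = 1 := by exact_mod_cast h1
    nlinarith [norm_nonneg (v i)]
  -- the part outside the span
  set r : I → K := fun j => U g (v j) - ∑ i, (inner ℂ (v i) (U g (v j)) : ℂ) • v i with hr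
  have hrn : ∀ j, ‖r j‖ ^ 2 = 1 - ∑ i, ‖(inner ℂ (v i) (U g (v j)) : ℂ)‖ ^ 2 := by
    intro j
    have h1 : (inner ℂ (r j) (r j) : ℂ) =
        1 - ∑ i, ((‖(inner ℂ (v i) (U g (v j)) : ℂ)‖ ^ 2 : ℝ) : ℂ) := by
      set x := U g (v j) with hx
      set p := ∑ i, (inner ℂ (v i) x : ℂ) • v i with hp
      have hvp : ∀ i, (inner ℂ (v i) p : ℂ) = inner ℂ (v i) x := by
        intro i
        rw [hp, inner_sum, Finset.sum_eq_single i]
        · rw [inner_smul_right, hv, if_pos rfl, mul_one]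
        · intro k _ hk
          rw [inner_smul_right, hv, if_neg (Ne.symm hk), mul_zero]
        · intro h
          exact absurd (Finset.mem_univ i) h
      have hpx : ∀ z : K, (inner ℂ p z : ℂ) = ∑ i, star (inner ℂ (v i) x : ℂ) * inner ℂ (v i) z := by
        intro z
        rw [hp, sum_inner]
        refine Finset.sum_congr rfl fun i _ => ?_
        rw [inner_smul_left]
        rfl
      have h2 : (inner ℂ p p : ℂ) = inner ℂ p x := by
        rw [hpx, hpx]
        exact Finset.sum_congr rfl fun i _ => by rw [hvp]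
      have h3 : (inner ℂ p x : ℂ) = ∑ i, ((‖(inner ℂ (v i) x : ℂ)‖ ^ 2 : ℝ) : ℂ) := by
        rw [hpx]
        refine Finset.sum_congr rfl fun i _ => ?_
        rw [← Complex.normSq_eq_norm_sq, ← Complex.mul_conj, mul_comm]
        rfl
      have h4 : (inner ℂ x p : ℂ) = ∑ i, ((‖(inner ℂ (v i) x : ℂ)‖ ^ 2 : ℝ) : ℂ) := by
        rw [← inner_conj_symm, h3, map_sum]
        exact Finset.sum_congr rfl fun i _ => Complex.conj_ofReal _
      have h5 : (inner ℂ x x : ℂ) = 1 := by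
        rw [hx, LinearIsometryEquiv.inner_map_map, hv, if_pos rfl]
      rw [hr]
      show (inner ℂ (x - p) (x - p) : ℂ) = _
      rw [inner_sub_left, inner_sub_right, inner_sub_right, h2, h3, h4, h5]
      ring
    rw [inner_self_c] at h1
    exact_mod_cast h1
  -- the difference as a sum
  have hdiff : ff U v (fun i => zz U (v i)) 1 - ff U v (fun i => zz U (v i)) g =
      (∑ j, (inner ℂ (zz U (r j)) (U g (zz U (v j))) : ℂ)) / Fintype.card I := by
    have h1 : ff U v (fun i => zz U (v i)) 1 =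
        (∑ j, (inner ℂ (zz U (U g (v j))) (U g (zz U (v j))) : ℂ)) / Fintype.card I := by
      rw [ff_one U v _ hv]
      push_cast
      congr 1
      refine Finset.sum_congr rfl fun j _ => ?_
      rw [zz_comm, LinearIsometryEquiv.inner_map_map, inner_self_eq_norm_sq_to_K]
      norm_cast
    have h2 : ff U v (fun i => zz U (v i)) g =
        (∑ j, (inner ℂ (zz U (∑ i, (inner ℂ (v i) (U g (v j)) : ℂ) • v i))
          (U g (zz U (v j))) : ℂ)) / Fintype.card I := by
      unfold ff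
      congr 1
      rw [Finset.sum_comm]
      refine Finset.sum_congr rfl fun j _ => ?_
      rw [map_sum, sum_inner]
      refine Finset.sum_congr rfl fun i _ => ?_
      rw [map_smul, inner_smul_left]
      rfl
    rw [h1, h2, ← sub_div, ← Finset.sum_sub_distrib]
    congr 1
    refine Finset.sum_congr rfl fun j _ => ?_
    rw [← inner_sub_left, ← map_sub]
  rw [hdiff, norm_div]
  have h6 : ‖(Fintype.card I : ℂ)‖ = Fintype.card I := by simp
  rw [h6]
  have h7 : ‖∑ j, (inner ℂ (zz U (r j)) (U g (zz U (v j))) : ℂ)‖ ≤ ∑ j, ‖r j‖ := by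
    refine (norm_sum_le _ _).trans (Finset.sum_le_sum fun j _ => ?_)
    refine (norm_inner_le_norm _ _).trans ?_
    rw [LinearIsometryEquiv.norm_map]
    have h8 := zz_norm U (r j)
    have h9 := zz_norm U (v j)
    rw [hv1] at h9
    calc ‖zz U (r j)‖ * ‖zz U (v j)‖ ≤ ‖r j‖ * 1 :=
          mul_le_mul h8 h9 (norm_nonneg _) (norm_nonneg _)
      _ = ‖r j‖ := mul_one _
  have h8 : (∑ j, ‖r j‖) ^ 2 ≤ (Fintype.card I : ℝ) * ∑ j, ‖r j‖ ^ 2 := by
    have := sq_sum_le_card_mul_sum_sq (s := (Finset.univ : Finset I)) (f := fun j => ‖r j‖)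
    rwa [Finset.card_univ] at this
  have h9 : ∑ j, ‖r j‖ ^ 2 = Fintype.card I * (1 - sqs U v g) := by
    simp only [hrn]
    rw [Finset.sum_sub_distrib, Finset.sum_const, Finset.card_univ, nsmul_eq_mul, mul_one,
      Finset.sum_comm]
    unfold sqs
    field_simp
  refine Real.le_sqrt_of_sq_le ?_
  rw [div_pow, div_le_iff₀ (by positivity)]
  calc ‖∑ j, (inner ℂ (zz U (r j)) (U g (zz U (v j))) : ℂ)‖ ^ 2 ≤ (∑ j, ‖r j‖) ^ 2 :=
        pow_le_pow_left₀ (norm_nonneg _) h7 2
    _ ≤ (Fintype.card I : ℝ) * ∑ j, ‖r j‖ ^ 2 := h8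
    _ = (1 - sqs U v g) * (Fintype.card I : ℝ) ^ 2 := by rw [h9]; ring

/-- Square summable positive definite functions which are almost invariant. -/
theorem model_fun (U : G →* (K ≃ₗᵢ[ℂ] K)) {I : Type} [Fintype I] [DecidableEq I] [Nonempty I]
    (v : I → K) (hv : ∀ i j, inner ℂ (v i) (v j) = if i = j then (1 : ℂ) else 0) (c : ℝ)
    (hc : c ≤ (∑ i, ‖zz U (v i)‖ ^ 2) / Fintype.card I) (η : ℝ) (hη : 0 < η) :
    ∃ f : G → ℂ, PD f ∧ (∃ N : ℝ, ∀ T : Finset G, ∑ g ∈ T, ‖f g‖ ^ 2 ≤ N) ∧ c - η ≤ (f 1).re ∧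
      ∀ g, ‖f 1 - f g‖ ≤ √(1 - sqs U v g) + 2 * η := by
  have hn : (0 : ℝ) < Fintype.card I := by exact_mod_cast Fintype.card_pos
  have hv1 : ∀ i, ‖v i‖ ≤ 1 := by
    intro i
    have h1 := hv i i
    rw [if_pos rfl, inner_self_c] at h1
    have h2 : ‖v i‖ ^ 2 = 1 := by exact_mod_cast h1
    nlinarith [norm_nonneg (v i)]
  obtain ⟨δ, hδ⟩ : ∃ δ, δ = min 1 (η / (3 * Fintype.card I)) := ⟨_, rfl⟩
  have hδ0 : 0 < δ := by
    rw [hδ]
    exact lt_min one_pos (by positivity)
  have hδ1 : δ ≤ 1 := by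
    rw [hδ]
    exact min_le_left _ _
  have hδ2 : 3 * Fintype.card I * δ ≤ η := by
    have h1 : δ ≤ η / (3 * Fintype.card I) := by
      rw [hδ]
      exact min_le_right _ _
    rw [le_div_iff₀ (by positivity)] at h1
    linarith
  have hy : ∀ i, ∃ y ∈ regSub U, ‖y - zz U (v i)‖ ≤ δ := by
    intro i
    have h1 : zz U (v i) ∈ closure (regSub U : Set K) := zz_mem U (v i)
    obtain ⟨y, hy, hy2⟩ := Metric.mem_closure_iff.1 h1 δ hδ0
    refine ⟨y, hy, ?_⟩
    rw [dist_comm, dist_eq_norm] at hy2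
    exact hy2.le
  choose y hyr hyd using hy
  have hzv : ∀ i, ‖zz U (v i)‖ ≤ 1 := fun i => (zz_norm U _).trans (hv1 i)
  have hclose := fun g => (ff_sub_le U v (fun i => zz U (v i)) y hv1 hzv hδ1 hyd g).trans hδ2
  refine ⟨ff U v y, ff_pd U v y, ff_l2 U v y hv1 hyr, ?_, fun g => ?_⟩
  · have h1 := hclose 1
    have h2 := Complex.abs_re_le_norm (ff U v y 1 - ff U v (fun i => zz U (v i)) 1)
    have h3 := ff_one U v (fun i => zz U (v i)) hv
    have h5 := h2.trans h1
    rw [Complex.sub_re, h3, Complex.ofReal_re] at h5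
    have h4 := abs_le.1 h5
    linarith [h4.1]
  · have h1 := hclose 1
    have h2 := hclose g
    have h3 := ff_zz U v hv g
    have e : ff U v y 1 - ff U v y g = (ff U v y 1 - ff U v (fun i => zz U (v i)) 1) +
        (ff U v (fun i => zz U (v i)) 1 - ff U v (fun i => zz U (v i)) g) -
        (ff U v y g - ff U v (fun i => zz U (v i)) g) := by ring
    rw [e]
    refine (norm_sub_le _ _).trans ?_
    have h4 := norm_add_le (ff U v y 1 - ff U v (fun i => zz U (v i)) 1)
      (ff U v (fun i => zz U (v i)) 1 - ff U v (fun i => zz U (v i)) g)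
    linarith

end Pool.Agent.ZAR
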