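import Pool.Agent.ZAR.PartA

/-!
# ZAR: finitely many absolute values of the trace
-/

set_option autoImplicit false

open scoped ComplexOrder

namespace Pool.Agent.ZAR

open Pool.Agent.FAP Pool.Agent.JM

universe u

/-- A separated family in a totally bounded set is finite. -/
theorem fin_sep {α E : Type*} [PseudoMetricSpace E] {K : Set E} (hK : TotallyBounded K)
    {A : Set α} (f : α → E) (hf : ∀ a ∈ A, f a ∈ K) {c : ℝ} (hc : 0 < c)
    (hsep : ∀ a ∈ A, ∀ b ∈ A, a ≠ b → c ≤ dist (f a) (f b)) : A.Finite := by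
  obtain ⟨t, ht, hKt⟩ := Metric.totallyBounded_iff.1 hK (c / 2) (half_pos hc)
  have h1 : ∀ a ∈ A, ∃ y ∈ t, dist (f a) y < c / 2 := by
    intro a ha
    have h2 := hKt (hf a ha)
    simp only [Set.mem_iUnion, Metric.mem_ball, exists_prop] at h2
    exact h2
  choose y hy hy' using h1
  have _ : Finite t := ht.to_subtype
  have hinj : Function.Injective fun a : A => (⟨y a.1 a.2, hy a.1 a.2⟩ : t) := by
    intro a b hab
    by_contra hne
    have hab' : y a.1 a.2 = y b.1 b.2 := congrArg Subtype.val hab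
    have h2 := hsep a.1 a.2 b.1 b.2 fun h => hne (Subtype.ext h)
    have h3 := hy' a.1 a.2
    have h4 := hy' b.1 b.2
    rw [← hab'] at h4
    have h5 := dist_triangle_right (f a.1) (f b.1) (y a.1 a.2)
    linarith
  exact Set.finite_coe_iff.1 (Finite.of_injective _ hinj)

variable {H : Type u} [NormedAddCommGroup H] [InnerProductSpace ℂ H] [CompleteSpace H]

theorem dist_translate {Γ : Subgroup (unitary (H →L[ℂ] H))} (Ω : H) (g h : Γ) :
    ‖((g : unitary (H →L[ℂ] H)) : H →L[ℂ] H) Ω - ((h : unitary (H →L[ℂ] H)) : H →L[ℂ] H) Ω‖ =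
      ‖(((h⁻¹ * g : Γ) : unitary (H →L[ℂ] H)) : H →L[ℂ] H) Ω - Ω‖ := by
  have h1 : rep Γ g Ω - rep Γ h Ω = rep Γ h (rep Γ (h⁻¹ * g) Ω - Ω) := by
    rw [map_sub]
    have h2 : rep Γ h (rep Γ (h⁻¹ * g) Ω) = (rep Γ h * rep Γ (h⁻¹ * g)) Ω := rfl
    rw [h2, ← map_mul, mul_inv_cancel_left]
  have h3 := congrArg (fun x => ‖x‖) h1
  simp only [LinearIsometryEquiv.norm_map] at h3
  exact h3

/-- Discreteness in the norm `‖x Ω‖`. -/
def Disc (Ω : H) (Γ : Subgroup (unitary (H →L[ℂ] H))) : Prop :=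
  ∃ c : ℝ, 0 < c ∧ ∀ g : Γ, g ≠ 1 → c ≤ ‖((g : unitary (H →L[ℂ] H)) : H →L[ℂ] H) Ω - Ω‖

theorem Disc.sep {Ω : H} {Γ : Subgroup (unitary (H →L[ℂ] H))} (hd : Disc Ω Γ) :
    ∃ c : ℝ, 0 < c ∧ ∀ g h : Γ, g ≠ h → c ≤ ‖((g : unitary (H →L[ℂ] H)) : H →L[ℂ] H) Ω -
      ((h : unitary (H →L[ℂ] H)) : H →L[ℂ] H) Ω‖ := by
  obtain ⟨c, hc, h1⟩ := hd
  refine ⟨c, hc, fun g h hgh => ?_⟩
  rw [dist_translate]
  exact h1 _ fun h2 => hgh (inv_mul_eq_one.1 h2).symm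

section

variable {M : StarSubalgebra ℂ (H →L[ℂ] H)} {Ω : H} (hΩ : TraceVec M Ω)
  {Γ : Subgroup (unitary (H →L[ℂ] H))} (hΓ : ∀ u ∈ Γ, (u : H →L[ℂ] H) ∈ M)

include hΩ

/-- Elements of maximal trace are scalars (on `Ω`). -/
theorem apply_of_norm_one (g : Γ) (h : ‖psi Γ Ω g‖ ^ 2 = 1) :
    ((g : unitary (H →L[ℂ] H)) : H →L[ℂ] H) Ω = psi Γ Ω g • Ω := by
  obtain ⟨t, ht⟩ : ∃ t, t = psi Γ Ω g := ⟨_, rfl⟩
  obtain ⟨x, hx⟩ : ∃ x, x = ((g : unitary (H →L[ℂ] H)) : H →L[ℂ] H) Ω := ⟨_, rfl⟩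
  rw [← ht] at h ⊢
  rw [← hx]
  have hxn : ‖x‖ = 1 := by
    rw [hx, Unitary.norm_map, hΩ.norm_one]
  have htx : (inner ℂ Ω x : ℂ) = t := by
    rw [ht, hx]
    rfl
  have h1 := norm_sub_sq (𝕜 := ℂ) x (t • Ω)
  have h2 : RCLike.re (inner ℂ x (t • Ω) : ℂ) = ‖t‖ ^ 2 := by
    rw [inner_smul_right, ← inner_conj_symm, htx, Complex.mul_conj, Complex.normSq_eq_norm_sq]
    exact Complex.ofReal_re _
  rw [h2, hxn, norm_smul, hΩ.norm_one, mul_one, h] at h1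
  have h3 : ‖x - t • Ω‖ ^ 2 = 0 := by
    rw [h1]
    norm_num
  exact sub_eq_zero.1 (norm_eq_zero.1 ((pow_eq_zero_iff two_ne_zero).1 h3))

include hΓ

/-- Finitely many absolute values of the trace. -/
theorem amenable_of_finite (hF : HF M Ω Γ) (hd : Disc Ω Γ)
    (hfin : (Set.range fun g : Γ => ‖psi Γ Ω g‖).Finite) : Amenable Γ := by
  classical
  obtain ⟨c, hc, hsep⟩ := hd.sep
  have hone : psi Γ Ω 1 = 1 := by
    have h1 : psi Γ Ω 1 = inner ℂ Ω Ω := rfl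
    rw [h1, inner_self_c, hΩ.norm_one]
    norm_num
  obtain ⟨E, hE⟩ : ∃ E : Γ → ℂ, E = ∏ v ∈ hfin.toFinset.erase 1,
      (cf Γ Ω 1 * star (cf Γ Ω 1) - algebraMap ℂ (Γ → ℂ) ((v : ℂ) ^ 2)) := ⟨_, rfl⟩
  have hval : ∀ g, E g = ∏ v ∈ hfin.toFinset.erase 1,
      (((‖psi Γ Ω g‖ ^ 2 : ℝ) : ℂ) - (v : ℂ) ^ 2) := by
    intro g
    rw [hE, Finset.prod_apply]
    refine Finset.prod_congr rfl fun v _ => ?_
    rw [← Complex.normSq_eq_norm_sq, ← Complex.mul_conj]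
    rfl
  have hEm : E ∈ StarAlgebra.adjoin ℂ (CF M Ω Γ) := by
    have h1 : cf Γ Ω 1 ∈ StarAlgebra.adjoin ℂ (CF M Ω Γ) :=
      StarAlgebra.subset_adjoin ℂ _ ⟨1, one_mem M, rfl⟩
    rw [hE]
    exact prod_mem fun v _ => sub_mem (mul_mem h1 (star_mem h1)) (algebraMap_mem _ _)
  refine amenable_of_support hΩ hΓ hF E hEm ?_ ?_
  · intro h0
    have h1 := congrFun h0 1
    rw [hval, hone, Pi.zero_apply, Finset.prod_eq_zero_iff] at h1
    obtain ⟨v, hv, hv'⟩ := h1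
    rw [Finset.mem_erase, Set.Finite.mem_toFinset] at hv
    obtain ⟨hv1, g, rfl⟩ := hv
    have h2 : (1 : ℝ) - ‖psi Γ Ω g‖ ^ 2 = 0 := by
      simp only [norm_one, one_pow] at hv'
      exact_mod_cast hv'
    have h3 : ‖psi Γ Ω g‖ ^ 2 = 1 ^ 2 := by linarith
    exact hv1 ((sq_eq_sq₀ (norm_nonneg _) zero_le_one).1 h3)
  · refine fin_sep (isCompact_closedBall (0 : ℂ) 1).totallyBounded (psi Γ Ω) ?_ hc ?_
    · intro g hg
      rw [Metric.mem_closedBall, dist_zero_right]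
      refine le_trans (norm_inner_le_norm _ _) ?_
      rw [Unitary.norm_map, hΩ.norm_one, one_mul]
    · have key : ∀ g ∈ Function.support E,
          ((g : unitary (H →L[ℂ] H)) : H →L[ℂ] H) Ω = psi Γ Ω g • Ω := by
        intro g hg
        refine apply_of_norm_one hΩ g ?_
        by_contra hne
        apply hg
        rw [hval, Finset.prod_eq_zero (i := ‖psi Γ Ω g‖)]
        · rw [Finset.mem_erase, Set.Finite.mem_toFinset]
          refine ⟨fun h => hne ?_, g, rfl⟩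
          rw [h, one_pow]
        · push_cast
          exact sub_self _
      intro g hg h hh hgh
      have h1 := hsep g h hgh
      rw [key g hg, key h hh, ← sub_smul, norm_smul, hΩ.norm_one, mul_one] at h1
      rwa [dist_eq_norm]

end

end Pool.Agent.ZAR
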