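import Pool.Agent.ZAR.Fac

/-!
# ZAR: discrete groups generating a factor, zero isolated in the absolute values of the trace
-/

set_option autoImplicit false

open scoped ComplexOrder Topology

namespace Pool.Agent.ZAR

open Pool.Agent.FAP Pool.Agent.JM

universe u

variable {H : Type u} [NormedAddCommGroup H] [InnerProductSpace ℂ H] [CompleteSpace H]

variable {Γ : Subgroup (unitary (H →L[ℂ] H))} {Ω : H} {m : ℝ}

/-- The number of orthogonal minimal projections is bounded. -/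
theorem card_bound (hΩ1 : ‖Ω‖ = 1) (T : Finset (H →L[ℂ] H)) (hT : ∀ q ∈ T, MP Γ Ω m q)
    (horth : ∀ q ∈ T, ∀ q' ∈ T, q ≠ q' → q * q' = 0) : T.card * m ≤ 1 := by
  classical
  obtain ⟨P, hP⟩ : ∃ P : H →L[ℂ] H, P = ∑ q ∈ T, q := ⟨_, rfl⟩
  have hsa : star P = P := by
    rw [hP, star_sum]
    exact Finset.sum_congr rfl fun q hq => (hT q hq).sa
  have hid : P * P = P := by
    rw [hP, Finset.sum_mul]
    refine Finset.sum_congr rfl fun q hq => ?_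
    rw [Finset.mul_sum, Finset.sum_eq_single q]
    · exact (hT q hq).idem
    · intro q' hq' hne
      exact horth q hq q' hq' (Ne.symm hne)
    · intro h
      exact absurd hq h
  have h1 : (inner ℂ Ω (P Ω) : ℂ) = ((T.card * m : ℝ) : ℂ) := by
    rw [hP, sum_apply, inner_sum, Finset.sum_congr rfl fun q hq => (hT q hq).inner_self Ω,
      Finset.sum_congr rfl fun q hq => by rw [(hT q hq).norm]]
    simp
  have h2 := inner_star_self P Ω
  rw [hsa, hid, h1] at h2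
  have h3 : T.card * m = ‖P Ω‖ ^ 2 := by exact_mod_cast h2
  have h4 : ‖(inner ℂ Ω (P Ω) : ℂ)‖ ≤ ‖Ω‖ * ‖P Ω‖ := norm_inner_le_norm _ _
  rw [h1, h3, hΩ1, one_mul, Complex.norm_real, Real.norm_of_nonneg (sq_nonneg _)] at h4
  rw [h3]
  have h5 := norm_nonneg (P Ω)
  by_contra hcon
  push Not at hcon
  nlinarith

section

variable {M : StarSubalgebra ℂ (H →L[ℂ] H)} (hΩ : TraceVec M Ω) (hSM : ∀ x ∈ SS Γ, x ∈ M)
  {δ : ℝ} (hδ : 0 < δ) {C : Finset (H →L[ℂ] H)} (hC1 : 1 ∈ C)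
  (hτ : ∀ g : Γ, (∀ c ∈ C, cf Γ Ω c g = 0) ∨ ∃ c ∈ C, δ ≤ ‖cf Γ Ω c g‖)
  (hfac : ∀ z : H →L[ℂ] H, (∀ g : Γ, z * ((g : unitary (H →L[ℂ] H)) : H →L[ℂ] H) =
      ((g : unitary (H →L[ℂ] H)) : H →L[ℂ] H) * z) →
    (∀ c : H →L[ℂ] H, (∀ g : Γ, c * ((g : unitary (H →L[ℂ] H)) : H →L[ℂ] H) =
      ((g : unitary (H →L[ℂ] H)) : H →L[ℂ] H) * c) → c * z = z * c) → ∃ l : ℂ, z = l • 1)

include hΩ hSM hδ hC1 hτ hfac

/-- A partition of the unit into minimal projections. -/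
theorem exists_partition : ∃ (T : Finset (H →L[ℂ] H)) (m : ℝ), 0 < m ∧
    (∀ q ∈ T, MP Γ Ω m q) ∧ (∀ x ∈ SS Γ, x ≠ 0 → m ≤ ‖x Ω‖ ^ 2) ∧ ∑ q ∈ T, q = 1 := by
  classical
  obtain ⟨p, m, hpS, hm, hsa, hid, hn, hlow⟩ := exists_min hΩ hSM hδ hC1 hτ
  have hp : MP Γ Ω m p := ⟨hpS, hsa, hid, hn⟩
  obtain ⟨O, hO⟩ : ∃ O : Set (H →L[ℂ] H), O = Set.range fun g : Γ =>
      ((g : unitary (H →L[ℂ] H)) : H →L[ℂ] H) * p *
        star ((g : unitary (H →L[ℂ] H)) : H →L[ℂ] H) := ⟨_, rfl⟩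
  have hOm : ∀ q ∈ O, MP Γ Ω m q := by
    rw [hO]
    rintro _ ⟨g, rfl⟩
    exact hp.conj hΩ hSM g
  have hOo : ∀ q ∈ O, ∀ q' ∈ O, q ≠ q' → q * q' = 0 := by
    rw [hO]
    rintro _ ⟨g, rfl⟩ _ ⟨h, rfl⟩ hne
    exact hp.orth hΩ hSM hlow g h hne
  have hfin : O.Finite := by
    by_contra hinf
    obtain ⟨n, hnn⟩ := exists_nat_gt (1 / m)
    obtain ⟨t, ht, htc⟩ := Set.Infinite.exists_subset_card_eq hinf n
    have h1 := card_bound hΩ.norm_one t (fun q hq => hOm q (ht hq))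
      fun q hq q' hq' => hOo q (ht hq) q' (ht hq')
    rw [htc] at h1
    rw [div_lt_iff₀ hm] at hnn
    linarith
  refine ⟨hfin.toFinset, m, hm, fun q hq => hOm q (hfin.mem_toFinset.1 hq), hlow, ?_⟩
  obtain ⟨z, hz⟩ : ∃ z : H →L[ℂ] H, z = ∑ q ∈ hfin.toFinset, q := ⟨_, rfl⟩
  rw [← hz]
  have hconj : ∀ g : Γ, ((g : unitary (H →L[ℂ] H)) : H →L[ℂ] H) * z *
      star ((g : unitary (H →L[ℂ] H)) : H →L[ℂ] H) = z := by
    intro g
    have e1 := star_mul_coe g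
    have e2 := coe_mul_star g
    rw [hz, Finset.mul_sum, Finset.sum_mul]
    refine Finset.sum_nbij' (fun q => ((g : unitary (H →L[ℂ] H)) : H →L[ℂ] H) * q *
      star ((g : unitary (H →L[ℂ] H)) : H →L[ℂ] H)) (fun q =>
      star ((g : unitary (H →L[ℂ] H)) : H →L[ℂ] H) * q *
        ((g : unitary (H →L[ℂ] H)) : H →L[ℂ] H)) ?_ ?_ ?_ ?_ ?_
    · intro q hq
      rw [Set.Finite.mem_toFinset, hO] at hq ⊢
      obtain ⟨h, rfl⟩ := hq
      refine ⟨g * h, ?_⟩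
      have h1 : (((g * h : Γ) : unitary (H →L[ℂ] H)) : H →L[ℂ] H) =
        ((g : unitary (H →L[ℂ] H)) : H →L[ℂ] H) * ((h : unitary (H →L[ℂ] H)) : H →L[ℂ] H) := rfl
      simp only [h1, star_mul, mul_assoc]
    · intro q hq
      rw [Set.Finite.mem_toFinset, hO] at hq ⊢
      obtain ⟨h, rfl⟩ := hq
      refine ⟨g⁻¹ * h, ?_⟩
      have h1 : (((g⁻¹ * h : Γ) : unitary (H →L[ℂ] H)) : H →L[ℂ] H) =
        star ((g : unitary (H →L[ℂ] H)) : H →L[ℂ] H) *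
          ((h : unitary (H →L[ℂ] H)) : H →L[ℂ] H) := rfl
      simp only [h1, star_mul, star_star, mul_assoc]
    · intro q _
      calc star ((g : unitary (H →L[ℂ] H)) : H →L[ℂ] H) *
            (((g : unitary (H →L[ℂ] H)) : H →L[ℂ] H) * q *
              star ((g : unitary (H →L[ℂ] H)) : H →L[ℂ] H)) *
            ((g : unitary (H →L[ℂ] H)) : H →L[ℂ] H) =
            (star ((g : unitary (H →L[ℂ] H)) : H →L[ℂ] H) *
              ((g : unitary (H →L[ℂ] H)) : H →L[ℂ] H)) * q *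
            (star ((g : unitary (H →L[ℂ] H)) : H →L[ℂ] H) *
              ((g : unitary (H →L[ℂ] H)) : H →L[ℂ] H)) := by simp only [mul_assoc]
        _ = q := by rw [e1, one_mul, mul_one]
    · intro q _
      calc ((g : unitary (H →L[ℂ] H)) : H →L[ℂ] H) *
            (star ((g : unitary (H →L[ℂ] H)) : H →L[ℂ] H) * q *
              ((g : unitary (H →L[ℂ] H)) : H →L[ℂ] H)) *
            star ((g : unitary (H →L[ℂ] H)) : H →L[ℂ] H) =
            (((g : unitary (H →L[ℂ] H)) : H →L[ℂ] H) *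
              star ((g : unitary (H →L[ℂ] H)) : H →L[ℂ] H)) * q *
            (((g : unitary (H →L[ℂ] H)) : H →L[ℂ] H) *
              star ((g : unitary (H →L[ℂ] H)) : H →L[ℂ] H)) := by simp only [mul_assoc]
        _ = q := by rw [e2, one_mul, mul_one]
    · intro q _
      rfl
  have hcomm : ∀ g : Γ, z * ((g : unitary (H →L[ℂ] H)) : H →L[ℂ] H) =
      ((g : unitary (H →L[ℂ] H)) : H →L[ℂ] H) * z := by
    intro g
    calc z * ((g : unitary (H →L[ℂ] H)) : H →L[ℂ] H) =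
          (((g : unitary (H →L[ℂ] H)) : H →L[ℂ] H) * z *
            star ((g : unitary (H →L[ℂ] H)) : H →L[ℂ] H)) *
            ((g : unitary (H →L[ℂ] H)) : H →L[ℂ] H) := by rw [hconj]
      _ = ((g : unitary (H →L[ℂ] H)) : H →L[ℂ] H) * z *
            (star ((g : unitary (H →L[ℂ] H)) : H →L[ℂ] H) *
            ((g : unitary (H →L[ℂ] H)) : H →L[ℂ] H)) := by simp only [mul_assoc]
      _ = ((g : unitary (H →L[ℂ] H)) : H →L[ℂ] H) * z := by rw [star_mul_coe, mul_one]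
  obtain ⟨l, hl⟩ := hfac z hcomm fun c hc => by
    rw [hz, Finset.mul_sum, Finset.sum_mul]
    exact Finset.sum_congr rfl fun q hq => SS_comm (hOm q (hfin.mem_toFinset.1 hq)).mem hc
  have hpO : p ∈ hfin.toFinset := by
    rw [Set.Finite.mem_toFinset, hO]
    refine ⟨1, ?_⟩
    show (1 : H →L[ℂ] H) * p * star (1 : H →L[ℂ] H) = p
    rw [star_one, one_mul, mul_one]
  have hzp : z * p = p := by
    rw [hz, Finset.sum_mul, Finset.sum_eq_single p]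
    · exact hid
    · intro q hq hne
      exact hOo q (hfin.mem_toFinset.1 hq) p (hfin.mem_toFinset.1 hpO) hne
    · intro h
      exact absurd hpO h
  rw [hl, smul_mul_assoc, one_mul] at hzp
  have h1 : (l - 1) • p = 0 := by
    rw [sub_smul, one_smul, hzp, sub_self]
  have h2 := (smul_eq_zero.1 h1).resolve_right (hp.ne hm)
  rw [hl, sub_eq_zero.1 h2, one_smul]

end

/-- The norm in terms of the partition. -/
theorem norm_partition {T : Finset (H →L[ℂ] H)} (hT : ∀ q ∈ T, MP Γ Ω m q)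
    (h1 : ∑ q ∈ T, q = 1) (v : H) : ‖v‖ ^ 2 = ∑ q ∈ T, ‖q v‖ ^ 2 := by
  have h2 : (inner ℂ v ((∑ q ∈ T, q : H →L[ℂ] H) v) : ℂ) = ((‖v‖ ^ 2 : ℝ) : ℂ) := by
    rw [h1]
    exact inner_self_c v
  rw [sum_apply, inner_sum, Finset.sum_congr rfl fun q hq => (hT q hq).inner_self v] at h2
  exact_mod_cast h2.symm

section

variable {M : StarSubalgebra ℂ (H →L[ℂ] H)} (hΩ : TraceVec M Ω) (hSM : ∀ x ∈ SS Γ, x ∈ M)
  {δ : ℝ} (hδ : 0 < δ) {C : Finset (H →L[ℂ] H)} (hC1 : 1 ∈ C)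
  (hτ : ∀ g : Γ, (∀ c ∈ C, cf Γ Ω c g = 0) ∨ ∃ c ∈ C, δ ≤ ‖cf Γ Ω c g‖)

include hΩ hSM hδ hC1 hτ

/-- The product of the corner traces has finite support. -/
theorem finite_support (hd : Disc Ω Γ) {T : Finset (H →L[ℂ] H)}
    (hT : ∀ q ∈ T, MP Γ Ω m q) (hlow : ∀ x ∈ SS Γ, x ≠ 0 → m ≤ ‖x Ω‖ ^ 2)
    (h1 : ∑ q ∈ T, q = 1) :
    (Function.support fun g : Γ => ∏ q ∈ T, psi Γ (q Ω) g).Finite := by
  classical
  by_contra hinf
  obtain ⟨A, hA⟩ : ∃ A : Set Γ, A = Function.support fun g : Γ => ∏ q ∈ T, psi Γ (q Ω) g :=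
    ⟨_, rfl⟩
  rw [← hA] at hinf
  have hAm : ∀ g : Γ, g ∈ A → ∏ q ∈ T, psi Γ (q Ω) g ≠ 0 := by
    intro g hg
    rw [hA] at hg
    exact hg
  have hAi : Infinite A := Set.infinite_coe_iff.2 hinf
  obtain ⟨x, hx, hlim⟩ := exists_limit (Γ := Γ) (Filter.hyperfilter A) fun a => a.1
  -- the elements of the support
  have hne : ∀ a : A, ∀ q ∈ T, q * (((a.1 : Γ) : unitary (H →L[ℂ] H)) : H →L[ℂ] H) * q ≠ 0 ∧
      ∃ c ∈ C, δ ≤ ‖(inner ℂ (q (star c Ω))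
        ((((a.1 : Γ) : unitary (H →L[ℂ] H)) : H →L[ℂ] H) (q Ω)) : ℂ)‖ := by
    intro a q hq
    have h3 := Finset.prod_ne_zero_iff.1 (hAm a.1 a.2) q hq
    have h5 : ∀ v : H, (inner ℂ (q v)
        ((((a.1 : Γ) : unitary (H →L[ℂ] H)) : H →L[ℂ] H) (q Ω)) : ℂ) = inner ℂ v
        ((q * (((a.1 : Γ) : unitary (H →L[ℂ] H)) : H →L[ℂ] H) * q) Ω) := by
      intro v
      have h6 := inner_star_right' q v
        (((((a.1 : Γ) : unitary (H →L[ℂ] H)) : H →L[ℂ] H) * q) Ω)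
      rw [(hT q hq).sa] at h6
      exact h6.symm
    have h4 : psi Γ (q Ω) a.1 = inner ℂ Ω
        ((q * (((a.1 : Γ) : unitary (H →L[ℂ] H)) : H →L[ℂ] H) * q) Ω) := h5 Ω
    refine ⟨fun h => h3 ?_, ?_⟩
    · rw [h4, h]
      simp
    · rw [h4] at h3
      rcases gap hτ (mem_SS_mul (mem_SS_mul (hT q hq).mem (mem_SS_coe a.1))
        (hT q hq).mem) with h7 | ⟨c, hc, h7⟩
      · have h8 := h7 1 hC1
        rw [star_one] at h8
        exact absurd h8 h3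
      · refine ⟨c, hc, ?_⟩
        rw [h5]
        exact h7
  have hcomm : ∀ a : A, ∀ q ∈ T, (((a.1 : Γ) : unitary (H →L[ℂ] H)) : H →L[ℂ] H) * q =
      q * (((a.1 : Γ) : unitary (H →L[ℂ] H)) : H →L[ℂ] H) := fun a q hq =>
    (hT q hq).comm hΩ hSM hlow a.1 (hne a q hq).1
  -- the limit
  have hxc : ∀ q ∈ T, x * q = q * x := by
    intro q hq
    ext η
    refine ext_inner_left ℂ fun ξ => ?_
    have h2 := hlim ξ (q η)
    have h3 := hlim (q ξ) η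
    have h4 : (fun a : A => (inner ℂ ξ ((((a.1 : Γ) : unitary (H →L[ℂ] H)) : H →L[ℂ] H) (q η)) :
        ℂ)) = fun a : A =>
        (inner ℂ (q ξ) ((((a.1 : Γ) : unitary (H →L[ℂ] H)) : H →L[ℂ] H) η) : ℂ) := by
      funext a
      have h5 := congrArg (fun S : H →L[ℂ] H => (inner ℂ ξ (S η) : ℂ)) (hcomm a q hq)
      have h6 := inner_star_right' q ξ ((((a.1 : Γ) : unitary (H →L[ℂ] H)) : H →L[ℂ] H) η)
      rw [(hT q hq).sa] at h6
      exact h5.trans h6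
    rw [h4] at h2
    have h5 := tendsto_nhds_unique h2 h3
    have h6 := inner_star_right' q ξ (x η)
    rw [(hT q hq).sa] at h6
    exact h5.trans h6.symm
  have hxn : ∀ q ∈ T, ‖q (x Ω)‖ ^ 2 = m := by
    intro q hq
    have h2 : ∃ c ∈ C, δ ≤ ‖(inner ℂ (q (star c Ω)) (x (q Ω)) : ℂ)‖ := by
      by_contra hcon
      push Not at hcon
      have h7 : ∀ c ∈ C, ∀ᶠ a : A in (Filter.hyperfilter A : Filter A),
          ‖(inner ℂ (q (star c Ω)) ((((a.1 : Γ) : unitary (H →L[ℂ] H)) : H →L[ℂ] H) (q Ω)) :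
            ℂ)‖ < δ := fun c hc =>
        (hlim (q (star c Ω)) (q Ω)).norm.eventually (gt_mem_nhds (hcon c hc))
      rw [← Filter.eventually_all_finset] at h7
      obtain ⟨a, ha⟩ := h7.exists
      obtain ⟨c, hc, h8⟩ := (hne a q hq).2
      exact absurd (ha c hc) (not_lt.2 h8)
    have h3 : q * x * q ≠ 0 := by
      intro h
      obtain ⟨c, -, h2⟩ := h2
      have h5 := inner_star_right' q (star c Ω) ((x * q) Ω)
      rw [(hT q hq).sa] at h5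
      have h6 : (inner ℂ (q (star c Ω)) (x (q Ω)) : ℂ) =
        inner ℂ (star c Ω) ((q * x * q) Ω) := h5.symm
      rw [h6, h] at h2
      simp at h2
      linarith
    have h4 := (hT q hq).dich hlow hx h3
    have h5 : q * x * q = q * x := by
      rw [mul_assoc, hxc q hq, ← mul_assoc, (hT q hq).idem]
    rw [h5] at h4
    exact h4
  have hx1 : ‖x Ω‖ ^ 2 = 1 := by
    rw [norm_partition hT h1 (x Ω), Finset.sum_congr rfl hxn,
      ← Finset.sum_congr rfl fun q hq => (hT q hq).norm, ← norm_partition hT h1 Ω, hΩ.norm_one,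
      one_pow]
  obtain ⟨c, hc, hsep⟩ := hd.sep
  have h2 := hlim (x Ω) Ω
  have h3 : (inner ℂ (x Ω) (x Ω) : ℂ) = 1 := by
    rw [inner_self_c, hx1]
    norm_num
  rw [h3] at h2
  have h4 := (Complex.continuous_re.tendsto (1 : ℂ)).comp h2
  have h5 := h4.eventually (lt_mem_nhds (show 1 - c ^ 2 / 16 < (1 : ℂ).re by
    rw [Complex.one_re]
    have : 0 < c ^ 2 := by positivity
    linarith))
  obtain ⟨B, hB⟩ : ∃ B : Set A, B = {a | 1 - c ^ 2 / 16 <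
      (inner ℂ (x Ω) ((((a.1 : Γ) : unitary (H →L[ℂ] H)) : H →L[ℂ] H) Ω) : ℂ).re} := ⟨_, rfl⟩
  have hBm : B ∈ (Filter.hyperfilter A : Filter A) := by
    rw [hB]
    exact h5
  have hBn : ¬ B.Subsingleton := fun h => Filter.notMem_hyperfilter_of_finite h.finite hBm
  rw [Set.not_subsingleton_iff] at hBn
  obtain ⟨a, ha, b, hb, hab⟩ := hBn
  have key : ∀ a ∈ B, ‖(((a.1 : Γ) : unitary (H →L[ℂ] H)) : H →L[ℂ] H) Ω - x Ω‖ < c / 2 := by
    intro a ha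
    rw [hB] at ha
    have h6 : 1 - c ^ 2 / 16 <
      (inner ℂ (x Ω) ((((a.1 : Γ) : unitary (H →L[ℂ] H)) : H →L[ℂ] H) Ω) : ℂ).re := ha
    have h7 := norm_sub_sq (𝕜 := ℂ) (x Ω)
      ((((a.1 : Γ) : unitary (H →L[ℂ] H)) : H →L[ℂ] H) Ω)
    have h8 : RCLike.re (inner ℂ (x Ω)
      ((((a.1 : Γ) : unitary (H →L[ℂ] H)) : H →L[ℂ] H) Ω) : ℂ) =
      (inner ℂ (x Ω) ((((a.1 : Γ) : unitary (H →L[ℂ] H)) : H →L[ℂ] H) Ω) : ℂ).re := rfl
    rw [h8, hx1, Unitary.norm_map, hΩ.norm_one] at h7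
    rw [norm_sub_rev]
    have h9 : ‖x Ω - (((a.1 : Γ) : unitary (H →L[ℂ] H)) : H →L[ℂ] H) Ω‖ ^ 2 < (c / 2) ^ 2 := by
      rw [h7]
      have : 0 < c ^ 2 := by positivity
      nlinarith
    exact lt_of_pow_lt_pow_left₀ 2 (by positivity) h9
  have h6 := hsep a.1 b.1 fun h => hab (Subtype.ext h)
  have h7 := key a ha
  have h8 := key b hb
  have h9 := norm_sub_le_norm_sub_add_norm_sub
    ((((a.1 : Γ) : unitary (H →L[ℂ] H)) : H →L[ℂ] H) Ω) (x Ω)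
    ((((b.1 : Γ) : unitary (H →L[ℂ] H)) : H →L[ℂ] H) Ω)
  rw [norm_sub_rev (x Ω)] at h9
  linarith

/-- The theorem for discrete groups which generate a factor. -/
theorem amenable_of_isolated (hF : HF M Ω Γ) (hd : Disc Ω Γ)
    (hfac : ∀ z : H →L[ℂ] H, (∀ g : Γ, z * ((g : unitary (H →L[ℂ] H)) : H →L[ℂ] H) =
      ((g : unitary (H →L[ℂ] H)) : H →L[ℂ] H) * z) →
    (∀ c : H →L[ℂ] H, (∀ g : Γ, c * ((g : unitary (H →L[ℂ] H)) : H →L[ℂ] H) =
      ((g : unitary (H →L[ℂ] H)) : H →L[ℂ] H) * c) → c * z = z * c) → ∃ l : ℂ, z = l • 1) :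
    Amenable Γ := by
  classical
  obtain ⟨T, m, hm, hT, hlow, h1⟩ := exists_partition hΩ hSM hδ hC1 hτ hfac
  have hfin := finite_support hΩ hSM hδ hC1 hτ hd hT hlow h1
  have hΓ : ∀ u ∈ Γ, (u : H →L[ℂ] H) ∈ M := fun u hu => hSM _ (mem_SS_coe (⟨u, hu⟩ : Γ))
  have hone : (∏ q ∈ T, psi Γ (q Ω) 1) = ((m ^ T.card : ℝ) : ℂ) := by
    rw [Finset.prod_congr rfl fun q hq => show psi Γ (q Ω) 1 = ((m : ℝ) : ℂ) by
      have h2 : psi Γ (q Ω) 1 = inner ℂ (q Ω) (q Ω) := rfl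
      rw [h2, inner_self_c, (hT q hq).norm]]
    rw [Finset.prod_const]
    push_cast
    rfl
  refine amenable_of_dom hΩ hΓ hF (fun g => ∏ q ∈ T, psi Γ (q Ω) g)
    (PD.prod T _ fun q _ => psi_pd Γ (q Ω)) (3 ^ T.card) _ T.card (by positivity)
    (Finset.sum_nonneg fun _ _ => norm_nonneg _) (bdd_of_finite _ hfin) ?_ ?_
  · rw [hone, Complex.ofReal_re]
    positivity
  · have h2 : PD fun g => 3 * th Γ Ω g :=
      ((th_pd Γ Ω).smul (show (0 : ℝ) ≤ 3 by norm_num)).congr fun g => by push_cast; rfl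
    have h3 := prod_dom T (fun q => psi Γ (q Ω)) (fun g => 3 * th Γ Ω g) h2
      (fun q _ => psi_pd Γ (q Ω)) fun q hq => by
        have h4 := psi_dom hΩ hΓ (hSM q (hT q hq).mem) (C := 1)
          (pow_le_one₀ (norm_nonneg _) (SS_opNorm (hT q hq).mem))
        refine ((th_psi Γ Ω).add h4).congr fun g => ?_
        push_cast
        ring
    refine h3.congr fun g => ?_
    rw [mul_pow]
    push_cast
    rfl

end

end Pool.Agent.ZAR
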