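import Pool.Agent.ZAR.Reg

/-!
# ZAR: positive semidefinite kernels and positive definite functions
-/

set_option autoImplicit false

open scoped ComplexOrder

namespace Pool.Agent.ZAR

universe u

/-- Kernels of scalar products are positive semidefinite. -/
theorem psd_gram {X : Type u} {K : Type*} [NormedAddCommGroup K] [InnerProductSpace ℂ K]
    (w : X → K) (k : X → X → ℂ) (hk : ∀ x y, k x y = inner ℂ (w x) (w y)) :
    (Matrix.of k).PosSemidef := by
  have hk' : k = fun x y => inner ℂ (w x) (w y) := by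
    funext x y
    exact hk x y
  subst hk'
  refine ⟨?_, fun a => ?_⟩
  · ext x y
    simp [Matrix.conjTranspose_apply, ← starRingEnd_apply, inner_conj_symm]
  · have h := norm_lc_sq w a
    show 0 ≤ Q (fun x y => inner ℂ (w x) (w y)) a a
    rw [← h]
    exact Complex.zero_le_real.2 (sq_nonneg _)

/-- Summation over blocks preserves positive semidefiniteness. -/
theorem psd_block {X : Type u} {I : Type} [Fintype I] (k : X × I → X × I → ℂ)
    (hk : (Matrix.of k).PosSemidef) :
    (Matrix.of fun x y : X => ∑ i, ∑ j, k (x, i) (y, j)).PosSemidef := by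
  obtain ⟨K, _, _, _, w, hw, -⟩ := gram_exists k hk
  refine psd_gram (fun x => ∑ i, w (x, i)) _ fun x y => ?_
  rw [sum_inner]
  refine Finset.sum_congr rfl fun i _ => ?_
  rw [inner_sum]
  exact Finset.sum_congr rfl fun j _ => (hw _ _).symm

theorem psd_mul {X : Type u} {k l : X → X → ℂ} (hk : (Matrix.of k).PosSemidef)
    (hl : (Matrix.of l).PosSemidef) : (Matrix.of fun x y => k x y * l x y).PosSemidef :=
  hk.hadamard hl

theorem psd_conj {X : Type u} {k : X → X → ℂ} (hk : (Matrix.of k).PosSemidef) :
    (Matrix.of fun x y => star (k x y)).PosSemidef := by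
  have h1 := hk.transpose
  have h2 : (Matrix.of k).transpose = Matrix.of fun x y => star (k x y) := by
    ext x y
    have := hk.1.apply x y
    simp only [Matrix.of_apply, Matrix.transpose_apply] at this ⊢
    rw [← this, star_star]
  rwa [h2] at h1

variable {G : Type u} [Group G]

theorem PD.mul {φ ψ : G → ℂ} (h1 : PD φ) (h2 : PD ψ) : PD fun g => φ g * ψ g :=
  psd_mul h1 h2

theorem PD.conj {φ : G → ℂ} (h1 : PD φ) : PD fun g => star (φ g) := psd_conj h1

theorem PD.add {φ ψ : G → ℂ} (h1 : PD φ) (h2 : PD ψ) : PD fun g => φ g + ψ g :=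
  Matrix.PosSemidef.add h1 h2

theorem PD.smul {φ : G → ℂ} (h1 : PD φ) {c : ℝ} (hc : 0 ≤ c) : PD fun g => (c : ℂ) * φ g := by
  have := Matrix.PosSemidef.smul h1 (a := (c : ℂ)) (by exact_mod_cast hc)
  exact this

theorem PD.one : PD (fun _ : G => (1 : ℂ)) :=
  psd_gram (fun _ : G => (1 : ℂ)) _ fun _ _ => by simp

theorem PD.zero : PD (fun _ : G => (0 : ℂ)) :=
  psd_gram (fun _ : G => (0 : ℂ)) _ fun _ _ => by simp

theorem PD.pow {φ : G → ℂ} (h : PD φ) (n : ℕ) : PD fun g => φ g ^ n := by
  induction n with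
  | zero => simpa using PD.one
  | succ n ih =>
    simp only [pow_succ]
    exact ih.mul h

theorem PD.prod {ι : Type*} (s : Finset ι) (φ : ι → G → ℂ) (h : ∀ i ∈ s, PD (φ i)) :
    PD fun g => ∏ i ∈ s, φ i g := by
  classical
  induction s using Finset.induction_on with
  | empty => simpa using PD.one
  | insert a s ha ih =>
    simp only [Finset.prod_insert ha]
    exact (h a (Finset.mem_insert_self a s)).mul
      (ih fun i hi => h i (Finset.mem_insert_of_mem hi))

theorem PD.sum {ι : Type*} (s : Finset ι) (φ : ι → G → ℂ) (h : ∀ i ∈ s, PD (φ i)) :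
    PD fun g => ∑ i ∈ s, φ i g := by
  classical
  induction s using Finset.induction_on with
  | empty => simpa using PD.zero
  | insert a s ha ih =>
    simp only [Finset.sum_insert ha]
    exact (h a (Finset.mem_insert_self a s)).add
      (ih fun i hi => h i (Finset.mem_insert_of_mem hi))

/-- Symmetry of positive definite functions. -/
theorem PD.inv {φ : G → ℂ} (h : PD φ) (g : G) : φ g⁻¹ = star (φ g) := by
  have h1 := h.1.apply g 1
  simp only [Matrix.of_apply, inv_one, one_mul, mul_one] at h1
  exact h1.symm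

/-- Coefficients of a unitary representation. -/
theorem PD.coef {K : Type*} [NormedAddCommGroup K] [InnerProductSpace ℂ K]
    (U : G →* (K ≃ₗᵢ[ℂ] K)) (ξ : K) : PD fun g => inner ℂ ξ (U g ξ) :=
  psd_gram (fun g => U g ξ) _ fun x y => by
    show inner ℂ ξ (U (x⁻¹ * y) ξ) = _
    rw [unit_inner, map_mul]
    rfl

/-- The quadratic form of a positive definite function in finite sums. -/
theorem PD.nonneg {φ : G → ℂ} (h : PD φ) (T : Finset G) (b : G → ℂ) :
    0 ≤ (∑ g ∈ T, ∑ h ∈ T, star (b g) * φ (g⁻¹ * h) * b h).re := by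
  obtain ⟨K, _, _, _, w, hw, -⟩ := gram_exists _ h
  have h1 := norm_sum_sq T b w
  simp only [hw] at h1
  rw [← h1]
  exact sq_nonneg _

end Pool.Agent.ZAR
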