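import Pool.Agent.ZAR.Gns

/-!
# ZAR: square summable coefficients from a domination of positive definite functions
-/

set_option autoImplicit false

open scoped ComplexOrder

namespace Pool.Agent.ZAR

universe u

/-- A positive definite function on a group. -/
def PD {G : Type u} [Group G] (φ : G → ℂ) : Prop :=
  (Matrix.of fun x y : G => φ (x⁻¹ * y)).PosSemidef

/-- The quadratic form of `φ` is bounded by `C` times the square of the `ℓ²` norm. -/
def Bdd {G : Type u} [Group G] (φ : G → ℂ) (C : ℝ) : Prop :=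
  ∀ (T : Finset G) (b : G → ℂ),
    (∑ g ∈ T, ∑ h ∈ T, star (b g) * φ (g⁻¹ * h) * b h).re ≤ C * ∑ g ∈ T, ‖b g‖ ^ 2

theorem norm_sum_sq {X : Type*} {K : Type*} [NormedAddCommGroup K] [InnerProductSpace ℂ K]
    (T : Finset X) (b : X → ℂ) (w : X → K) :
    ‖∑ x ∈ T, b x • w x‖ ^ 2 =
      (∑ x ∈ T, ∑ y ∈ T, star (b x) * inner ℂ (w x) (w y) * b y).re := by
  have h1 : (inner ℂ (∑ x ∈ T, b x • w x) (∑ x ∈ T, b x • w x) : ℂ) =
      ∑ x ∈ T, ∑ y ∈ T, star (b x) * inner ℂ (w x) (w y) * b y := by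
    rw [sum_inner]
    refine Finset.sum_congr rfl fun x _ => ?_
    rw [inner_sum]
    refine Finset.sum_congr rfl fun y _ => ?_
    rw [inner_smul_left, inner_smul_right, starRingEnd_apply]
    ring
  rw [← h1, inner_self_eq_norm_sq_to_K]
  norm_cast

theorem unit_inner {G : Type u} [Group G] {K : Type*} [NormedAddCommGroup K]
    [InnerProductSpace ℂ K] (U : G →* (K ≃ₗᵢ[ℂ] K)) (g : G) (x y : K) :
    inner ℂ (U g x) y = inner ℂ x (U g⁻¹ y) := by
  have h1 := (U g⁻¹).inner_map_map (U g x) y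
  have h2 : U g⁻¹ (U g x) = x := by
    have : (U g⁻¹ * U g) x = x := by
      rw [← map_mul, inv_mul_cancel, map_one]
      rfl
    exact this
  rw [← h1, h2]

/-- From a domination of positive definite functions to a vector with square summable
coefficients. -/
theorem riesz_reg {G : Type u} [Group G] {K : Type*} [NormedAddCommGroup K]
    [InnerProductSpace ℂ K] [CompleteSpace K] (U : G →* (K ≃ₗᵢ[ℂ] K)) (v : K) (Φ : G → ℂ)
    (hΦ : PD Φ) (C C' : ℝ) (hC : 0 ≤ C) (hC' : 0 ≤ C')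
    (h1 : ∀ a : G →₀ ℂ, (Q (fun x y => Φ (x⁻¹ * y)) a a).re ≤
      C * ‖Finsupp.linearCombination ℂ (fun x => U x v) a‖ ^ 2)
    (h2 : Bdd Φ C') :
    ∃ h : K, inner ℂ h v = Φ 1 ∧ ‖h‖ ^ 2 ≤ C * (Φ 1).re ∧
      ∀ (T : Finset G) (ζ : K), ∑ g ∈ T, ‖inner ℂ (U g h) ζ‖ ^ 2 ≤ C * C' * ‖ζ‖ ^ 2 := by
  classical
  obtain ⟨L, i1, i2, i3, w, hw, -⟩ := gram_exists _ hΦ
  set S : (G →₀ ℂ) →ₗ[ℂ] L := Finsupp.linearCombination ℂ w with hS
  set e : (G →₀ ℂ) →ₗ[ℂ] K := Finsupp.linearCombination ℂ (fun x => U x v) with he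
  set f : (G →₀ ℂ) →ₗ[ℂ] ℂ := Finsupp.linearCombination ℂ Φ with hf
  have hSe : ∀ a, ‖S a‖ ≤ √C * ‖e a‖ := by
    intro a
    have h3 := norm_lc_sq w a
    simp only [hw] at h3
    have h4 := h1 a
    rw [← h3, Complex.ofReal_re] at h4
    have h5 : ‖S a‖ ^ 2 ≤ (√C * ‖e a‖) ^ 2 := by
      rw [mul_pow, Real.sq_sqrt hC]
      exact h4
    exact (sq_le_sq₀ (norm_nonneg _) (by positivity)).1 h5
  have hfS : ∀ a, f a = inner ℂ (w 1) (S a) := by
    intro a
    rw [hf, hS, Finsupp.linearCombination_apply, Finsupp.linearCombination_apply,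
      Finsupp.inner_sum]
    refine Finsupp.sum_congr fun x _ => ?_
    rw [inner_smul_right, hw, inv_one, one_mul, smul_eq_mul]
  have hw1 : ‖w 1‖ ^ 2 = (Φ 1).re := by
    have h3 := hw 1 1
    rw [inner_self_eq_norm_sq_to_K, inv_one, one_mul] at h3
    have h4 := congrArg Complex.re h3
    rw [← h4]
    norm_cast
  have hfe : ∀ a, ‖f a‖ ≤ (‖w 1‖ * √C) * ‖e a‖ := by
    intro a
    rw [hfS, mul_assoc]
    exact (norm_inner_le_norm _ _).trans (mul_le_mul_of_nonneg_left (hSe a) (norm_nonneg _))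
  set W : Submodule ℂ K := (LinearMap.range e).topologicalClosure with hW
  have hWc : IsClosed (W : Set K) := Submodule.isClosed_topologicalClosure _
  have _ : CompleteSpace W := hWc.completeSpace_coe
  have heW : ∀ a, e a ∈ W := fun a =>
    Submodule.le_topologicalClosure _ (LinearMap.mem_range_self e a)
  set e' : (G →₀ ℂ) →ₗ[ℂ] W := e.codRestrict W heW with he'
  have hd : DenseRange e' := by
    intro z
    rw [Metric.mem_closure_iff]
    intro ε hε
    have hz : (z : K) ∈ closure (LinearMap.range e : Set K) := z.2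
    obtain ⟨b, hb1, hb2⟩ := Metric.mem_closure_iff.1 hz ε hε
    obtain ⟨a, ha⟩ := hb1
    refine ⟨e' a, ⟨a, rfl⟩, ?_⟩
    rw [Subtype.dist_eq]
    rw [← ha] at hb2
    exact hb2
  have hfe' : ∀ a, ‖f a‖ ≤ (‖w 1‖ * √C) * ‖e' a‖ := hfe
  set F : W →L[ℂ] ℂ := f.extendOfNorm e' with hF
  have hFe : ∀ a, F (e' a) = f a := fun a => LinearMap.extendOfNorm_eq hd ⟨_, hfe'⟩ a
  have hFn : ∀ x, ‖F x‖ ≤ (‖w 1‖ * √C) * ‖x‖ := fun x =>
    LinearMap.norm_extendOfNorm_apply_le hd _ hfe' x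
  set h : W := (InnerProductSpace.toDual ℂ W).symm F with hh
  have hhe : ∀ a, inner ℂ (h : K) (e a) = f a := by
    intro a
    rw [← hFe a]
    have h3 : inner ℂ h (e' a) = F (e' a) := by
      rw [hh, InnerProductSpace.toDual_symm_apply]
    rw [← h3]
    rfl
  have hhn : ‖(h : K)‖ ≤ ‖w 1‖ * √C := by
    have h3 : ‖h‖ = ‖F‖ := by
      rw [hh, LinearIsometryEquiv.norm_map]
    have h4 : ‖(h : K)‖ = ‖h‖ := rfl
    rw [h4, h3]
    exact F.opNorm_le_bound (by positivity) hFn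
  -- translates
  have htr : ∀ g a, U g (e a) = e (a.mapDomain (fun x => g * x)) := by
    intro g a
    rw [he, Finsupp.linearCombination_mapDomain, Finsupp.linearCombination_apply,
      Finsupp.linearCombination_apply, map_finsuppSum]
    refine Finsupp.sum_congr fun x _ => ?_
    rw [map_smul]
    congr 1
    show U g (U x v) = U (g * x) v
    rw [map_mul]
    rfl
  have hUW : ∀ g, U g (h : K) ∈ W := by
    intro g
    have h3 : (h : K) ∈ closure (LinearMap.range e : Set K) := h.2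
    have h4 := map_mem_closure (U g).continuous h3
      (t := (LinearMap.range e : Set K)) (by
        rintro _ ⟨a, rfl⟩
        exact ⟨_, (htr g a).symm⟩)
    exact h4
  have hUe : ∀ g a, inner ℂ (U g (h : K)) (e a) = inner ℂ (w g) (S a) := by
    intro g a
    rw [unit_inner, htr, hhe, hf, hS, Finsupp.linearCombination_mapDomain,
      Finsupp.linearCombination_apply, Finsupp.linearCombination_apply, Finsupp.inner_sum]
    refine Finsupp.sum_congr fun x _ => ?_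
    rw [inner_smul_right, hw, smul_eq_mul]
    rfl
  -- the norm of combinations of translates
  have hcomb : ∀ (T : Finset G) (b : G → ℂ),
      ‖∑ g ∈ T, b g • U g (h : K)‖ ^ 2 ≤ C * C' * ∑ g ∈ T, ‖b g‖ ^ 2 := by
    intro T b
    set x : K := ∑ g ∈ T, b g • U g (h : K) with hx
    have hxW : x ∈ W := W.sum_mem fun g _ => W.smul_mem _ (hUW g)
    set y : L := ∑ g ∈ T, b g • w g with hy
    have hyn : ‖y‖ ^ 2 ≤ C' * ∑ g ∈ T, ‖b g‖ ^ 2 := by
      rw [hy, norm_sum_sq]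
      simp only [hw]
      exact h2 T b
    have h3 : ∀ z ∈ W, ‖(inner ℂ x z : ℂ)‖ ≤ (‖y‖ * √C) * ‖z‖ := by
      intro z hz
      have hcl : IsClosed {z : K | ‖(inner ℂ x z : ℂ)‖ ≤ (‖y‖ * √C) * ‖z‖} :=
        isClosed_le (by fun_prop) (by fun_prop)
      refine closure_minimal (s := (LinearMap.range e : Set K)) ?_ hcl hz
      rintro _ ⟨a, rfl⟩
      show ‖(inner ℂ x (e a) : ℂ)‖ ≤ (‖y‖ * √C) * ‖e a‖
      have h4 : (inner ℂ x (e a) : ℂ) = inner ℂ y (S a) := by
        rw [hx, hy, sum_inner, sum_inner]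
        refine Finset.sum_congr rfl fun g _ => ?_
        rw [inner_smul_left, inner_smul_left, hUe]
      rw [h4, mul_assoc]
      exact (norm_inner_le_norm _ _).trans (mul_le_mul_of_nonneg_left (hSe a) (norm_nonneg _))
    have h4 := h3 x hxW
    have h5 : ‖(inner ℂ x x : ℂ)‖ = ‖x‖ * ‖x‖ := by
      rw [inner_self_eq_norm_sq_to_K, norm_pow, RCLike.norm_ofReal, abs_norm, sq]
    rw [h5] at h4
    have h6 : ‖x‖ ≤ ‖y‖ * √C := by
      rcases (norm_nonneg x).eq_or_lt with h0 | h0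
      · rw [← h0]
        positivity
      · exact le_of_mul_le_mul_right h4 h0
    calc ‖x‖ ^ 2 ≤ (‖y‖ * √C) ^ 2 := pow_le_pow_left₀ (norm_nonneg _) h6 2
      _ = C * ‖y‖ ^ 2 := by rw [mul_pow, Real.sq_sqrt hC]; ring
      _ ≤ C * (C' * ∑ g ∈ T, ‖b g‖ ^ 2) := mul_le_mul_of_nonneg_left hyn hC
      _ = C * C' * ∑ g ∈ T, ‖b g‖ ^ 2 := by ring
  refine ⟨h, ?_, ?_, fun T ζ => ?_⟩
  · have h3 := hhe (Finsupp.single 1 1)
    simp only [he, hf, Finsupp.linearCombination_single, one_smul, map_one] at h3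
    exact h3
  · calc ‖(h : K)‖ ^ 2 ≤ (‖w 1‖ * √C) ^ 2 := pow_le_pow_left₀ (norm_nonneg _) hhn 2
      _ = C * (Φ 1).re := by rw [mul_pow, Real.sq_sqrt hC, hw1]; ring
  · set b : G → ℂ := fun g => inner ℂ (U g (h : K)) ζ with hb
    set s : ℝ := ∑ g ∈ T, ‖b g‖ ^ 2 with hs
    have hs0 : 0 ≤ s := Finset.sum_nonneg fun g _ => sq_nonneg _
    have h3 := hcomb T b
    have h4 : (inner ℂ (∑ g ∈ T, b g • U g (h : K)) ζ : ℂ) = (s : ℂ) := by
      rw [sum_inner, hs]
      push_cast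
      refine Finset.sum_congr rfl fun g _ => ?_
      rw [inner_smul_left]
      show (starRingEnd ℂ) (b g) * b g = _
      rw [mul_comm, Complex.mul_conj, Complex.normSq_eq_norm_sq]
      push_cast
      rfl
    have h5 := norm_inner_le_norm (𝕜 := ℂ) (∑ g ∈ T, b g • U g (h : K)) ζ
    rw [h4, Complex.norm_real, Real.norm_eq_abs, abs_of_nonneg hs0] at h5
    have h6 : s ^ 2 ≤ (C * C' * s) * ‖ζ‖ ^ 2 := by
      calc s ^ 2 ≤ (‖∑ g ∈ T, b g • U g (h : K)‖ * ‖ζ‖) ^ 2 := pow_le_pow_left₀ hs0 h5 2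
        _ = ‖∑ g ∈ T, b g • U g (h : K)‖ ^ 2 * ‖ζ‖ ^ 2 := by ring
        _ ≤ (C * C' * s) * ‖ζ‖ ^ 2 := mul_le_mul_of_nonneg_right h3 (sq_nonneg _)
    show s ≤ C * C' * ‖ζ‖ ^ 2
    rcases hs0.eq_or_lt with h0 | h0
    · rw [← h0]
      positivity
    · refine le_of_mul_le_mul_right ?_ h0
      nlinarith

end Pool.Agent.ZAR
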