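import Pool.Agent.ZAR.PartB

/-!
# ZAR: the weak closure of a group of unitaries
-/

set_option autoImplicit false

open scoped ComplexOrder Topology

namespace Pool.Agent.ZAR

open Pool.Agent.FAP Pool.Agent.JM

universe u

variable {H : Type u} [NormedAddCommGroup H] [InnerProductSpace ℂ H] [CompleteSpace H]

/-- The form of an operator. -/
noncomputable def frm (x : H →L[ℂ] H) : H × H → ℂ := fun p => inner ℂ p.1 (x p.2)

/-- The forms in the weak closure of a group. -/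
def KK (Γ : Subgroup (unitary (H →L[ℂ] H))) : Set (H × H → ℂ) :=
  closure (Set.range fun g : Γ => frm ((g : unitary (H →L[ℂ] H)) : H →L[ℂ] H))

variable {Γ : Subgroup (unitary (H →L[ℂ] H))}

theorem KK_ind {p : (H × H → ℂ) → Prop} (hcl : IsClosed {f | p f})
    (h : ∀ g : Γ, p (frm ((g : unitary (H →L[ℂ] H)) : H →L[ℂ] H))) {f : H × H → ℂ}
    (hf : f ∈ KK Γ) : p f := by
  have h1 : KK Γ ⊆ {f | p f} := closure_minimal (by rintro _ ⟨g, rfl⟩; exact h g) hcl
  exact h1 hf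

theorem norm_le_KK {f : H × H → ℂ} (hf : f ∈ KK Γ) (ξ η : H) : ‖f (ξ, η)‖ ≤ ‖ξ‖ * ‖η‖ := by
  refine KK_ind (p := fun f => ‖f (ξ, η)‖ ≤ ‖ξ‖ * ‖η‖) ?_ ?_ hf
  · exact isClosed_le (by fun_prop) continuous_const
  · intro g
    refine le_trans (norm_inner_le_norm _ _) ?_
    rw [Unitary.norm_map]

theorem isCompact_KK : IsCompact (KK Γ) := by
  have h1 : IsCompact (Set.pi Set.univ fun p : H × H =>
      Metric.closedBall (0 : ℂ) (‖p.1‖ * ‖p.2‖)) :=
    isCompact_univ_pi fun p => isCompact_closedBall _ _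
  refine h1.closure_of_subset ?_
  rintro _ ⟨g, rfl⟩ p _
  rw [Metric.mem_closedBall, dist_zero_right]
  exact norm_le_KK (subset_closure ⟨g, rfl⟩) p.1 p.2

/-- Every form in the weak closure comes from an operator. -/
theorem exists_frm {f : H × H → ℂ} (hf : f ∈ KK Γ) : ∃ x : H →L[ℂ] H, frm x = f := by
  have a1 : ∀ ξ ξ' η : H, f (ξ + ξ', η) = f (ξ, η) + f (ξ', η) := by
    intro ξ ξ' η
    refine KK_ind (p := fun f => f (ξ + ξ', η) = f (ξ, η) + f (ξ', η)) ?_ ?_ hf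
    · exact isClosed_eq (by fun_prop) (by fun_prop)
    · intro g
      exact inner_add_left _ _ _
  have a2 : ∀ (c : ℂ) (ξ η : H), f (c • ξ, η) = (starRingEnd ℂ) c • f (ξ, η) := by
    intro c ξ η
    refine KK_ind (p := fun f => f (c • ξ, η) = (starRingEnd ℂ) c • f (ξ, η)) ?_ ?_ hf
    · exact isClosed_eq (by fun_prop) (by fun_prop)
    · intro g
      exact inner_smul_left _ _ _
  have a3 : ∀ ξ η η' : H, f (ξ, η + η') = f (ξ, η) + f (ξ, η') := by
    intro ξ η η'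
    refine KK_ind (p := fun f => f (ξ, η + η') = f (ξ, η) + f (ξ, η')) ?_ ?_ hf
    · exact isClosed_eq (by fun_prop) (by fun_prop)
    · intro g
      show inner ℂ ξ (((g : unitary (H →L[ℂ] H)) : H →L[ℂ] H) (η + η')) = _
      rw [map_add, inner_add_right]
      rfl
  have a4 : ∀ (c : ℂ) (ξ η : H), f (ξ, c • η) = c • f (ξ, η) := by
    intro c ξ η
    refine KK_ind (p := fun f => f (ξ, c • η) = c • f (ξ, η)) ?_ ?_ hf
    · exact isClosed_eq (by fun_prop) (by fun_prop)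
    · intro g
      show inner ℂ ξ (((g : unitary (H →L[ℂ] H)) : H →L[ℂ] H) (c • η)) = _
      rw [map_smul, inner_smul_right]
      rfl
  let B₀ : H →ₗ⋆[ℂ] H →ₗ[ℂ] ℂ := LinearMap.mk₂'ₛₗ (starRingEnd ℂ) (RingHom.id ℂ)
    (fun ξ η => f (ξ, η)) a1 a2 a3 a4
  let B : H →L⋆[ℂ] H →L[ℂ] ℂ := B₀.mkContinuous₂ 1 fun ξ η => by
    rw [one_mul]
    exact norm_le_KK hf ξ η
  refine ⟨star (InnerProductSpace.continuousLinearMapOfBilin B), ?_⟩
  funext p
  show inner ℂ p.1 (star (InnerProductSpace.continuousLinearMapOfBilin B) p.2) = f p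
  rw [← inner_star_left', InnerProductSpace.continuousLinearMapOfBilin_apply]
  rfl

theorem frm_injective : Function.Injective (frm (H := H)) := by
  intro x y h
  ext η
  refine ext_inner_left ℂ fun ξ => ?_
  exact congrFun h (ξ, η)

/-- Membership in the weak closure. -/
def SS (Γ : Subgroup (unitary (H →L[ℂ] H))) : Set (H →L[ℂ] H) := {x | frm x ∈ KK Γ}

theorem mem_SS_coe (g : Γ) : ((g : unitary (H →L[ℂ] H)) : H →L[ℂ] H) ∈ SS Γ :=
  subset_closure ⟨g, rfl⟩

theorem mem_SS_mul_coe {x : H →L[ℂ] H} (hx : x ∈ SS Γ) (g : Γ) :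
    x * ((g : unitary (H →L[ℂ] H)) : H →L[ℂ] H) ∈ SS Γ := by
  have h1 : Continuous fun (f : H × H → ℂ) (p : H × H) =>
      f (p.1, ((g : unitary (H →L[ℂ] H)) : H →L[ℂ] H) p.2) := by fun_prop
  have h2 := map_mem_closure h1 hx (t := Set.range fun g : Γ =>
    frm ((g : unitary (H →L[ℂ] H)) : H →L[ℂ] H)) (by
      rintro _ ⟨h, rfl⟩
      exact ⟨h * g, rfl⟩)
  exact h2

theorem mem_SS_mul {x y : H →L[ℂ] H} (hx : x ∈ SS Γ) (hy : y ∈ SS Γ) : x * y ∈ SS Γ := by
  have h1 : Continuous fun (f : H × H → ℂ) (p : H × H) => f (star x p.1, p.2) := by fun_prop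
  have h2 := map_mem_closure h1 hy (t := KK Γ) (by
    rintro _ ⟨h, rfl⟩
    have h3 := mem_SS_mul_coe hx h
    have h4 : (fun p : H × H => frm ((h : unitary (H →L[ℂ] H)) : H →L[ℂ] H) (star x p.1, p.2)) =
        frm (x * ((h : unitary (H →L[ℂ] H)) : H →L[ℂ] H)) := by
      funext p
      exact (inner_star_right' x p.1 _).symm
    show (fun p : H × H => frm ((h : unitary (H →L[ℂ] H)) : H →L[ℂ] H) (star x p.1, p.2)) ∈ KK Γ
    rw [h4]
    exact h3)
  have h5 : closure (KK Γ) = KK Γ := isClosed_closure.closure_eq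
  rw [h5] at h2
  have h6 : (fun p : H × H => frm y (star x p.1, p.2)) = frm (x * y) := by
    funext p
    exact (inner_star_right' x p.1 _).symm
  rw [h6] at h2
  exact h2

theorem mem_SS_star {x : H →L[ℂ] H} (hx : x ∈ SS Γ) : star x ∈ SS Γ := by
  have h1 : Continuous fun (f : H × H → ℂ) (p : H × H) => star (f (p.2, p.1)) := by fun_prop
  have h2 := map_mem_closure h1 hx (t := Set.range fun g : Γ =>
    frm ((g : unitary (H →L[ℂ] H)) : H →L[ℂ] H)) (by
      rintro _ ⟨h, rfl⟩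
      refine ⟨h⁻¹, ?_⟩
      funext p
      show inner ℂ p.1 (star ((h : unitary (H →L[ℂ] H)) : H →L[ℂ] H) p.2) = star (inner ℂ p.2 _)
      rw [← inner_star_left', ← inner_conj_symm]
      rfl)
  have h3 : (fun p : H × H => star (frm x (p.2, p.1))) = frm (star x) := by
    funext p
    show star (inner ℂ p.2 (x p.1)) = inner ℂ p.1 (star x p.2)
    rw [← inner_star_left', ← inner_conj_symm]
    exact star_star _
  rw [h3] at h2
  exact h2

theorem mem_SS_one : (1 : H →L[ℂ] H) ∈ SS Γ := mem_SS_coe (1 : Γ)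

theorem SS_norm {x : H →L[ℂ] H} (hx : x ∈ SS Γ) (ξ : H) : ‖x ξ‖ ≤ ‖ξ‖ := by
  have h1 := norm_le_KK hx (x ξ) ξ
  have h2 : frm x (x ξ, ξ) = ((‖x ξ‖ ^ 2 : ℝ) : ℂ) := inner_self_c (x ξ)
  rw [h2, Complex.norm_real, Real.norm_of_nonneg (sq_nonneg _), sq] at h1
  by_cases h3 : ‖x ξ‖ = 0
  · rw [h3]
    exact norm_nonneg _
  · exact le_of_mul_le_mul_left h1 (lt_of_le_of_ne (norm_nonneg _) (Ne.symm h3))

theorem SS_opNorm {x : H →L[ℂ] H} (hx : x ∈ SS Γ) : ‖x‖ ≤ 1 :=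
  x.opNorm_le_bound zero_le_one fun ξ => by
    rw [one_mul]
    exact SS_norm hx ξ

/-- Operators commuting with the group commute with the weak closure. -/
theorem SS_comm {x c : H →L[ℂ] H} (hx : x ∈ SS Γ)
    (hc : ∀ g : Γ, c * ((g : unitary (H →L[ℂ] H)) : H →L[ℂ] H) =
      ((g : unitary (H →L[ℂ] H)) : H →L[ℂ] H) * c) : c * x = x * c := by
  have h1 : ∀ ξ η : H, frm x (star c ξ, η) = frm x (ξ, c η) := by
    intro ξ η
    refine KK_ind (Γ := Γ) (p := fun f => f (star c ξ, η) = f (ξ, c η)) ?_ ?_ hx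
    · exact isClosed_eq (by fun_prop) (by fun_prop)
    · intro g
      show inner ℂ (star c ξ) _ = inner ℂ ξ _
      rw [← inner_star_right']
      exact congrArg (fun T : H →L[ℂ] H => (inner ℂ ξ (T η) : ℂ)) (hc g)
  ext η
  refine ext_inner_left ℂ fun ξ => ?_
  have h2 := h1 ξ η
  have h3 : (inner ℂ ξ ((c * x) η) : ℂ) = inner ℂ (star c ξ) (x η) := inner_star_right' c ξ (x η)
  rw [h3]
  exact h2

/-- Limits along ultrafilters. -/
theorem exists_limit {α : Type*} (U : Ultrafilter α) (v : α → Γ) : ∃ x ∈ SS Γ, ∀ ξ η : H,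
    Filter.Tendsto (fun a => (inner ℂ ξ ((((v a : Γ) : unitary (H →L[ℂ] H)) : H →L[ℂ] H) η) : ℂ))
      U (𝓝 (inner ℂ ξ (x η))) := by
  obtain ⟨f, hf, hlim⟩ := (isCompact_KK (Γ := Γ)).ultrafilter_le_nhds
    (U.map fun a => frm (((v a : Γ) : unitary (H →L[ℂ] H)) : H →L[ℂ] H)) (by
      rw [Filter.le_principal_iff, Ultrafilter.mem_coe, Ultrafilter.mem_map]
      exact Filter.univ_mem' fun a => subset_closure ⟨v a, rfl⟩)
  obtain ⟨x, hx⟩ := exists_frm hf
  refine ⟨x, ?_, fun ξ η => ?_⟩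
  · show frm x ∈ KK Γ
    rw [hx]
    exact hf
  · have h1 : Filter.Tendsto (fun a => frm (((v a : Γ) : unitary (H →L[ℂ] H)) : H →L[ℂ] H))
        U (𝓝 f) := hlim
    have h2 := ((continuous_apply (ξ, η)).tendsto f).comp h1
    rw [← hx] at h2
    exact h2

end Pool.Agent.ZAR
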